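import Pool.Agent.RNE.Kd
import Pool.Agent.RNK.Px

/-!
# RNE.Bp: the base property and the primes for class number one

* `bp_ex`: `C` is the finite set of all non units of `O` dividing `N` (`RNK.fin_div`). If no `c ∈ C` divides `y ∈ O` then
  `g = u y + v N` (`D.bez`, greatest common divisor) is a unit, so `1 = u' y + v' N`; multiply by `N`:
  `y (u' N) = N - v' N²`.
* `pd_inf`: `RNK.exists_PD`; the residue field is `ZMod p` (`ZMod.card`), surjectivity of `r`: `r` of natural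
  numbers (`rone`, `radd`).
-/

open RNK

namespace RNE

theorem bp_ex (D : RNK.OD) {N : ℕ} (hN : 0 < N) : ∃ C : Finset ℂ, RNP.Bp (toP D) N C := by
  classical
  have hNO : (N : ℂ) ∈ D.O := natCast_mem D.O N
  refine ⟨(RNK.fin_div D hN).toFinset.filter (fun c => ¬ ∃ y ∈ D.O, c * y = 1), ⟨hN, ?_, ?_⟩⟩
  · intro c hc
    rw [Finset.mem_filter, Set.Finite.mem_toFinset] at hc
    exact ⟨hc.1.1, hc.1.2, hc.2⟩
  · intro y hy hc
    obtain ⟨u, hu, v, hv, ⟨x', hx', ex⟩, ⟨y', hy', ey⟩⟩ := D.bez y hy N hNO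
    have hg : u * y + v * N ∈ D.O := D.O.add_mem (D.O.mul_mem hu hy) (D.O.mul_mem hv hNO)
    by_cases hun : ∃ s ∈ D.O, (u * y + v * N) * s = 1
    · obtain ⟨s, hs, es⟩ := hun
      refine ⟨(N : ℂ) * s * u, D.O.mul_mem (D.O.mul_mem hNO hs) hu, -(s * v), D.O.neg_mem (D.O.mul_mem hs hv), ?_⟩
      linear_combination (N : ℂ) * es
    · exfalso
      refine hc (u * y + v * N) ?_ ⟨x', hx', ex⟩
      rw [Finset.mem_filter, Set.Finite.mem_toFinset]
      exact ⟨⟨hg, y', hy', ey⟩, hun⟩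

theorem pd_inf (D : RNK.OD) (P0 : ℕ) : ∃ π : RNP.PD (toP D), P0 < π.p := by
  obtain ⟨π, hπ⟩ := RNK.exists_PD D P0
  have h0 : π.r 0 = 0 := by
    have h := π.radd 0 D.O.zero_mem 0 D.O.zero_mem
    rw [add_zero] at h
    exact left_eq_add.1 h
  have hn : ∀ n : ℕ, π.r (n : ℂ) = (n : ZMod π.p) := by
    intro n
    induction n with
    | zero => rw [Nat.cast_zero, Nat.cast_zero, h0]
    | succ n ih =>
      rw [Nat.cast_succ, π.radd _ (natCast_mem D.O n) _ D.O.one_mem, ih, π.rone, Nat.cast_succ]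
  refine ⟨⟨ZMod π.p, inferInstance, inferInstance, π.w, π.hw, ?_, π.r, π.radd, π.rmul, π.rone, ?_, π.rker⟩, ?_⟩
  · rw [π.nw]
    congr 1
    exact (ZMod.card π.p).symm
  · intro t
    refine ⟨(t.val : ℂ), natCast_mem D.O _, ?_⟩
    rw [hn, ZMod.natCast_zmod_val]
  · show P0 < Fintype.card (ZMod π.p)
    rw [ZMod.card]
    exact hπ

end RNE
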