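import Pool.Agent.RN2.Cd
import Pool.Agent.RNP.Defs

/-!
# RNE: common definitions (MP_870c49_nt, rank one for all newforms with complex multiplication by a
field of class number one)

`D : RNK.OD` the order `O` (Bezout), `toP D` the same order as `RNP.OD`. `Hc D m`: the characters
`η` mod `m`, such that `x ↦ η(x) x²` is a Hecke character; they have values in `K`, are trivial on
the integers prime to `m`, and primitive.
-/

open RNK

namespace RNE

noncomputable section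

/-- the order without the Bezout property -/
abbrev toP (D : RNK.OD) : RNP.OD := ⟨D.a⟩

/-- the characters of the newforms -/
structure Hc (D : RNK.OD) (m : ℕ) extends RN2.Chr D m where
  val : ∀ x, f x ∈ D.K
  int : ∀ n : ℤ, RN2.Cp m ((n : ℤ) : D.O) → f ((n : ℤ) : D.O) = 1
  unit : ∀ u : D.Oˣ, f (u : D.O) * (((u : D.O)) : ℂ) ^ 2 = 1
  prim : ∀ q q' : D.O, q * q' = (m : D.O) → ¬ IsUnit q →
    ∃ y : D.O, RN2.Cp m (1 + q' * y) ∧ f (1 + q' * y) ≠ 1

variable {D : RNK.OD}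

open Classical in
/-- a function on `O` as a function on `ℂ` -/
def ex (a : D.O → ℂ) (x : ℂ) : ℂ := if h : x ∈ D.O then a ⟨x, h⟩ else 0

/-- complex conjugation on `O` -/
def cj (x : D.O) : D.O := ⟨(starRingEnd ℂ) (x : ℂ), cj_Ord x.2⟩

/-- the theta series of weight two -/
def th2 (N : ℕ) (a : D.O → ℂ) (t : ℝ) : ℂ :=
  ∑' x : D.O, a x * (x : ℂ) ^ 2 *
    ((Real.exp (-(Real.pi * t / (N * (UNI.om D.a).im)) * RN2.nn D x) : ℝ) : ℂ)

/-- the dual theta series of weight two -/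
def th2c (N : ℕ) (a : D.O → ℂ) (t : ℝ) : ℂ :=
  ∑' x : D.O, a x * (starRingEnd ℂ) (x : ℂ) ^ 2 *
    ((Real.exp (-(Real.pi * t / (N * (UNI.om D.a).im)) * RN2.nn D x) : ℝ) : ℂ)

/-- the value `Σ a(x) x² |x|⁻⁸` -/
def E4 (a : D.O → ℂ) : ℂ := ∑' x : D.O, a x * (x : ℂ) ^ 2 / ((RN2.nn D x : ℕ) : ℂ) ^ 4

/-- the value `Σ a(x) x⁻⁴ x̄⁻²` -/
def La (a : D.O → ℂ) : ℂ :=
  ∑' x : D.O, a x * ((x : ℂ) ^ 4 * (starRingEnd ℂ) (x : ℂ) ^ 2)⁻¹

end

end RNE
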