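import Pool.Agent.RNE.Kd
import Pool.Agent.RNP.Ls
import Pool.Agent.RNK.Sl

/-!
# RNE.Mo: the line sums of functions of type `χ`

`P` admissible with `P (x w) = χ(x) P w` for `w ∈ (1/M) O²`, `x` prime to `M m`. Adapts `RNK/Sl` (the case `χ = 1`):
1. There are natural `n, M' > 0`, `m ∣ M'`, `M ∣ M'`, such that `P (t c) ≠ 0 → n t ∈ O` and
  `H s = P ((s / n) c)` is a function on `O / M' O` with values in `K` with `H (x s) = χ(x) H s` for `x` prime to
  `M'`, `s ∈ O` (`MoH`).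
2. `mo_gcd`: for `s ∈ O` there are `g ∈ O` dividing `M'` and `x` prime to `M'` with `x s ≡ g` mod `M'`, so
  `χ(x) H s = H g`.
3. `mo_dvd`: let `d ∣ M'` (in `O`), `H d ≠ 0`. Then `m d ∣ M'`.
4. Basis functions: `moE`: `e_d(s) = χ(s / d)` for `s ∈ d O`, `0` else, for `d` with `m d ∣ M'`.
5. Induction (`mo_main`): subtract `H(d) e_d` for `d` with `H d ≠ 0`, `d ∣ M'` and `|d|` minimal.
-/

open RNK

namespace RNE

noncomputable section

variable {D : RNK.OD} {m : ℕ} [NeZero m] (χ : Kc D m)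

/-! ### arithmetic -/

private theorem mo_bez (x y : D.O) : ∃ a b s t : D.O, x = (a * x + b * y) * s ∧
    y = (a * x + b * y) * t := by
  obtain ⟨a, ha, b, hb, ⟨s, hs, e1⟩, ⟨t, ht, e2⟩⟩ := D.bez x x.2 y y.2
  exact ⟨⟨a, ha⟩, ⟨b, hb⟩, ⟨s, hs⟩, ⟨t, ht⟩, Subtype.ext e1, Subtype.ext e2⟩

/-- split off the part of `M` made of the primes of `u` -/
private theorem mo_split (u : D.O) (n : ℕ) : ∀ M : D.O, M ≠ 0 → RN2.nn D M ≤ n →
    ∃ M1 M2 v : D.O, ∃ k : ℕ, M = M1 * M2 ∧ IsCoprime u M2 ∧ u ^ k = M1 * v := by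
  induction n with
  | zero =>
    intro M h0 h
    exact absurd (RN2.nn_eq_zero.1 (Nat.le_zero.1 h)) h0
  | succ n ih =>
    intro M h0 h
    obtain ⟨a, b, M', u', e1, e2⟩ := mo_bez M u
    set g : D.O := a * M + b * u with hg
    have hg0 : g ≠ 0 := by
      intro hg0
      rw [hg0, zero_mul] at e1
      exact h0 e1
    by_cases hu : IsUnit g
    · obtain ⟨y, hy⟩ := hu.exists_right_inv
      refine ⟨1, M, 1, 0, by ring, ⟨y * b, y * a, ?_⟩, by ring⟩
      rw [← hy, hg]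
      ring
    · have h1 : RN2.nn D M = RN2.nn D g * RN2.nn D M' := by
        rw [← RN2.nn_mul, ← e1]
      have hM'0 : M' ≠ 0 := by
        intro h
        rw [h, mul_zero] at e1
        exact h0 e1
      have h2 : RN2.nn D g ≠ 0 := fun h => hg0 (RN2.nn_eq_zero.1 h)
      have h3 : RN2.nn D g ≠ 1 := fun h => hu (RN2.nn_eq_one.1 h)
      have h4 : RN2.nn D M' ≠ 0 := fun h => hM'0 (RN2.nn_eq_zero.1 h)
      have h5 : RN2.nn D M' ≤ n := by
        have h6 : 2 ≤ RN2.nn D g := by omega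
        have h7 : 2 * RN2.nn D M' ≤ RN2.nn D g * RN2.nn D M' := Nat.mul_le_mul_right _ h6
        omega
      obtain ⟨M1, M2, v, k, e3, hc, e4⟩ := ih M' hM'0 h5
      refine ⟨g * M1, M2, u' * v, k + 1, ?_, hc, ?_⟩
      · rw [e1, e3]
        ring
      · rw [pow_succ, e4]
        nth_rewrite 1 [e2]
        ring

/-- if `(u, N) = 1` then some `u + t N` is prime to `M` -/
private theorem mo_lift {u N M : D.O} (h : IsCoprime u N) (h0 : M ≠ 0) :
    ∃ t : D.O, IsCoprime (u + N * t) M := by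
  obtain ⟨M1, M2, v, k, rfl, hc, e⟩ := mo_split u (RN2.nn D M) M h0 le_rfl
  refine ⟨M2, ?_⟩
  have h1 : IsCoprime (u + N * M2) M2 := IsCoprime.add_mul_right_left hc N
  have h2 : IsCoprime (u + N * M2) u := by
    have h3 : IsCoprime (N * M2) u := IsCoprime.mul_left h.symm hc.symm
    have h4 := IsCoprime.add_mul_left_left h3 1
    rwa [mul_one, add_comm] at h4
  have h5 : IsCoprime (u + N * M2) M1 :=
    IsCoprime.of_isCoprime_of_dvd_right (h2.pow_right (n := k)) ⟨v, e⟩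
  exact IsCoprime.mul_right h5 h1

/-! ### the character -/

include χ in
omit [NeZero m] in
private theorem mo_ne {x : D.O} (hx : RN2.Cp m x) : χ.f x ≠ 0 := by
  obtain ⟨a, b, h⟩ := hx
  intro h0
  have h1 : χ.f (a * x) = 1 := by
    have e : a * x = 1 + (m : D.O) * (-b) := by rw [← h]; ring
    rw [e, χ.per, χ.one]
  rw [χ.mul, h0, mul_zero] at h1
  exact zero_ne_one h1

private theorem mo_bdd : ∃ C : ℝ, ∀ x, ‖χ.f x‖ ≤ C := by
  obtain ⟨C, hC⟩ := (Set.finite_range fun k : UNL.G m => ‖χ.f (RN2.rp D k)‖).bddAbove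
  refine ⟨C, fun x => ?_⟩
  obtain ⟨y, hy⟩ := RN2.rp_cls (N := m) x
  have h1 := hC ⟨RN2.cls m x, rfl⟩
  have h2 : χ.f x = χ.f (RN2.rp D (RN2.cls m x)) := by
    conv_lhs => rw [hy]
    exact χ.per _ _
  rw [h2]
  exact h1

/-! ### functions of type `χ` on `O / M O` -/

/-- functions of type `χ` on `O / M O` -/
private structure MoH (M : ℕ) (H : D.O → ℂ) : Prop where
  val : ∀ s, H s ∈ D.K
  per : ∀ s v, H (s + (M : D.O) * v) = H s
  eqv : ∀ x, RN2.Cp M x → ∀ s, H (x * s) = χ.f x * H s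
  bdd : ∃ C : ℝ, ∀ s, ‖H s‖ ≤ C

omit [NeZero m] in
private theorem mo_cp {M : ℕ} (hmM : m ∣ M) {x : D.O} (hx : RN2.Cp M x) : RN2.Cp m x := by
  obtain ⟨q, rfl⟩ := hmM
  have h : IsCoprime x ((m : D.O) * (q : D.O)) := by
    have h1 : IsCoprime x ((m * q : ℕ) : D.O) := hx
    rwa [Nat.cast_mul] at h1
  exact h.of_mul_right_left

omit [NeZero m] in
private theorem mo_gcd {M : ℕ} (hM : (M : D.O) ≠ 0) {H : D.O → ℂ} (hH : MoH χ M H) (s : D.O) :
    ∃ g : D.O, g ∣ (M : D.O) ∧ ∃ x, RN2.Cp M x ∧ χ.f x * H s = H g := by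
  obtain ⟨u, v, s', N, e1, e2⟩ := mo_bez s (M : D.O)
  set g : D.O := u * s + v * M with hg
  have hg0 : g ≠ 0 := by
    intro hg0
    rw [hg0, zero_mul] at e2
    exact hM e2
  have hc : IsCoprime u N := by
    refine ⟨s', v, ?_⟩
    have h1 : g * (s' * u + v * N - 1) = 0 := by
      have h2 : g * s' = s := e1.symm
      have h3 : g * N = M := e2.symm
      linear_combination u * h2 + v * h3 - hg
    exact sub_eq_zero.1 ((mul_eq_zero.1 h1).resolve_left hg0)
  obtain ⟨t, hx⟩ := mo_lift hc hM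
  refine ⟨g, ⟨N, e2⟩, u + N * t, hx, ?_⟩
  rw [← hH.eqv _ hx s]
  have h4 : (u + N * t) * s = g + (M : D.O) * (t * s' - v) := by
    have h2 : g * s' = s := e1.symm
    have h3 : g * N = M := e2.symm
    linear_combination (-(N * t)) * h2 + (t * s') * h3 - hg
  rw [h4]
  exact hH.per g _

omit [NeZero m] in
private theorem mo_dvd {M : ℕ} (hM : (M : D.O) ≠ 0) (hmM : m ∣ M) {H : D.O → ℂ} (hH : MoH χ M H)
    {d : D.O} (hd : d ∣ (M : D.O)) (h : H d ≠ 0) : (m : D.O) * d ∣ (M : D.O) := by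
  obtain ⟨e, he⟩ := hd
  obtain ⟨u, v, q, e', e1, e2⟩ := mo_bez (m : D.O) e
  set g : D.O := u * m + v * e with hg
  by_cases hq : IsUnit q
  · obtain ⟨q', hq'⟩ := hq.exists_right_inv
    refine ⟨q' * e', ?_⟩
    have h2 : g * q = m := e1.symm
    have h3 : g * e' = e := e2.symm
    rw [he]
    linear_combination (d * q' * e') * h2 + (-d) * h3 + (-(d * e' * g)) * hq'
  · exfalso
    obtain ⟨y, hy1, hy2⟩ := χ.prim q g (by rw [mul_comm]; exact e1.symm) hq
    -- the element `z'`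
    have e3 : 1 + e * (v * y) = (1 + g * y) + (m : D.O) * (-(u * y)) := by
      rw [hg]
      ring
    have hz1 : RN2.Cp m (1 + e * (v * y)) := by
      rw [e3]
      exact (IsCoprime.add_mul_left_left hy1 _ : IsCoprime _ (m : D.O))
    have hz2 : χ.f (1 + e * (v * y)) ≠ 1 := by
      rw [e3, χ.per]
      exact hy2
    have hz3 : IsCoprime (1 + e * (v * y)) e := by
      exact IsCoprime.add_mul_left_left isCoprime_one_left _
    obtain ⟨t, ht⟩ := mo_lift (IsCoprime.mul_right hz3 hz1 :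
      IsCoprime (1 + e * (v * y)) (e * (m : D.O))) hM
    have h4 : χ.f (1 + e * (v * y) + e * (m : D.O) * t) = χ.f (1 + e * (v * y)) := by
      have e4 : 1 + e * (v * y) + e * (m : D.O) * t =
          1 + e * (v * y) + (m : D.O) * (e * t) := by ring
      rw [e4, χ.per]
    have h5 : (1 + e * (v * y) + e * (m : D.O) * t) * d =
        d + (M : D.O) * (v * y + m * t) := by
      rw [he]
      ring
    have h6 := hH.eqv _ ht d
    rw [h5, hH.per, h4] at h6
    have h7 : (χ.f (1 + e * (v * y)) - 1) * H d = 0 := by linear_combination -h6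
    rcases mul_eq_zero.1 h7 with h8 | h8
    · exact hz2 (sub_eq_zero.1 h8)
    · exact h h8

open Classical in
private noncomputable def moE (d : D.O) (t : D.O) : ℂ :=
  if h : ∃ y, t = d * y then χ.f (Classical.choose h) else 0

omit [NeZero m] in
private theorem moE_mul {d : D.O} (hd : d ≠ 0) (y : D.O) : moE χ d (d * y) = χ.f y := by
  have h : ∃ y', d * y = d * y' := ⟨y, rfl⟩
  unfold moE
  rw [dif_pos h]
  have h1 := Classical.choose_spec h
  rw [← mul_left_cancel₀ hd h1]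

omit [NeZero m] in
private theorem moE_not {d t : D.O} (h : ¬ d ∣ t) : moE χ d t = 0 := by
  unfold moE
  rw [dif_neg]
  rintro ⟨y, hy⟩
  exact h ⟨y, hy⟩

private theorem moE_H {M : ℕ} {d : D.O} (hd0 : d ≠ 0)
    (hd : (m : D.O) * d ∣ (M : D.O)) : MoH χ M (moE χ d) := by
  obtain ⟨z, hz⟩ := hd
  refine ⟨?_, ?_, ?_, ?_⟩
  · intro s
    unfold moE
    split_ifs
    · exact χ.val _
    · exact D.K.zero_mem
  · intro s v
    by_cases h : d ∣ s
    · obtain ⟨y, rfl⟩ := h
      have e : d * y + (M : D.O) * v = d * (y + (m : D.O) * (z * v)) := by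
        rw [hz]
        ring
      rw [e, moE_mul χ hd0, moE_mul χ hd0, χ.per]
    · rw [moE_not χ h, moE_not χ]
      intro h'
      apply h
      have h1 : d ∣ (M : D.O) * v := ⟨m * z * v, by rw [hz]; ring⟩
      exact (dvd_add_left h1).1 h'
  · intro x hx s
    by_cases h : d ∣ s
    · obtain ⟨y, rfl⟩ := h
      have e : x * (d * y) = d * (x * y) := by ring
      rw [e, moE_mul χ hd0, moE_mul χ hd0, χ.mul]
    · rw [moE_not χ h, mul_zero, moE_not χ]
      intro h'
      apply h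
      have h1 : IsCoprime x d :=
        IsCoprime.of_isCoprime_of_dvd_right (hx : IsCoprime x (M : D.O)) ⟨m * z, by rw [hz]; ring⟩
      exact h1.symm.dvd_of_dvd_mul_left h'
  · obtain ⟨C, hC⟩ := mo_bdd χ
    refine ⟨max C 0, fun s => ?_⟩
    unfold moE
    split_ifs
    · exact (hC _).trans (le_max_left _ _)
    · rw [norm_zero]
      exact le_max_right _ _

omit [NeZero m] in
private theorem moH_sub {M : ℕ} {H G : D.O → ℂ} (hH : MoH χ M H) (hG : MoH χ M G) {k : ℂ}
    (hk : k ∈ D.K) : MoH χ M (fun s => H s - k * G s) := by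
  refine ⟨?_, ?_, ?_, ?_⟩
  · intro s
    exact D.K.sub_mem (hH.val s) (D.K.mul_mem hk (hG.val s))
  · intro s v
    show H (s + M * v) - k * G (s + M * v) = H s - k * G s
    rw [hH.per s v, hG.per s v]
  · intro x hx s
    show H (x * s) - k * G (x * s) = χ.f x * (H s - k * G s)
    rw [hH.eqv x hx s, hG.eqv x hx s]
    ring
  · obtain ⟨C, hC⟩ := hH.bdd
    obtain ⟨C', hC'⟩ := hG.bdd
    refine ⟨C + ‖k‖ * C', fun s => ?_⟩
    refine (norm_sub_le _ _).trans (add_le_add (hC s) ?_)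
    rw [norm_mul]
    exact mul_le_mul_of_nonneg_left (hC' s) (norm_nonneg _)

/-! ### the sums -/

/-- the weight -/
private def mw (x : ℂ) : ℂ := (x ^ 4 * (starRingEnd ℂ) x ^ 2)⁻¹

private theorem mw_mul (x y : ℂ) : mw (x * y) = mw x * mw y := by
  unfold mw
  rw [← mul_inv, map_mul]
  congr 1
  ring

private theorem mw_sum (D : RNK.OD) : Summable fun x : D.O => ‖mw (x : ℂ)‖ := by
  let e : D.O ≃ ℤ × ℤ := ⟨RN2.cod D, RN2.el D, RN2.el_cod D, RN2.cod_el⟩
  have h1 := (RNK.Lam_summable D).norm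
  have h2 := (Equiv.summable_iff e).2 h1
  refine h2.congr fun x => ?_
  show ‖1 / (UNI.xx D.a (RN2.cod D x) ^ 4 * (starRingEnd ℂ) (UNI.xx D.a (RN2.cod D x)) ^ 2)‖ = _
  rw [RN2.xx_cod, one_div]
  rfl

private theorem mo_sum {H : D.O → ℂ} (hH : ∃ C : ℝ, ∀ s, ‖H s‖ ≤ C) :
    Summable fun x : D.O => H x * mw (x : ℂ) := by
  obtain ⟨C, hC⟩ := hH
  refine Summable.of_norm_bounded ((mw_sum D).mul_left C) fun x => ?_
  rw [norm_mul]
  exact mul_le_mul_of_nonneg_right (hC x) (norm_nonneg _)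

/-- the conclusion -/
private def MoV (H : D.O → ℂ) : Prop :=
  ∃ k ∈ D.K, ∑' t : D.O, H t * mw (t : ℂ) = k * La χ.f

omit [NeZero m] in
private theorem moV_E {d : D.O} (h0 : d ≠ 0) : MoV χ (moE χ d) := by
  have hinj : Function.Injective fun y : D.O => d * y := fun y y' h => mul_left_cancel₀ h0 h
  have h1 : ∑' y : D.O, moE χ d (d * y) * mw ((d * y : D.O) : ℂ) =
      ∑' t : D.O, moE χ d t * mw (t : ℂ) := by
    refine hinj.tsum_eq (f := fun t : D.O => moE χ d t * mw (t : ℂ)) ?_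
    intro t ht
    by_contra h
    apply ht
    have h2 : moE χ d t = 0 := moE_not χ fun ⟨y, hy⟩ => h ⟨y, hy.symm⟩
    show moE χ d t * mw (t : ℂ) = 0
    rw [h2, zero_mul]
  refine ⟨mw (d : ℂ), ?_, ?_⟩
  · unfold mw
    exact D.K.inv_mem (D.K.mul_mem (D.K.pow_mem (O_sub_K d.2) 4)
      (D.K.pow_mem (cj_K (O_sub_K d.2)) 2))
  · rw [← h1, La, ← tsum_mul_left]
    refine tsum_congr fun y => ?_
    rw [moE_mul χ h0]
    have e : ((d * y : D.O) : ℂ) = (d : ℂ) * (y : ℂ) := rfl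
    rw [e, mw_mul]
    show χ.f y * (mw d * mw y) = mw d * (χ.f y * mw y)
    ring

omit [NeZero m] in
private theorem moV_zero : MoV χ (fun _ => 0) := by
  refine ⟨0, D.K.zero_mem, ?_⟩
  simp only [zero_mul, tsum_zero]

omit [NeZero m] in
private theorem moV_add {M : ℕ} {H G : D.O → ℂ} (hH' : MoH χ M H) (hG' : MoH χ M G) {k : ℂ}
    (hk : k ∈ D.K) (hH : MoV χ (fun s => H s - k * G s)) (hG : MoV χ G) : MoV χ H := by
  obtain ⟨k1, hk1, e1⟩ := hH
  obtain ⟨k2, hk2, e2⟩ := hG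
  have e : (fun t : D.O => H t * mw (t : ℂ)) = fun t : D.O =>
      (H t - k * G t) * mw (t : ℂ) + k * (G t * mw (t : ℂ)) := by
    funext t
    ring
  refine ⟨k1 + k * k2, D.K.add_mem hk1 (D.K.mul_mem hk hk2), ?_⟩
  rw [e]
  rw [Summable.tsum_add (mo_sum (moH_sub χ hH' hG' hk).bdd) ((mo_sum hG'.bdd).mul_left k), e1,
    tsum_mul_left, e2]
  ring

private theorem mo_main {M : ℕ} (hM : (M : D.O) ≠ 0) (hmM : m ∣ M) (n : ℕ) :
    ∀ H : D.O → ℂ, MoH χ M H →
    {q : D.O | q ∣ (M : D.O) ∧ ∃ q' : D.O, H q' ≠ 0 ∧ q' ∣ q}.ncard ≤ n → MoV χ H := by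
  have hfin0 : {q : D.O | q ∣ (M : D.O)}.Finite := by
    refine (RN2.nn_fin (RN2.nn D (M : D.O))).subset ?_
    rintro q ⟨z, hz⟩
    show RN2.nn D q ≤ RN2.nn D (M : D.O)
    have h1 : RN2.nn D (M : D.O) = RN2.nn D q * RN2.nn D z := by rw [← RN2.nn_mul, ← hz]
    rw [h1]
    refine Nat.le_mul_of_pos_right _ (Nat.pos_of_ne_zero fun h => ?_)
    rw [RN2.nn_eq_zero.1 h, mul_zero] at hz
    exact hM hz
  have hfin : ∀ H : D.O → ℂ,
      {q : D.O | q ∣ (M : D.O) ∧ ∃ q' : D.O, H q' ≠ 0 ∧ q' ∣ q}.Finite := fun H =>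
    hfin0.subset fun q hq => hq.1
  have hz : ∀ H : D.O → ℂ, MoH χ M H → (∀ q : D.O, q ∣ (M : D.O) → H q = 0) →
      MoV χ H := by
    intro H hH h
    have e : H = fun _ => 0 := by
      funext s
      obtain ⟨g, hgM, x, hx, e⟩ := mo_gcd χ hM hH s
      rw [h g hgM] at e
      exact (mul_eq_zero.1 e).resolve_left (mo_ne χ (mo_cp hmM hx))
    rw [e]
    exact moV_zero χ
  induction n with
  | zero =>
    intro H hH hc
    apply hz H hH
    intro q hqM
    by_contra h1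
    have h2 : q ∈ {q : D.O | q ∣ (M : D.O) ∧ ∃ q' : D.O, H q' ≠ 0 ∧ q' ∣ q} :=
      ⟨hqM, q, h1, dvd_rfl⟩
    have h3 := (Set.ncard_eq_zero (hfin H)).1 (Nat.le_zero.1 hc)
    rw [h3] at h2
    exact h2
  | succ n ih =>
    intro H hH hc
    by_cases hne : ∀ q : D.O, q ∣ (M : D.O) → H q = 0
    · exact hz H hH hne
    push Not at hne
    obtain ⟨q0, hq0M, hq0H⟩ := hne
    -- a divisor of minimal norm in the support
    have hTfin : {q : D.O | q ∣ (M : D.O) ∧ H q ≠ 0}.Finite :=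
      hfin0.subset fun q hq => hq.1
    obtain ⟨d, ⟨hdM, hdH⟩, hmin⟩ := Set.exists_min_image _ (fun q : D.O => RN2.nn D q) hTfin
      ⟨q0, hq0M, hq0H⟩
    have hd0 : d ≠ 0 := by
      rintro rfl
      exact hM (zero_dvd_iff.1 hdM)
    have hmd := mo_dvd χ hM hmM hH hdM hdH
    have hI := moE_H χ hd0 hmd
    have hK := hH.val d
    refine moV_add χ hH hI hK (ih _ (moH_sub χ hH hI hK) ?_) (moV_E χ hd0)
    -- the support shrinks
    have hsub : {q : D.O | q ∣ (M : D.O) ∧ ∃ q' : D.O, H q' - H d * moE χ d q' ≠ 0 ∧ q' ∣ q} ⊂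
        {q : D.O | q ∣ (M : D.O) ∧ ∃ q' : D.O, H q' ≠ 0 ∧ q' ∣ q} := by
      rw [Set.ssubset_iff_of_subset]
      · refine ⟨d, ⟨hdM, d, hdH, dvd_rfl⟩, ?_⟩
        rintro ⟨-, q', hq'H, y, e⟩
        have hq'0 : q' ≠ 0 := by
          rintro rfl
          rw [zero_mul] at e
          exact hd0 e
        have hy0 : y ≠ 0 := by
          rintro rfl
          rw [mul_zero] at e
          exact hd0 e
        -- `q'` is associated to `d` as soon as `y` is a unit
        have hunit : IsUnit y → False := by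
          intro hy
          obtain ⟨y', e1⟩ := hy.exists_right_inv
          apply hq'H
          have e2 : q' = y' * d := by
            rw [e]
            linear_combination (-q') * e1
          have h1 : H q' = χ.f y' * H d := by
            rw [e2]
            exact hH.eqv y' ⟨y, 0, by linear_combination e1⟩ d
          have h2 : moE χ d q' = χ.f y' := by
            rw [e2, mul_comm]
            exact moE_mul χ hd0 y'
          rw [h1, h2]
          ring
        by_cases hq'0H : H q' = 0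
        · -- then `d` divides `q'`
          have h3 : d ∣ q' := by
            by_contra h3
            apply hq'H
            rw [hq'0H, moE_not χ h3, mul_zero, sub_zero]
          obtain ⟨y', e3⟩ := h3
          refine hunit (IsUnit.of_mul_eq_one y' ?_)
          have h4 : d * (y * y' - 1) = 0 := by
            have h5 : d = d * y' * y := by
              rw [← e3]
              exact e
            linear_combination (-1 : D.O) * h5
          exact sub_eq_zero.1 ((mul_eq_zero.1 h4).resolve_left hd0)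
        · have h3 : RN2.nn D d ≤ RN2.nn D q' := hmin q' ⟨(Dvd.intro y e.symm).trans hdM, hq'0H⟩
          have h4 : RN2.nn D d = RN2.nn D q' * RN2.nn D y := by
            rw [← RN2.nn_mul, ← e]
          have h5 : RN2.nn D q' ≠ 0 := fun h => hq'0 (RN2.nn_eq_zero.1 h)
          have h6 : RN2.nn D y ≠ 0 := fun h => hy0 (RN2.nn_eq_zero.1 h)
          have h7 : RN2.nn D y = 1 := by
            by_contra h7
            have h8 : 2 ≤ RN2.nn D y := by omega
            have h9 : RN2.nn D q' * 2 ≤ RN2.nn D q' * RN2.nn D y := Nat.mul_le_mul_left _ h8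
            omega
          exact hunit (RN2.nn_eq_one.1 h7)
      · rintro q ⟨hq, q', hq'H, hq'q⟩
        refine ⟨hq, ?_⟩
        by_cases hq'0H : H q' = 0
        · have h3 : d ∣ q' := by
            by_contra h3
            apply hq'H
            rw [hq'0H, moE_not χ h3, mul_zero, sub_zero]
          exact ⟨d, hdH, h3.trans hq'q⟩
        · exact ⟨q', hq'0H, hq'q⟩
    have h9 := Set.ncard_lt_ncard hsub (hfin H)
    omega

theorem ls_chi {M : ℕ} {P : Vec → ℂ} (hP : RNP.Adm (toP D) M P)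
    (he : ∀ w, RNP.O2 (toP D) ((M : ℂ) • w) → ∀ x : D.O, RN2.Cp (M * m) x →
      P ((x : ℂ) • w) = χ.f x * P w) {c : Vec} (hc : RNP.Cu (toP D) c) :
    ∃ k ∈ D.K, RNP.ls P c = k * La χ.f := by
  have hM0 := hP.pos
  have hm0 : 0 < m := Nat.pos_of_ne_zero (NeZero.ne m)
  obtain ⟨n0, hn0, hc0⟩ := RNP.clear hc.1
  -- the denominator
  have hn1 : ∃ n1 : ℕ, 0 < n1 ∧ ∀ t : ℂ, P (t • c) ≠ 0 → ((n1 * M : ℕ) : ℂ) * t ∈ D.O := by
    have key : ∀ ci : ℂ, ci ∈ D.K → ci ≠ 0 → ∃ n1 : ℕ, 0 < n1 ∧ ∀ t : ℂ,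
        (M : ℂ) * (t * ci) ∈ D.O → ((n1 * M : ℕ) : ℂ) * t ∈ D.O := by
      intro ci hci hci0
      obtain ⟨n1, hn1, h1⟩ := D.K.inv_mem hci
      refine ⟨n1, hn1, fun t ht => ?_⟩
      have h2 := D.O.mul_mem h1 ht
      have e : (n1 : ℂ) * ci⁻¹ * ((M : ℂ) * (t * ci)) = ((n1 * M : ℕ) : ℂ) * t := by
        push_cast
        field_simp
      rwa [e] at h2
    by_cases h1 : c.1 = 0
    · have h2 : c.2 ≠ 0 := fun h2 => hc.2 (Prod.ext h1 h2)
      obtain ⟨n1, hn1, h3⟩ := key c.2 hc.1.2 h2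
      exact ⟨n1, hn1, fun t ht => h3 t (hP.supp _ ht).2⟩
    · obtain ⟨n1, hn1, h3⟩ := key c.1 hc.1.1 h1
      exact ⟨n1, hn1, fun t ht => h3 t (hP.supp _ ht).1⟩
  obtain ⟨n1, hn1, hden⟩ := hn1
  obtain ⟨n, hn, hden'⟩ : ∃ n : ℕ, 0 < n ∧ ∀ t : ℂ, P (t • c) ≠ 0 → (n : ℂ) * t ∈ D.O :=
    ⟨n1 * M, Nat.mul_pos hn1 hM0, hden⟩
  have hn' : (n : ℂ) ≠ 0 := by exact_mod_cast hn.ne'
  set M' : ℕ := M * m * n * n0 with hMdef
  have hM' : 0 < M' := Nat.mul_pos (Nat.mul_pos (Nat.mul_pos hM0 hm0) hn) hn0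
  have hM'0 : (M' : D.O) ≠ 0 := by
    intro h
    have h1 : ((M' : D.O) : ℂ) = 0 := by rw [h]; rfl
    rw [Subring.coe_natCast] at h1
    exact hM'.ne' (by exact_mod_cast h1)
  have hmM' : m ∣ M' := ⟨M * n * n0, by rw [hMdef]; ring⟩
  set H : D.O → ℂ := fun s => P (((s : ℂ) / n) • c) with hHdef
  have hH : MoH χ M' H := by
    refine ⟨?_, ?_, ?_, ?_⟩
    · intro s
      exact hP.val _
    · intro s v
      show P ((((s + (M' : D.O) * v : D.O) : ℂ) / n) • c) = P (((s : ℂ) / n) • c)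
      have e : (((s + (M' : D.O) * v : D.O) : ℂ) / n) • c = ((s : ℂ) / n) • c +
          (M : ℂ) • ((((m : ℂ)) * v) • ((n0 : ℂ) • c)) := by
        rw [smul_smul, smul_smul, ← add_smul]
        congr 1
        rw [Subring.coe_add, Subring.coe_mul, Subring.coe_natCast, hMdef]
        push_cast
        field_simp
      rw [e]
      exact hP.per _ _ (RNP.O2_smul ((toP D).O.mul_mem (natCast_mem _ m) v.2) hc0)
    · intro x hx s
      show P ((((x * s : D.O) : ℂ) / n) • c) = χ.f x * P (((s : ℂ) / n) • c)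
      have e : (((x * s : D.O) : ℂ) / n) • c = (x : ℂ) • (((s : ℂ) / n) • c) := by
        rw [smul_smul, Subring.coe_mul]
        congr 1
        ring
      rw [e]
      have hx1 : RN2.Cp (M * m) x := mo_cp ⟨n * n0, by rw [hMdef]; ring⟩ hx
      by_cases h1 : RNP.O2 (toP D) ((M : ℂ) • (((s : ℂ) / n) • c))
      · exact he _ h1 x hx1
      · have h2 : P (((s : ℂ) / n) • c) = 0 := by
          by_contra h2
          exact h1 (hP.supp _ h2)
        rw [h2, mul_zero]
        by_contra h3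
        apply h1
        have h4 := hP.supp _ h3
        rw [smul_comm] at h4
        have h5 : (M' : ℂ) • ((M : ℂ) • (((s : ℂ) / n) • c)) =
            ((M : ℂ) * m * M * s) • ((n0 : ℂ) • c) := by
          rw [smul_smul, smul_smul, smul_smul]
          congr 1
          rw [hMdef]
          push_cast
          field_simp
        have h6 : RNP.O2 (toP D) ((M' : ℂ) • ((M : ℂ) • (((s : ℂ) / n) • c))) := by
          rw [h5]
          exact RNP.O2_smul ((toP D).O.mul_mem ((toP D).O.mul_mem ((toP D).O.mul_mem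
            (natCast_mem _ M) (natCast_mem _ m)) (natCast_mem _ M)) s.2) hc0
        obtain ⟨a, b, hab⟩ := hx
        have hab' : (a : ℂ) * x + b * M' = 1 := by
          have h7 := congrArg (fun y : D.O => (y : ℂ)) hab
          simpa only [Subring.coe_add, Subring.coe_mul, Subring.coe_natCast,
            Subring.coe_one] using h7
        have h8 : (M : ℂ) • (((s : ℂ) / n) • c) = (a : ℂ) • ((x : ℂ) • ((M : ℂ) •
            (((s : ℂ) / n) • c))) + (b : ℂ) • ((M' : ℂ) • ((M : ℂ) • (((s : ℂ) / n) • c))) := by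
          rw [smul_smul (a : ℂ), smul_smul (b : ℂ), ← add_smul, hab', one_smul]
        rw [h8]
        have h9 := RNP.O2_smul (D := toP D) a.2 h4
        have h10 := RNP.O2_smul (D := toP D) b.2 h6
        exact ⟨(toP D).O.add_mem h9.1 h10.1, (toP D).O.add_mem h9.2 h10.2⟩
    · obtain ⟨C, hC⟩ := RNP.AdmE_bdd (D := toP D) ⟨M, hP⟩
      exact ⟨C, fun s => hC _⟩
  obtain ⟨k, hk, e⟩ := mo_main χ hM'0 hmM' _ H hH le_rfl
  -- rescale
  have hinj : Function.Injective fun s : D.O => (s : ℂ) / n := by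
    intro s t h
    have h1 : (s : ℂ) / n = (t : ℂ) / n := h
    exact Subtype.ext ((div_left_inj' hn').1 h1)
  have h1 : ∑' s : D.O, P (((s : ℂ) / n) • c) * mw ((s : ℂ) / n) =
      ∑' t : ℂ, P (t • c) * mw t := by
    refine hinj.tsum_eq (f := fun t : ℂ => P (t • c) * mw t) ?_
    intro t ht
    have h2 : P (t • c) ≠ 0 := by
      intro h2
      apply ht
      show P (t • c) * mw t = 0
      rw [h2, zero_mul]
    refine ⟨⟨(n : ℂ) * t, hden' t h2⟩, ?_⟩
    show (n : ℂ) * t / n = t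
    exact mul_div_cancel_left₀ _ hn'
  refine ⟨(n : ℂ) ^ 6 * k, D.K.mul_mem (D.K.pow_mem (natCast_mem _ n) 6) hk, ?_⟩
  show ∑' t : ℂ, P (t • c) * mw t = _
  rw [← h1, mul_assoc, ← e, ← tsum_mul_left]
  refine tsum_congr fun s => ?_
  show P (((s : ℂ) / n) • c) * mw ((s : ℂ) / n) =
    (n : ℂ) ^ 6 * (P (((s : ℂ) / n) • c) * mw (s : ℂ))
  have h2 : mw (s : ℂ) = mw ((s : ℂ) / n) * mw (n : ℂ) := by
    rw [← mw_mul, div_mul_cancel₀ _ hn']
  have h3 : mw (n : ℂ) = ((n : ℂ) ^ 6)⁻¹ := by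
    unfold mw
    rw [map_natCast]
    congr 1
    ring
  have h4 : (n : ℂ) ^ 6 * ((n : ℂ) ^ 6)⁻¹ = 1 := mul_inv_cancel₀ (pow_ne_zero 6 hn')
  rw [h2, h3]
  linear_combination (-(P (((s : ℂ) / n) • c) * mw ((s : ℂ) / n))) * h4

end

end RNE
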