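import Pool.Agent.RNE.Pe
import Pool.Agent.RNE.Mo
import Pool.Agent.RNE.Bp
import Pool.Agent.RNP.Tv

/-!
# RNE.Tw: the twisted symbol
-/

open RNK

namespace RNE

noncomputable section

variable {D : RNK.OD} {m : ℕ} [NeZero m] (χ : Kc D m)

/-- the presentation `f ↦ Pf χ f` -/
def twI : RNP.Tw (toP D) (La χ.f) where
  ι := Unit
  fin := inferInstance
  R f P := RNP.AdmE (toP D) f ∧ P = fun _ => Pf χ f
  adm := by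
    rintro f P ⟨⟨M, hM⟩, rfl⟩ i
    exact ⟨M, Pf_adm χ hM⟩
  ex f hf := ⟨_, hf, rfl⟩
  uniq := by
    rintro f P Q ⟨_, rfl⟩ ⟨_, rfl⟩ x y z p _ _ _ _
    rfl
  add f g hf hg := by
    refine ⟨_, _, ⟨hf, rfl⟩, ⟨hg, rfl⟩, RNP.AdmE_add hf hg, ?_⟩
    funext _
    exact (Pf_add χ hf hg).symm
  smul := by
    rintro f P ⟨hf, rfl⟩ k hk
    refine ⟨RNP.AdmE_smul hk hf, ?_⟩
    funext _
    exact (Pf_smul χ hf hk).symm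
  act f hf g hg := by
    refine ⟨_, ⟨hf, rfl⟩, RNP.AdmE_act hg hf, ?_⟩
    funext _
    exact (Pf_act χ hf hg).symm
  line := by
    rintro f P ⟨⟨M, hM⟩, rfl⟩ c hc
    obtain ⟨k, hk, e⟩ := ls_chi χ (Pf_adm χ hM)
      (fun w hw x hx => Pf_eqv χ hM hw hx) hc
    refine ⟨k, hk, ?_⟩
    simpa using e

/-- the lattice sum of a function of type `χ` -/
theorem tri_chi {N : ℕ} [NeZero N] (hm : m ∣ N)
    {V : Finset ℂ} (hV : ∀ v ∈ V, v ∈ D.K) {f : Vec → ℂ} (hf : RNP.Fn (toP D) N V f)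
    (he : ∀ x : D.O, RN2.Cp N x → ∀ w, RNP.O2 (toP D) w → f ((x : ℂ) • w) = χ.f x * f w)
    (h1 : ∀ x y, f (-x, y) = f (x, y)) (h2 : ∀ x y, f (y, x) = -f (x, y))
    {J : ℕ} {q : Fin J → ℂ} (hq : ∀ j, q j ∈ D.O ∧ q j ≠ 0) {ψ : Fin J → Vec → ℂ}
    (hψ : ∀ j, RNP.Fn (toP D) N V (ψ j))
    (hav : ∀ j, ∀ y ∈ D.O,
      ∑ k : ZMod N × ZMod N, ψ j (UNI.xx D.a ((k.1.val : ℤ), (k.2.val : ℤ)), y) = 0)
    {θ : Vec → ℂ} (hθ : RNP.Fn (toP D) N V θ) (ho : ∀ x y, θ (-x, y) = -θ (x, y))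
    (hc : ∀ x y, f (x, y) - f (x + y, y) =
      ∑ j, (Tq (q j) (ψ j) (x, y) - ψ j (x, y)) + θ (x, y)) :
    ∃ k ∈ D.K, TT f e2 e1 v11 v11 = k * La χ.f := by
  obtain ⟨C, hC⟩ := bp_ex D (NeZero.pos N)
  obtain ⟨k, hk, e⟩ := RNP.tri_val (twI χ) (pd_inf D) hC hV hf h1 h2 hq hψ hav hθ ho hc
  refine ⟨k, hk, ?_⟩
  rw [← e]
  have hA : RNP.AdmE (toP D) f := RNP.Fn_AdmE (NeZero.pos N) hV hf
  have h3 : (twI χ).R f (fun _ => Pf χ f) := ⟨hA, rfl⟩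
  have h4 := (twI χ).V_eq h3 (x := e2) (y := e1) (z := v11) (p := v11)
    RNP.Cu_e2 RNP.Cu_e1 RNP.Cu_v11 RNP.Cu_v11.1
  rw [h4, Pf_id χ (NeZero.pos N) hm hV hf he]
  show TT f e2 e1 v11 v11 = ∑ _i : Unit, TT f e2 e1 v11 v11
  simp

end

end RNE
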