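import Pool.Agent.RNE.Hf
import Pool.Agent.RNE.Wx

/-!
# RNE.Hl: the line sums of the Fourier transform of `Hw`

`h = FTc D (pw χ S Hw)`. `h(x,y) = Σ_{d ∈ S} χ(d) FTc(Hw_d)(x,y)`, `Hw_d(k,l) = Hw(d k, d l)`, and
`FTc(Hw_d)(x,y) = FTc(Hw)(d' x, d' y)`, `d'` inverse to `d` mod `N` (substitute `k ↦ d' k`).
* symmetries (`h_s`, `h_n`, `h_u`): of `Hw` (`Hw_symm`, `Hw_neg`, `Hw_add`; e.g. `h(x+y,y) = ΣΣ Hw(k,l) ψ(x k) ψ(y (k+l))`,
  substitute `l ↦ l - k`).
* `h_zero`: `h(t,0) = Σ_k ψ(t tp k) Σ_l (..)(k,l) = 0` (`Hw_row`, `Hw_symm`); so `ls h e1 = 0`.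
* `h_line`: `h(t, t β)`, `β = m ω`. Put `F(t) = h(t, tβ)` for `t ∈ O`, type `χ` (`FTc_eqv`, `pw_eqv`), periodic mod `N`. By
  `FTc_Hw` (`d' t = x`, `d' t β = y`): the conditions `m ∣ cod(x).2` and `m ∣ cod(x β).2` are equivalent to the first
  (`β ∈ m O`, so `cod(x β)` is divisible by `m`), and `c ∤ det(x, x β) = nm(x) det(1, β) = nm(x) m` iff `c ∤ x` (inert) iff
  `c ∤ t`. So `F(t) = [c ∤ t] m² c³ G(t)`, `G(t) = Σ_{d ∈ S} χ(d) [d' t ∈ ℤ + m O]`. `G` is periodic mod `m` and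
  `G(x t) = χ(x) G(t)` for `x` prime to `N`. If `t` is prime to `N`.. more precisely to `m`: there is `x ≡ t` mod `m`
  prime to `N` (lifting, `sl_lift` in `RNK/Sl`) and `G(t) = G(x) = χ(x) G(1) = χ(t) G(1)`, and
  `G(1) = Σ_{d' ∈ ℤ + m O} χ(d) =` the number of `d ∈ S` with `d' ∈ ℤ + m O` (`χ(d) = 1`: `d' ≡ n` mod `m`, `χ.int`), which
  is positive (`d = 1`). If `t` is not prime to `m` then `G(t) = 0`: let `q` be a gcd of `t` and `m`, not a unit,
  `m = q q'`; `prim` gives `z = 1 + q' y` prime to `m`, `χ(z) ≠ 1`; lift `z` to `z' ≡ z` mod `m` prime to `N`; `z' t ≡ t` mod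
  `m`, so `G(t) = G(z' t) = χ(z) G(t)`.
* `h_ls`: `ls h (1,β) = Σ_t h(t, tβ) t⁻⁴ t̄⁻² = m² c³ G(1) Σ_{c ∤ t} χ(t) t⁻⁴ t̄⁻² = m² c³ G(1) (1 - c⁻⁶) La χ`, as
  `χ(c t) = χ(t)` (`χ.int`, `c` is prime to `m`). (`h(t, tβ) = 0` unless `t ∈ O`.)
-/

open RNK

namespace RNE

noncomputable section

variable {D : RNK.OD} {m : ℕ} [NeZero m] (χ : Kc D m) {c N : ℕ} [NeZero N]

/-- the Fourier transform of the `χ`-part of `Hw` -/
def hh (χ : Kc D m) (c : ℕ) {N : ℕ} [NeZero N] (S : RN2.Rs D N) : Vec → ℂ :=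
  FTc D (pw χ S fun k l => (Hw m c k l : ℂ))

theorem h_adm (hl : Lv D m c N) (hm : m ∣ N) (S : RN2.Rs D N) :
    RNP.AdmE (toP D) (hh χ c S) := by
  have hc : Eqv χ (pw χ S fun k l => (Hw m c k l : ℂ)) :=
    pw_eqv χ hm S fun k l => O_sub_K (int_O _)
  obtain ⟨V, hV, hF⟩ := FTc_Fn χ hm hc
  exact RNP.Fn_AdmE (NeZero.pos N) hV hF

/-! ### symmetries -/

omit [NeZero m] in
private theorem hl_symm (S : RN2.Rs D N) (k l : UNL.G N) :
    pw χ S (fun k l => (Hw m c k l : ℂ)) l k = pw χ S (fun k l => (Hw m c k l : ℂ)) k l := by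
  unfold pw
  refine Finset.sum_congr rfl fun d _ => ?_
  beta_reduce
  rw [Hw_symm]

omit [NeZero m] in
private theorem hl_neg (S : RN2.Rs D N) (k l : UNL.G N) :
    pw χ S (fun k l => (Hw m c k l : ℂ)) (-k) l = pw χ S (fun k l => (Hw m c k l : ℂ)) k l := by
  unfold pw
  refine Finset.sum_congr rfl fun d _ => ?_
  beta_reduce
  rw [RN2.ac_negk, Hw_neg]

omit [NeZero m] in
private theorem hl_add (S : RN2.Rs D N) (k l : UNL.G N) :
    pw χ S (fun k l => (Hw m c k l : ℂ)) k (k + l) =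
      pw χ S (fun k l => (Hw m c k l : ℂ)) k l := by
  unfold pw
  refine Finset.sum_congr rfl fun d _ => ?_
  beta_reduce
  rw [RN2.ac_addk, Hw_add]

private theorem hl_ps_neg {x : ℂ} (hx : x ∈ D.O) (k : UNL.G N) :
    ps (toU D.a) (-x * UNL.tp (toU D.a) (-k)) = ps (toU D.a) (x * UNL.tp (toU D.a) k) := by
  have h1 : ps (toU D.a) (-x * UNL.tp (toU D.a) (k + -k)) =
      ps (toU D.a) (-x * UNL.tp (toU D.a) k) * ps (toU D.a) (-x * UNL.tp (toU D.a) (-k)) :=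
    RN2.pss_addk (⟨-x, D.O.neg_mem hx⟩ : D.O) k (-k)
  have h2 : ps (toU D.a) (-x * UNL.tp (toU D.a) (k + -k)) = 1 := by
    rw [add_neg_cancel]
    have h3 : UNL.tp (toU D.a) (0 : UNL.G N) = 0 := by
      simp [UNL.tp]
    rw [h3, mul_zero]
    exact ps_O D.O.zero_mem
  have h3 : ps (toU D.a) (-x * UNL.tp (toU D.a) k) * ps (toU D.a) (x * UNL.tp (toU D.a) k) =
      1 := by
    have h4 := RN2.pss_add (D := D) (-x * UNL.tp (toU D.a) k) (x * UNL.tp (toU D.a) k)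
    rw [neg_mul, neg_add_cancel, RN2.pss_zero] at h4
    rw [neg_mul]
    exact h4.symm
  have h5 : ps (toU D.a) (-x * UNL.tp (toU D.a) k) ≠ 0 := by
    intro h
    rw [h, zero_mul] at h3
    exact zero_ne_one h3
  exact mul_left_cancel₀ h5 ((h1.symm.trans h2).trans h3.symm)

theorem h_s (S : RN2.Rs D N) (x y : ℂ) : hh χ c S (y, x) = hh χ c S (x, y) := by
  unfold hh
  by_cases h : RNP.O2 (toP D) (x, y)
  · have h' : RNP.O2 (toP D) (y, x) := ⟨h.2, h.1⟩
    rw [FTc_O2 _ h, FTc_O2 _ h', Finset.sum_comm]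
    refine Finset.sum_congr rfl fun k _ => Finset.sum_congr rfl fun l _ => ?_
    rw [hl_symm]
    ring
  · have h' : ¬ RNP.O2 (toP D) (y, x) := fun h' => h ⟨h'.2, h'.1⟩
    unfold FTc
    rw [if_neg h, if_neg h']

theorem h_n (S : RN2.Rs D N) (x y : ℂ) : hh χ c S (-x, y) = hh χ c S (x, y) := by
  unfold hh
  by_cases h : RNP.O2 (toP D) (x, y)
  · have h' : RNP.O2 (toP D) (-x, y) := ⟨D.O.neg_mem h.1, h.2⟩
    rw [FTc_O2 _ h, FTc_O2 _ h', ← Equiv.sum_comp (Equiv.neg (UNL.G N))]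
    refine Finset.sum_congr rfl fun k _ => Finset.sum_congr rfl fun l _ => ?_
    rw [Equiv.neg_apply, hl_neg, hl_ps_neg (D := D) h.1]
  · have h' : ¬ RNP.O2 (toP D) (-x, y) := fun h' => h ⟨by
      have := D.O.neg_mem h'.1
      rwa [neg_neg] at this, h'.2⟩
    unfold FTc
    rw [if_neg h, if_neg h']

theorem h_u (S : RN2.Rs D N) (x y : ℂ) : hh χ c S (x + y, y) = hh χ c S (x, y) := by
  unfold hh
  by_cases h : RNP.O2 (toP D) (x, y)
  · have h' : RNP.O2 (toP D) (x + y, y) := ⟨D.O.add_mem h.1 h.2, h.2⟩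
    rw [FTc_O2 _ h, FTc_O2 _ h']
    refine Finset.sum_congr rfl fun k _ => ?_
    rw [← Equiv.sum_comp (Equiv.addLeft k) fun l : UNL.G N =>
      pw χ S (fun k l => (Hw m c k l : ℂ)) k l * (ps (toU D.a) ((x, y).1 * UNL.tp (toU D.a) k) *
        ps (toU D.a) ((x, y).2 * UNL.tp (toU D.a) l))]
    refine Finset.sum_congr rfl fun l _ => ?_
    rw [Equiv.coe_addLeft, hl_add]
    have e1 : ps (toU D.a) (y * UNL.tp (toU D.a) (k + l)) =
        ps (toU D.a) (y * UNL.tp (toU D.a) k) * ps (toU D.a) (y * UNL.tp (toU D.a) l) :=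
      RN2.pss_addk (⟨y, h.2⟩ : D.O) k l
    have e2 : ps (toU D.a) ((x + y) * UNL.tp (toU D.a) k) =
        ps (toU D.a) (x * UNL.tp (toU D.a) k) * ps (toU D.a) (y * UNL.tp (toU D.a) k) := by
      rw [add_mul]
      exact RN2.pss_add (D := D) _ _
    show _ * (ps (toU D.a) ((x + y) * UNL.tp (toU D.a) k) *
        ps (toU D.a) (y * UNL.tp (toU D.a) l)) =
      _ * (ps (toU D.a) (x * UNL.tp (toU D.a) k) * ps (toU D.a) (y * UNL.tp (toU D.a) (k + l)))
    rw [e1, e2]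
    ring
  · have h' : ¬ RNP.O2 (toP D) (x + y, y) := fun h' => h ⟨by
      have := D.O.sub_mem h'.1 h'.2
      simpa using this, h'.2⟩
    unfold FTc
    rw [if_neg h, if_neg h']

/-- multiplication by an element prime to `N` as a bijection -/
private theorem hl_bij {d : D.O} (hd : RN2.Cp N d) : ∃ e : UNL.G N ≃ UNL.G N, ∀ k,
    e k = RN2.ac d k := by
  obtain ⟨d', -, hd'⟩ := RN2.Cp_inv hd
  exact ⟨⟨RN2.ac d, RN2.ac d', fun k => (hd' k).1, fun k => (hd' k).2⟩, fun k => rfl⟩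

omit [NeZero m] in
private theorem hl_row (hl : Lv D m c N) (S : RN2.Rs D N) (k : UNL.G N) :
    ∑ l : UNL.G N, pw χ S (fun k l => (Hw m c k l : ℂ)) k l = 0 := by
  unfold pw
  rw [Finset.sum_comm]
  refine Finset.sum_eq_zero fun d hd => ?_
  beta_reduce
  rw [← Finset.mul_sum]
  obtain ⟨e, he⟩ := hl_bij (S.cp d hd)
  have h1 : ∑ l : UNL.G N, (Hw m c (RN2.ac d k) (RN2.ac d l) : ℂ) = 0 := by
    have h2 : ∑ l : UNL.G N, Hw m c (RN2.ac d k) (RN2.ac d l) = 0 := by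
      have h3 := e.sum_comp fun l : UNL.G N => Hw m c l (RN2.ac d k)
      rw [Hw_row hl (RN2.ac d k)] at h3
      rw [← h3]
      refine Finset.sum_congr rfl fun l _ => ?_
      rw [he, Hw_symm]
    exact_mod_cast h2
  rw [h1, mul_zero]

theorem h_zero (hl : Lv D m c N) (S : RN2.Rs D N) : RNP.ls (hh χ c S) e1 = 0 := by
  have h0 : ∀ t : ℂ, hh χ c S (t • e1) = 0 := by
    intro t
    unfold hh
    by_cases h : RNP.O2 (toP D) (t • e1)
    · rw [FTc_O2 _ h]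
      refine Finset.sum_eq_zero fun k _ => ?_
      have h1 : (t • e1 : Vec).2 = 0 := by
        simp [e1]
      rw [h1]
      have h2 : ∀ l : UNL.G N, ps (toU D.a) (0 * UNL.tp (toU D.a) l) = 1 := by
        intro l
        rw [zero_mul]
        exact ps_O D.O.zero_mem
      have h3 : ∀ l : UNL.G N, pw χ S (fun k l => (Hw m c k l : ℂ)) k l *
          (ps (toU D.a) ((t • e1 : Vec).1 * UNL.tp (toU D.a) k) *
            ps (toU D.a) (0 * UNL.tp (toU D.a) l)) =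
          pw χ S (fun k l => (Hw m c k l : ℂ)) k l *
            ps (toU D.a) ((t • e1 : Vec).1 * UNL.tp (toU D.a) k) := by
        intro l
        rw [h2, mul_one]
      rw [Finset.sum_congr rfl fun l _ => h3 l, ← Finset.sum_mul, hl_row χ hl, zero_mul]
    · unfold FTc
      rw [if_neg h]
  unfold RNP.ls
  rw [← tsum_zero (α := ℂ) (β := ℂ)]
  refine tsum_congr fun t => ?_
  rw [h0, zero_mul]

/-! ### arithmetic -/

private theorem hl_bez (x y : D.O) : ∃ a b s t : D.O, x = (a * x + b * y) * s ∧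
    y = (a * x + b * y) * t := by
  obtain ⟨a, ha, b, hb, ⟨s, hs, e1⟩, ⟨t, ht, e2⟩⟩ := D.bez x x.2 y y.2
  exact ⟨⟨a, ha⟩, ⟨b, hb⟩, ⟨s, hs⟩, ⟨t, ht⟩, Subtype.ext e1, Subtype.ext e2⟩

/-- split off the part of `M` made of the primes of `u` -/
private theorem hl_split (u : D.O) (n : ℕ) : ∀ M : D.O, M ≠ 0 → RN2.nn D M ≤ n →
    ∃ M1 M2 v : D.O, ∃ k : ℕ, M = M1 * M2 ∧ IsCoprime u M2 ∧ u ^ k = M1 * v := by
  induction n with
  | zero =>
    intro M h0 h
    exact absurd (RN2.nn_eq_zero.1 (Nat.le_zero.1 h)) h0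
  | succ n ih =>
    intro M h0 h
    obtain ⟨a, b, M', u', e1, e2⟩ := hl_bez M u
    set g : D.O := a * M + b * u with hg
    have hg0 : g ≠ 0 := by
      intro hg0
      rw [hg0, zero_mul] at e1
      exact h0 e1
    by_cases hu : IsUnit g
    · obtain ⟨y, hy⟩ := hu.exists_right_inv
      refine ⟨1, M, 1, 0, by ring, ⟨y * b, y * a, ?_⟩, by ring⟩
      rw [← hy, hg]
      ring
    · have h1 : RN2.nn D M = RN2.nn D g * RN2.nn D M' := by
        rw [← RN2.nn_mul, ← e1]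
      have hM'0 : M' ≠ 0 := by
        intro h
        rw [h, mul_zero] at e1
        exact h0 e1
      have h2 : RN2.nn D g ≠ 0 := fun h => hg0 (RN2.nn_eq_zero.1 h)
      have h3 : RN2.nn D g ≠ 1 := fun h => hu (RN2.nn_eq_one.1 h)
      have h4 : RN2.nn D M' ≠ 0 := fun h => hM'0 (RN2.nn_eq_zero.1 h)
      have h5 : RN2.nn D M' ≤ n := by
        have h6 : 2 ≤ RN2.nn D g := by omega
        have h7 : 2 * RN2.nn D M' ≤ RN2.nn D g * RN2.nn D M' := Nat.mul_le_mul_right _ h6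
        omega
      obtain ⟨M1, M2, v, k, e3, hc, e4⟩ := ih M' hM'0 h5
      refine ⟨g * M1, M2, u' * v, k + 1, ?_, hc, ?_⟩
      · rw [e1, e3]
        ring
      · rw [pow_succ, e4]
        nth_rewrite 1 [e2]
        ring

/-- if `(u, N) = 1` then some `u + t N` is prime to `M` -/
private theorem hl_lift {u N M : D.O} (h : IsCoprime u N) (h0 : M ≠ 0) :
    ∃ t : D.O, IsCoprime (u + N * t) M := by
  obtain ⟨M1, M2, v, k, rfl, hc, e⟩ := hl_split u (RN2.nn D M) M h0 le_rfl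
  refine ⟨M2, ?_⟩
  have h1 : IsCoprime (u + N * M2) M2 := IsCoprime.add_mul_right_left hc N
  have h2 : IsCoprime (u + N * M2) u := by
    have h3 : IsCoprime (N * M2) u := IsCoprime.mul_left h.symm hc.symm
    have h4 := IsCoprime.add_mul_left_left h3 1
    rwa [mul_one, add_comm] at h4
  have h5 : IsCoprime (u + N * M2) M1 :=
    IsCoprime.of_isCoprime_of_dvd_right (h2.pow_right (n := k)) ⟨v, e⟩
  exact IsCoprime.mul_right h5 h1

private theorem hl_nat_ne {n : ℕ} (h : n ≠ 0) : ((n : ℕ) : D.O) ≠ 0 := by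
  intro h1
  have h2 : (((n : ℕ) : D.O) : ℂ) = 0 := by rw [h1]; rfl
  rw [Subring.coe_natCast] at h2
  exact h (by exact_mod_cast h2)

/-! ### the finite sum -/

open Classical in
/-- the sum of `χ(d)` over the classes `d` with `t ∈ d ℤ + m O` -/
private def hlG (χ : Kc D m) {N : ℕ} (S : RN2.Rs D N) (t : D.O) : ℂ :=
  ∑ d ∈ S.s, if ∃ n : ℤ, ∃ z : D.O, t = d * (n : D.O) + (m : D.O) * z then χ.f d else 0

omit [NeZero m] [NeZero N] in
private theorem hlG_per (S : RN2.Rs D N) (t y : D.O) :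
    hlG χ S (t + (m : D.O) * y) = hlG χ S t := by
  classical
  unfold hlG
  refine Finset.sum_congr rfl fun d _ => ?_
  have h : (∃ n : ℤ, ∃ z : D.O, t + (m : D.O) * y = d * (n : D.O) + (m : D.O) * z) ↔
      ∃ n : ℤ, ∃ z : D.O, t = d * (n : D.O) + (m : D.O) * z := by
    constructor
    · rintro ⟨n, z, e⟩
      exact ⟨n, z - y, by linear_combination e⟩
    · rintro ⟨n, z, e⟩
      exact ⟨n, z + y, by linear_combination e⟩
  rw [if_congr h rfl rfl]

omit [NeZero m] in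
private theorem hlG_mul (hm : m ∣ N) (S : RN2.Rs D N) {x : D.O} (hx : RN2.Cp N x) (t : D.O) :
    hlG χ S (x * t) = χ.f x * hlG χ S t := by
  classical
  obtain ⟨q, hq⟩ := hm
  have hq' : (N : D.O) = (m : D.O) * (q : D.O) := by rw [hq, Nat.cast_mul]
  have hper : RN2.Pe N (fun r : D.O =>
      if ∃ n : ℤ, ∃ z : D.O, x * t = r * (n : D.O) + (m : D.O) * z then χ.f r else 0) := by
    intro r y
    beta_reduce
    have h : (∃ n : ℤ, ∃ z : D.O, x * t = (r + (N : D.O) * y) * (n : D.O) + (m : D.O) * z) ↔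
        ∃ n : ℤ, ∃ z : D.O, x * t = r * (n : D.O) + (m : D.O) * z := by
      constructor
      · rintro ⟨n, z, e⟩
        exact ⟨n, z + q * y * n, by rw [e, hq']; ring⟩
      · rintro ⟨n, z, e⟩
        exact ⟨n, z - q * y * n, by rw [e, hq']; ring⟩
    have h2 : χ.f (r + (N : D.O) * y) = χ.f r := by
      rw [hq', mul_assoc]
      exact χ.per _ _
    rw [h2]
    exact if_congr h rfl rfl
  have h1 := RN2.rs_shift S hx hper
  unfold hlG
  refine Eq.trans (Eq.trans ?_ h1.symm) ?_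
  · exact Finset.sum_congr rfl fun d _ => if_congr Iff.rfl rfl rfl
  · rw [Finset.mul_sum]
    refine Finset.sum_congr rfl fun d _ => ?_
    have h : (∃ n : ℤ, ∃ z : D.O, x * t = d * x * (n : D.O) + (m : D.O) * z) ↔
        ∃ n : ℤ, ∃ z : D.O, t = d * (n : D.O) + (m : D.O) * z := by
      constructor
      · rintro ⟨n, z, e⟩
        obtain ⟨a, b, hab⟩ := hx
        refine ⟨n, a * z + q * b * t - q * b * d * n, ?_⟩
        rw [hq'] at hab
        linear_combination a * e - (t - d * (n : D.O)) * hab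
      · rintro ⟨n, z, e⟩
        exact ⟨n, x * z, by rw [e]; ring⟩
    rw [if_congr h (χ.mul d x) rfl, mul_ite, mul_zero, mul_comm (χ.f x)]

omit [NeZero m] in
private theorem hlG_one (hm : m ∣ N) (S : RN2.Rs D N) : hlG χ S 1 ≠ 0 := by
  classical
  obtain ⟨q, hq⟩ := hm
  have hq' : (N : D.O) = (m : D.O) * (q : D.O) := by rw [hq, Nat.cast_mul]
  have h1 : hlG χ S 1 = ((S.s.filter fun d : D.O =>
      ∃ n : ℤ, ∃ z : D.O, 1 = d * (n : D.O) + (m : D.O) * z).card : ℂ) := by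
    unfold hlG
    rw [Finset.card_filter]
    push_cast
    refine Finset.sum_congr rfl fun d _ => ?_
    by_cases h : ∃ n : ℤ, ∃ z : D.O, 1 = d * (n : D.O) + (m : D.O) * z
    · rw [if_pos h, if_pos h]
      obtain ⟨n, z, e⟩ := h
      have hc : RN2.Cp m ((n : ℤ) : D.O) := ⟨d, z, by rw [e]; ring⟩
      have h2 : χ.f (d * (n : D.O)) = 1 := by
        have e' : d * (n : D.O) = 1 + (m : D.O) * (-z) := by linear_combination -e
        rw [e', χ.per, χ.one]
      rw [χ.mul, χ.int n hc, mul_one] at h2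
      exact h2
    · rw [if_neg h, if_neg h]
  rw [h1, Nat.cast_ne_zero]
  obtain ⟨r, ⟨hr, hrk⟩, -⟩ := S.ex 1 (isCoprime_one_left : RN2.Cp N (1 : D.O))
  obtain ⟨z, hz⟩ := RN2.ac_eq.1 hrk
  refine Finset.card_ne_zero_of_mem (a := r) (Finset.mem_filter.2 ⟨hr, 1, -(q * z), ?_⟩)
  rw [hz, hq']
  push_cast
  ring

private theorem hlG_eq (hm : m ∣ N) (S : RN2.Rs D N) (t : D.O) :
    hlG χ S t = χ.f t * hlG χ S 1 := by
  have hN0 : ((N : ℕ) : D.O) ≠ 0 := hl_nat_ne (NeZero.ne N)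
  have hm0 : ((m : ℕ) : D.O) ≠ 0 := hl_nat_ne (NeZero.ne m)
  by_cases ht : RN2.Cp m t
  · obtain ⟨y, hy⟩ := hl_lift (u := t) (N := (m : D.O)) (M := (N : D.O)) ht hN0
    have h1 := hlG_mul χ hm S (x := t + (m : D.O) * y) hy 1
    rw [mul_one, hlG_per, χ.per] at h1
    exact h1
  · rw [χ.zr t ht, zero_mul]
    obtain ⟨a, b, t', q', e1, e2⟩ := hl_bez t (m : D.O)
    set q : D.O := a * t + b * (m : D.O) with hqd
    have hqu : ¬ IsUnit q := by
      intro hu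
      obtain ⟨y, hy⟩ := hu.exists_right_inv
      apply ht
      refine ⟨y * a, y * b, ?_⟩
      rw [← hy, hqd]
      ring
    obtain ⟨y, hy1, hy2⟩ := χ.prim q q' e2.symm hqu
    obtain ⟨b', hb'⟩ := hl_lift (u := 1 + q' * y) (N := (m : D.O)) (M := (N : D.O)) hy1 hN0
    have h1 := hlG_mul χ hm S (x := 1 + q' * y + (m : D.O) * b') hb' t
    have h2 : (1 + q' * y + (m : D.O) * b') * t = t + (m : D.O) * (y * t' + b' * t) := by
      linear_combination (q' * y) * e1 - (y * t') * e2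
    rw [h2, hlG_per, χ.per] at h1
    have h3 : (χ.f (1 + q' * y) - 1) * hlG χ S t = 0 := by
      linear_combination -h1
    exact (mul_eq_zero.1 h3).resolve_left (sub_ne_zero.2 hy2)

/-! ### the values -/

omit [NeZero m] in
private theorem hl_pw (S : RN2.Rs D N) (w : Vec) : hh χ c S w =
    ∑ d ∈ S.s, χ.f d * FTc D (fun k l : UNL.G N => (Hw m c (RN2.ac d k) (RN2.ac d l) : ℂ)) w := by
  unfold hh FTc
  by_cases h : RNP.O2 (toP D) w
  · simp only [if_pos h]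
    simp only [pw, Finset.sum_mul]
    have e1 : ∀ k : UNL.G N, ∑ l : UNL.G N, ∑ d ∈ S.s,
        χ.f d * (Hw m c (RN2.ac d k) (RN2.ac d l) : ℂ) *
          (ps (toU D.a) (w.1 * UNL.tp (toU D.a) k) * ps (toU D.a) (w.2 * UNL.tp (toU D.a) l)) =
        ∑ d ∈ S.s, ∑ l : UNL.G N, χ.f d * (Hw m c (RN2.ac d k) (RN2.ac d l) : ℂ) *
          (ps (toU D.a) (w.1 * UNL.tp (toU D.a) k) * ps (toU D.a) (w.2 * UNL.tp (toU D.a) l)) :=
      fun k => Finset.sum_comm
    rw [Finset.sum_congr rfl fun k _ => e1 k, Finset.sum_comm]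
    refine Finset.sum_congr rfl fun d _ => ?_
    rw [Finset.mul_sum]
    refine Finset.sum_congr rfl fun k _ => ?_
    rw [Finset.mul_sum]
    refine Finset.sum_congr rfl fun l _ => ?_
    ring
  · simp only [if_neg h, mul_zero, Finset.sum_const_zero]

omit [NeZero m] in
/-- the substitution by the inverse of `d` -/
private theorem hl_inv {d d' : D.O} (hd : ∀ k : UNL.G N, RN2.ac d' (RN2.ac d k) = k ∧
    RN2.ac d (RN2.ac d' k) = k) (x y : D.O) :
    FTc D (fun k l : UNL.G N => (Hw m c (RN2.ac d k) (RN2.ac d l) : ℂ)) ((x : ℂ), (y : ℂ)) =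
      FTc D (fun k l : UNL.G N => (Hw m c k l : ℂ))
        (((x * d' : D.O) : ℂ), ((y * d' : D.O) : ℂ)) := by
  rw [FTc_O2 _ (w := ((x : ℂ), (y : ℂ))) ⟨x.2, y.2⟩,
    FTc_O2 _ (w := (((x * d' : D.O) : ℂ), ((y * d' : D.O) : ℂ))) ⟨(x * d').2, (y * d').2⟩]
  let e : UNL.G N ≃ UNL.G N :=
    ⟨RN2.ac d', RN2.ac d, fun k => (hd k).2, fun k => (hd k).1⟩
  rw [← e.sum_comp]
  refine Finset.sum_congr rfl fun k _ => ?_
  rw [← e.sum_comp]
  refine Finset.sum_congr rfl fun l _ => ?_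
  have h1 : ∀ k : UNL.G N, RN2.ac d (e k) = k := fun k => (hd k).2
  have h2 : ∀ (z : D.O) (k : UNL.G N), ps (toU D.a) ((z : ℂ) * UNL.tp (toU D.a) (e k)) =
      ps (toU D.a) (((z * d' : D.O) : ℂ) * UNL.tp (toU D.a) k) := by
    intro z k
    rw [Subring.coe_mul]
    exact RN2.pss_ac d' z k
  rw [h1, h1]
  show _ * (ps (toU D.a) ((x : ℂ) * UNL.tp (toU D.a) (e k)) *
    ps (toU D.a) ((y : ℂ) * UNL.tp (toU D.a) (e l))) = _
  rw [h2, h2]

omit [NeZero m] in
private theorem hl_cod_be (u : D.O) : RN2.cod D (u * be D m) =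
    (-(m * (D.a.n * (RN2.cod D u).2)), m * ((RN2.cod D u).1 + D.a.t * (RN2.cod D u).2)) := by
  have h : u * be D m = RN2.el D (mulc D.a (RN2.cod D u) (0, (m : ℤ))) := by
    apply Subtype.ext
    show (u : ℂ) * UNI.xx D.a (0, (m : ℤ)) = UNI.xx D.a (mulc D.a (RN2.cod D u) (0, (m : ℤ)))
    rw [xx_mul, RN2.xx_cod]
  rw [h, RN2.cod_el]
  refine Prod.ext ?_ ?_
  · simp only [mulc]
    ring
  · simp only [mulc]
    ring

omit [NeZero m] in
private theorem hl_dvd (n : ℕ) (u : D.O) : (n : D.O) ∣ u ↔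
    (n : ℤ) ∣ (RN2.cod D u).1 ∧ (n : ℤ) ∣ (RN2.cod D u).2 := by
  constructor
  · rintro ⟨z, rfl⟩
    have h : (n : D.O) * z = RN2.el D (n * (RN2.cod D z).1, n * (RN2.cod D z).2) := by
      apply Subtype.ext
      show ((n : D.O) : ℂ) * (z : ℂ) = UNI.xx D.a (n * (RN2.cod D z).1, n * (RN2.cod D z).2)
      rw [Subring.coe_natCast, ← RN2.xx_cod D z]
      simp only [UNI.xx]
      push_cast
      ring
    rw [h, RN2.cod_el]
    exact ⟨⟨_, rfl⟩, ⟨_, rfl⟩⟩
  · rintro ⟨⟨p, hp⟩, ⟨q, hq⟩⟩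
    refine ⟨RN2.el D (p, q), ?_⟩
    rw [← RN2.el_cod D u]
    apply Subtype.ext
    show UNI.xx D.a (RN2.cod D u) = ((n : D.O) : ℂ) * UNI.xx D.a (p, q)
    simp only [UNI.xx]
    rw [hp, hq, Subring.coe_natCast]
    push_cast
    ring

open Classical in
omit [NeZero m] in
/-- one term -/
private theorem hl_term (hl : Lv D m c N) (hm : m ∣ N) {d : D.O} (hd : RN2.Cp N d) (t : D.O) :
    FTc D (fun k l : UNL.G N => (Hw m c (RN2.ac d k) (RN2.ac d l) : ℂ))
      ((t : ℂ), ((t * be D m : D.O) : ℂ)) =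
      if (∃ n : ℤ, ∃ z : D.O, t = d * (n : D.O) + (m : D.O) * z) ∧ ¬ (c : D.O) ∣ t
      then (m : ℂ) ^ 2 * (c : ℂ) ^ 3 else 0 := by
  obtain ⟨d', -, hd'⟩ := RN2.Cp_inv hd
  obtain ⟨q, hq⟩ := hm
  have hq' : (N : D.O) = (m : D.O) * (q : D.O) := by rw [hq, Nat.cast_mul]
  have hcN : (c : D.O) ∣ (N : D.O) := by
    have h1 : c ∣ N := by
      refine Dvd.dvd.trans ?_ hl.dvd
      exact ⟨2 * m * (RN2.nn D (al D m) * RN2.nn D (be D m)), by ring⟩
    obtain ⟨r, hr⟩ := h1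
    exact ⟨(r : D.O), by rw [hr, Nat.cast_mul]⟩
  obtain ⟨z0, hz0⟩ : ∃ z : D.O, d * d' = 1 + (N : D.O) * z := by
    refine RN2.ac_eq.1 fun k => ?_
    rw [RN2.ac_mul, (hd' k).2, RN2.ac_one]
  rw [hl_inv hd', FTc_Hw hl]
  refine if_congr ?_ rfl rfl
  set u : D.O := t * d' with hu
  have e1 : t * be D m * d' = u * be D m := by rw [hu]; ring
  rw [e1, hl_cod_be]
  have hdet : (RN2.cod D u).1 * (m * ((RN2.cod D u).1 + D.a.t * (RN2.cod D u).2)) -
      (RN2.cod D u).2 * (-(m * (D.a.n * (RN2.cod D u).2))) =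
      (m : ℤ) * UNI.nm D.a (RN2.cod D u) := by
    simp only [UNI.nm]
    ring
  -- divisibility by `c`
  have hc1 : (c : ℤ) ∣ (m : ℤ) * UNI.nm D.a (RN2.cod D u) ↔ (c : D.O) ∣ t := by
    have hp : Prime (c : ℤ) := Nat.prime_iff_prime_int.1 hl.prime
    have h1 : (c : D.O) ∣ u ↔ (c : D.O) ∣ t := by
      constructor
      · intro h
        have h2 : (c : D.O) ∣ t * (d * d') := by
          have h3 := Dvd.dvd.mul_left h d
          have h4 : d * u = t * (d * d') := by rw [hu]; ring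
          rwa [h4] at h3
        rw [hz0] at h2
        have h5 : t = t * (1 + (N : D.O) * z0) - (N : D.O) * (z0 * t) := by ring
        rw [h5]
        exact dvd_sub h2 (Dvd.dvd.mul_right hcN _)
      · intro h
        exact Dvd.dvd.mul_right h _
    rw [← h1, hl_dvd]
    constructor
    · intro h
      rcases hp.dvd_or_dvd h with h2 | h2
      · exact absurd (Int.natCast_dvd_natCast.1 h2) hl.ndvd
      · exact hl.inert _ h2
    · rintro ⟨⟨x1, hx1⟩, ⟨x2, hx2⟩⟩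
      refine Dvd.dvd.mul_left ?_ _
      refine ⟨x1 * (RN2.cod D u).1 + D.a.t * x1 * (RN2.cod D u).2 +
        D.a.n * x2 * (RN2.cod D u).2, ?_⟩
      simp only [UNI.nm]
      linear_combination ((RN2.cod D u).1 + D.a.t * (RN2.cod D u).2) * hx1 +
        D.a.n * (RN2.cod D u).2 * hx2
  -- the condition mod `m`
  have hm1 : (m : ℤ) ∣ (RN2.cod D u).2 ↔
      ∃ n : ℤ, ∃ z : D.O, t = d * (n : D.O) + (m : D.O) * z := by
    constructor
    · rintro ⟨b, hb⟩
      have h1 : u = ((RN2.cod D u).1 : D.O) + (m : D.O) * RN2.el D (0, b) := by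
        apply Subtype.ext
        have h2 := RN2.xx_cod D u
        show (u : ℂ) = (((RN2.cod D u).1 : ℤ) : D.O) + ((m : D.O) : ℂ) * UNI.xx D.a (0, b)
        rw [← h2, Subring.coe_intCast, Subring.coe_natCast]
        simp only [UNI.xx]
        rw [hb]
        push_cast
        ring
      refine ⟨(RN2.cod D u).1, d * RN2.el D (0, b) - q * z0 * t, ?_⟩
      have h3 : t * (d * d') = d * u := by rw [hu]; ring
      rw [hz0, hq'] at h3
      linear_combination h3 + d * h1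
    · rintro ⟨n, z, e⟩
      have h1 : u = RN2.el D (n + m * (RN2.cod D (q * z0 * n + z * d')).1,
          m * (RN2.cod D (q * z0 * n + z * d')).2) := by
        have h2 : u = (n : D.O) + (m : D.O) * (q * z0 * n + z * d') := by
          rw [hq'] at hz0
          rw [hu]
          linear_combination d' * e + (n : D.O) * hz0
        set v : D.O := q * z0 * n + z * d' with hv
        rw [h2]
        apply Subtype.ext
        show (((n : D.O) + (m : D.O) * v : D.O) : ℂ) =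
          UNI.xx D.a (n + m * (RN2.cod D v).1, m * (RN2.cod D v).2)
        rw [Subring.coe_add, Subring.coe_mul, Subring.coe_natCast, Subring.coe_intCast,
          ← RN2.xx_cod D v]
        simp only [UNI.xx]
        push_cast
        ring
      rw [h1, RN2.cod_el]
      exact ⟨_, rfl⟩
  rw [hdet, hc1, hm1]
  constructor
  · rintro ⟨h1, -, h3⟩
    exact ⟨h1, h3⟩
  · rintro ⟨h1, h3⟩
    exact ⟨h1, ⟨_, rfl⟩, h3⟩

open Classical in
/-- the values on the line of `(1, β)` -/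
private theorem hl_val (hl : Lv D m c N) (hm : m ∣ N) (S : RN2.Rs D N) (t : D.O) :
    hh χ c S ((t : ℂ) • ((1 : ℂ), (be D m : ℂ))) =
      if (c : D.O) ∣ t then 0 else (m : ℂ) ^ 2 * (c : ℂ) ^ 3 * hlG χ S 1 * χ.f t := by
  have e0 : (t : ℂ) • ((1 : ℂ), (be D m : ℂ)) = ((t : ℂ), ((t * be D m : D.O) : ℂ)) := by
    refine Prod.ext ?_ ?_
    · show (t : ℂ) * 1 = t
      rw [mul_one]
    · show (t : ℂ) * (be D m : ℂ) = _
      rw [Subring.coe_mul]
  rw [e0, hl_pw]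
  rw [Finset.sum_congr rfl fun d hd => by rw [hl_term hl hm (S.cp d hd) t]]
  by_cases hc : (c : D.O) ∣ t
  · rw [if_pos hc]
    refine Finset.sum_eq_zero fun d _ => ?_
    rw [if_neg fun h => h.2 hc, mul_zero]
  · rw [if_neg hc]
    have h1 := hlG_eq χ hm S t
    have h2 : ∑ d ∈ S.s, χ.f d *
        (if (∃ n : ℤ, ∃ z : D.O, t = d * (n : D.O) + (m : D.O) * z) ∧ ¬ (c : D.O) ∣ t
        then (m : ℂ) ^ 2 * (c : ℂ) ^ 3 else 0) = (m : ℂ) ^ 2 * (c : ℂ) ^ 3 * hlG χ S t := by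
      unfold hlG
      rw [Finset.mul_sum]
      refine Finset.sum_congr rfl fun d _ => ?_
      by_cases h : ∃ n : ℤ, ∃ z : D.O, t = d * (n : D.O) + (m : D.O) * z
      · rw [if_pos ⟨h, hc⟩, if_pos h]
        ring
      · rw [if_neg fun h' => h h'.1, if_neg h]
        ring
    rw [h2, h1]
    ring

/-! ### the sums -/

/-- the weight -/
private def hlw (x : ℂ) : ℂ := (x ^ 4 * (starRingEnd ℂ) x ^ 2)⁻¹

private theorem hlw_mul (x y : ℂ) : hlw (x * y) = hlw x * hlw y := by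
  unfold hlw
  rw [← mul_inv, map_mul]
  congr 1
  ring

private theorem hlw_sum (D : RNK.OD) : Summable fun x : D.O => ‖hlw (x : ℂ)‖ := by
  let e : D.O ≃ ℤ × ℤ := ⟨RN2.cod D, RN2.el D, RN2.el_cod D, RN2.cod_el⟩
  have h1 := (RNK.Lam_summable D).norm
  have h2 := (Equiv.summable_iff e).2 h1
  refine h2.congr fun x => ?_
  show ‖1 / (UNI.xx D.a (RN2.cod D x) ^ 4 * (starRingEnd ℂ) (UNI.xx D.a (RN2.cod D x)) ^ 2)‖ = _
  rw [RN2.xx_cod, one_div]
  rfl

private theorem hl_bdd : ∃ C : ℝ, ∀ x, ‖χ.f x‖ ≤ C := by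
  obtain ⟨C, hC⟩ := (Set.finite_range fun k : UNL.G m => ‖χ.f (RN2.rp D k)‖).bddAbove
  refine ⟨C, fun x => ?_⟩
  obtain ⟨y, hy⟩ := RN2.rp_cls (N := m) x
  have h1 := hC ⟨RN2.cls m x, rfl⟩
  have h2 : χ.f x = χ.f (RN2.rp D (RN2.cls m x)) := by
    conv_lhs => rw [hy]
    exact χ.per _ _
  rw [h2]
  exact h1

private theorem hl_sum {H : D.O → ℂ} (hH : ∃ C : ℝ, ∀ s, ‖H s‖ ≤ C) :
    Summable fun x : D.O => H x * hlw (x : ℂ) := by
  obtain ⟨C, hC⟩ := hH
  refine Summable.of_norm_bounded ((hlw_sum D).mul_left C) fun x => ?_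
  rw [norm_mul]
  exact mul_le_mul_of_nonneg_right (hC x) (norm_nonneg _)

theorem h_ls (hl : Lv D m c N) (hm : m ∣ N) (S : RN2.Rs D N) : ∃ κ : ℂ, κ ≠ 0 ∧
    RNP.ls (hh χ c S) (1, (be D m : ℂ)) = κ * La χ.f := by
  classical
  have hc2 : 2 ≤ c := hl.prime.two_le
  have hc0 : (c : ℂ) ≠ 0 := by
    have : c ≠ 0 := by omega
    exact_mod_cast this
  have hcO : (c : D.O) ≠ 0 := hl_nat_ne (by omega)
  have hcop : RN2.Cp m (((c : ℤ) : D.O)) := by
    have h1 : Nat.Coprime c m := (Nat.Prime.coprime_iff_not_dvd hl.prime).2 hl.ndvd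
    obtain ⟨u, v, huv⟩ := Nat.isCoprime_iff_coprime.2 h1
    refine ⟨(u : D.O), (v : D.O), ?_⟩
    have h2 := congrArg (fun z : ℤ => (z : D.O)) huv
    simpa using h2
  have hchi : χ.f (c : D.O) = 1 := by
    have h1 := χ.int (c : ℤ) hcop
    simpa using h1
  have hw : hlw (c : ℂ) = ((c : ℂ) ^ 6)⁻¹ := by
    unfold hlw
    rw [map_natCast]
    congr 1
    ring
  set C : ℂ := (m : ℂ) ^ 2 * (c : ℂ) ^ 3 * hlG χ S 1 with hC
  refine ⟨C * (1 - ((c : ℂ) ^ 6)⁻¹), ?_, ?_⟩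
  · refine mul_ne_zero (mul_ne_zero (mul_ne_zero (pow_ne_zero _ ?_) (pow_ne_zero _ hc0))
      (hlG_one χ hm S)) ?_
    · exact_mod_cast NeZero.ne m
    · intro h
      have h1 : ((c : ℂ) ^ 6) = 1 := by
        have h2 : ((c : ℂ) ^ 6)⁻¹ = 1 := (sub_eq_zero.1 h).symm
        exact inv_eq_one.1 h2
      have h3 : c ^ 6 = 1 := by exact_mod_cast h1
      have h4 : 2 ^ 6 ≤ c ^ 6 := Nat.pow_le_pow_left hc2 6
      omega
  -- the sum over `O`
  have h1 : RNP.ls (hh χ c S) (1, (be D m : ℂ)) =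
      ∑' t : D.O, hh χ c S ((t : ℂ) • ((1 : ℂ), (be D m : ℂ))) * hlw (t : ℂ) := by
    have hinj : Function.Injective fun s : D.O => (s : ℂ) := Subtype.val_injective
    symm
    refine hinj.tsum_eq (f := fun t : ℂ =>
      hh χ c S (t • ((1 : ℂ), (be D m : ℂ))) * hlw t) ?_
    intro t ht
    have h2 : hh χ c S (t • ((1 : ℂ), (be D m : ℂ))) ≠ 0 := by
      intro h2
      apply ht
      show hh χ c S (t • ((1 : ℂ), (be D m : ℂ))) * hlw t = 0
      rw [h2, zero_mul]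
    have h3 : RNP.O2 (toP D) (t • ((1 : ℂ), (be D m : ℂ))) := by
      by_contra h3
      apply h2
      unfold hh FTc
      rw [if_neg h3]
    have h4 : t * 1 ∈ D.O := h3.1
    rw [mul_one] at h4
    exact ⟨⟨t, h4⟩, rfl⟩
  obtain ⟨B, hB⟩ := hl_bdd χ
  have hB0 : 0 ≤ B := (norm_nonneg _).trans (hB 0)
  have hs1 : Summable fun x : D.O => χ.f x * hlw (x : ℂ) := hl_sum ⟨B, hB⟩
  have hs2 : Summable fun x : D.O => (if (c : D.O) ∣ x then χ.f x else 0) * hlw (x : ℂ) := by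
    refine hl_sum ⟨B, fun x => ?_⟩
    split_ifs
    · exact hB x
    · rw [norm_zero]
      exact hB0
  -- the multiples of `c`
  have h5 : ∑' x : D.O, (if (c : D.O) ∣ x then χ.f x else 0) * hlw (x : ℂ) =
      ((c : ℂ) ^ 6)⁻¹ * La χ.f := by
    have hinj : Function.Injective fun y : D.O => (c : D.O) * y :=
      fun y y' h => mul_left_cancel₀ hcO h
    rw [← hinj.tsum_eq (f := fun x : D.O => (if (c : D.O) ∣ x then χ.f x else 0) * hlw (x : ℂ))]
    · unfold La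
      rw [← tsum_mul_left]
      refine tsum_congr fun y => ?_
      rw [if_pos (Dvd.intro y rfl), χ.mul, hchi, one_mul, Subring.coe_mul, Subring.coe_natCast,
        hlw_mul, hw]
      show χ.f y * (((c : ℂ) ^ 6)⁻¹ * hlw (y : ℂ)) = ((c : ℂ) ^ 6)⁻¹ * (χ.f y * hlw (y : ℂ))
      ring
    · intro x hx
      have h6 : (c : D.O) ∣ x := by
        by_contra h6
        apply hx
        show (if (c : D.O) ∣ x then χ.f x else 0) * hlw (x : ℂ) = 0
        rw [if_neg h6, zero_mul]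
      obtain ⟨y, rfl⟩ := h6
      exact ⟨y, rfl⟩
  have h6 : ∀ t : D.O, hh χ c S ((t : ℂ) • ((1 : ℂ), (be D m : ℂ))) * hlw (t : ℂ) =
      C * (χ.f t * hlw (t : ℂ) - (if (c : D.O) ∣ t then χ.f t else 0) * hlw (t : ℂ)) := by
    intro t
    rw [hl_val χ hl hm]
    by_cases h : (c : D.O) ∣ t
    · rw [if_pos h, if_pos h]
      ring
    · rw [if_neg h, if_neg h]
      ring
  rw [h1, tsum_congr h6, tsum_mul_left, hs1.tsum_sub hs2, h5]
  show C * (La χ.f - ((c : ℂ) ^ 6)⁻¹ * La χ.f) = _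
  ring

end

end RNE
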