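import Pool.Agent.RNE.Hd
import Pool.Agent.RNP.CiA

/-!
# RNE.Hv: the lattice sum of a combination of dilations 

Write `T(x,y,z;p) = TT h x y z p`, `D₀ = toP D`. Facts (`RNP/CiA`, `RNK/Ci`, `RNP/Ci`): `TT_act`, `TT_a12`, `TT_a23`, `TT_scal`,
`TT_quad`, and `TT_coc4` with explicit coefficients: extend the proof of `TT_coc4` (`RNP/CiA`) to: for four cusps no two of
which are on one line,
`TT f c2 c3 c4 p - TT f c1 c3 c4 p + TT f c1 c2 c4 p - TT f c1 c2 c3 p = KG c2 c3 c4 p c1 * ls f c1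
 - KG c1 c3 c4 p c2 * ls f c2 + KG c1 c2 c4 p c3 * ls f c3 - KG c1 c2 c3 p c4 * ls f c4` (`coc_expl`, the coefficients in
the proof are exactly these).
1. `GL₂(ℤ)`: `h` is invariant under `s(x,y) = (y,x)`, `n(x,y) = (-x,y)`, `u(x,y) = (x+y,y)`, so `TT_act` gives
  `T(g x, g y, g z; g p) = T(x, y, z; p)` for `g = s, n, u` and their products and inverses. In the same way `ls h (g c) = ls h c`,
  so `ls h e1 = ls h e2 = ls h v11 = 0`.
2. `S(a,b) = T(e2, e1, (a,b); (a,b))`, `S(k a, k b) = k² S(a,b)` (`TT_quad`, `TT_scal`). With the matrices `diag(1/β, 1/α)`,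
  `diag(1/(αβ), 1/α)`, `diag(1/(αβ), 1/β)` (`TT_act`; the factors `|det|²` cancel the factors in `FH`):
  `TT (FH h) e2 e1 v11 v11 = (αβ)⁻² (S(α,β) - S(1,β) + S(1,α))`, e.g. `(1/β, 1/α) = (αβ)⁻¹ (α, β)`.
  The second part `w ↦ FH h (w.2, w.1)` gives the negative of that (`s`, `TT_a12`), so the total is twice this.
3. `S(1,-α) = S(1,α)` (`n` and `S(-1, -α)..`; `n(1,α) = (-1,α) = -(1,-α)`).
  `S(α,β) = T(v11, e1, (1,β); (1,β))` (`u`: `e2 ↦ v11`, `e1 ↦ e1`, `(α,β) ↦ (α+β, β) = (1,β)`).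
  With `c = (1,β)`: `T(e2, v11, c; c) = T(e2, e1, (1,-α); (1,-α)) = S(1,α)` by `(x,y) ↦ (x, y-x)`: `e2 ↦ e2`, `v11 ↦ e1`,
  `c ↦ (1, β-1) = (1,-α)`.
4. `T(e2, e1, v11; p) = 0` for all `p`: it is a quadratic form `Q(p)`; `s`: `Q(p₂,p₁) = -Q(p₁,p₂)`; the map
  `g(x,y) = (x, x-y)` (`e2 ↦ -e2`, `e1 ↦ v11`, `v11 ↦ e1`): `Q(p₁, p₁-p₂) = -Q(p₁,p₂)`. These two give `Q = 0`.
5. Four terms for `e2, e1, v11, c`, `p = c` (`coc_expl`): the line sums of the first three cusps are `0`, so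
  `T(e1,v11,c) - T(e2,v11,c) + T(e2,e1,c) - T(e2,e1,v11) = - KG e2 e1 v11 c c * ls h c`. With 3, 4:
  `S(α,β) - S(1,β) + S(1,α) = -T(e1,v11,c) - T(e2,e1,c) + T(e2,v11,c) = KG e2 e1 v11 c c * ls h c`.
(`p = c` in `KG c1 c2 c3 p w`, and `w = c`.)
-/

open RNK

namespace RNE

noncomputable section

/-! ### the four term relation with explicit coefficients -/

private def hv_G4 (c1 c2 c3 c4 p w : Vec) : ℂ :=
  KG c2 c3 c4 p w - KG c1 c3 c4 p w + KG c1 c2 c4 p w - KG c1 c2 c3 p w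

private lemma hv_cramer (u v w : Vec) : det2 u v • w = det2 w v • u + det2 u w • v := by
  unfold det2
  ext <;> simp <;> ring

private lemma hv_one_line {u v w : Vec} (huv : det2 u v ≠ 0) (hw : w ≠ 0) (h1 : det2 u w = 0) :
    det2 v w ≠ 0 := by
  intro h2
  have h3 := hv_cramer u v w
  rw [h1, RNP.det2_swap v w, h2, neg_zero, zero_smul, zero_smul, zero_add] at h3
  exact (smul_ne_zero huv hw) h3

private lemma hv_line_mem {c w : Vec} (hc : c ≠ 0) (h : det2 c w = 0) : ∃ t : ℂ, t • c = w := by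
  unfold det2 at h
  by_cases h1 : c.1 = 0
  · have h2 : c.2 ≠ 0 := fun h2 => hc (Prod.ext h1 h2)
    have h3 : w.1 = 0 := by
      rw [h1, zero_mul, zero_sub, neg_eq_zero] at h
      exact (mul_eq_zero.1 h).resolve_left h2
    refine ⟨w.2 / c.2, Prod.ext ?_ ?_⟩
    · simp [h1, h3]
    · simp only [Prod.smul_snd, smul_eq_mul]
      field_simp
  · refine ⟨w.1 / c.1, Prod.ext ?_ ?_⟩
    · simp only [Prod.smul_fst, smul_eq_mul]
      field_simp
    · simp only [Prod.smul_snd, smul_eq_mul]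
      field_simp
      linear_combination -h

/-- the part of the sum on the line of `c` -/
private def hv_PL (f : Vec → ℂ) (c ca cb cd p w : Vec) : ℂ := by
  classical
  exact if det2 c w = 0 then f w * KG ca cb cd p w else 0

private lemma hv_PL_sum {E : RNP.OD} {f : Vec → ℂ} (hf : RNP.AdmE E f) {c ca cb cd p : Vec}
    (hc : RNP.Cu E c) :
    Summable (hv_PL f c ca cb cd p) ∧
      ∑' w, hv_PL f c ca cb cd p w = KG ca cb cd p c * RNP.ls f c := by
  classical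
  have hinj : Function.Injective (fun t : ℂ => t • c) := smul_left_injective ℂ hc.2
  have hval : ∀ t : ℂ, hv_PL f c ca cb cd p (t • c) =
      KG ca cb cd p c * (f (t • c) * (t ^ 4 * (starRingEnd ℂ) t ^ 2)⁻¹) := by
    intro t
    have h0 : det2 c (t • c) = 0 := by
      unfold det2
      simp only [Prod.smul_snd, Prod.smul_fst, smul_eq_mul]
      ring
    have h1 : hv_PL f c ca cb cd p (t • c) = f (t • c) * KG ca cb cd p (t • c) := by
      unfold hv_PL
      exact if_pos h0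
    rw [h1]
    by_cases ht : t = 0
    · subst ht
      rw [zero_smul, KG_zero (Or.inl (by unfold det2; simp))]
      simp
    · rw [KG_hom ht]
      ring
  have hsupp : Function.support (hv_PL f c ca cb cd p) ⊆ Set.range (fun t : ℂ => t • c) := by
    intro w hw
    have h1 : det2 c w = 0 := by
      by_contra h
      apply hw
      unfold hv_PL
      exact if_neg h
    exact hv_line_mem hc.2 h1
  have hs := RNP.ls_summable hf hc
  have hfun : (fun t : ℂ => hv_PL f c ca cb cd p (t • c)) = fun t : ℂ =>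
      KG ca cb cd p c * (f (t • c) * (t ^ 4 * (starRingEnd ℂ) t ^ 2)⁻¹) := funext hval
  constructor
  · refine (Function.Injective.summable_iff hinj ?_).1 ?_
    · intro w hw
      by_contra h
      exact hw (hsupp h)
    · have : (hv_PL f c ca cb cd p ∘ fun t : ℂ => t • c) = fun t : ℂ =>
        KG ca cb cd p c * (f (t • c) * (t ^ 4 * (starRingEnd ℂ) t ^ 2)⁻¹) := hfun
      rw [this]
      exact hs.mul_left _
  · rw [← Function.Injective.tsum_eq hinj hsupp, hfun, tsum_mul_left]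
    rfl

/-- the four term relation with explicit coefficients -/
theorem coc_expl {E : RNP.OD} {f : Vec → ℂ} (hf : RNP.AdmE E f) {c1 c2 c3 c4 p : Vec}
    (h1 : RNP.Cu E c1) (h2 : RNP.Cu E c2) (h3 : RNP.Cu E c3) (h4 : RNP.Cu E c4)
    (hp : RNP.K2 E p) (d12 : det2 c1 c2 ≠ 0) (d13 : det2 c1 c3 ≠ 0) (d14 : det2 c1 c4 ≠ 0)
    (d23 : det2 c2 c3 ≠ 0) (d24 : det2 c2 c4 ≠ 0) (d34 : det2 c3 c4 ≠ 0) :
    TT f c2 c3 c4 p - TT f c1 c3 c4 p + TT f c1 c2 c4 p - TT f c1 c2 c3 p =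
      KG c2 c3 c4 p c1 * RNP.ls f c1 - KG c1 c3 c4 p c2 * RNP.ls f c2 +
        KG c1 c2 c4 p c3 * RNP.ls f c3 - KG c1 c2 c3 p c4 * RNP.ls f c4 := by
  classical
  have s1 := RNP.TT_summable hf h2 h3 h4 hp
  have s2 := RNP.TT_summable hf h1 h3 h4 hp
  have s3 := RNP.TT_summable hf h1 h2 h4 hp
  have s4 := RNP.TT_summable hf h1 h2 h3 hp
  have hL : TT f c2 c3 c4 p - TT f c1 c3 c4 p + TT f c1 c2 c4 p - TT f c1 c2 c3 p =
      ∑' w, f w * hv_G4 c1 c2 c3 c4 p w := by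
    unfold TT
    rw [← s1.tsum_sub s2, ← (s1.sub s2).tsum_add s3, ← ((s1.sub s2).add s3).tsum_sub s4]
    refine tsum_congr fun w => ?_
    unfold hv_G4
    ring
  rw [hL]
  obtain ⟨t1, e1'⟩ := hv_PL_sum (ca := c2) (cb := c3) (cd := c4) (p := p) hf (c := c1) h1
  obtain ⟨t2, e2'⟩ := hv_PL_sum (ca := c1) (cb := c3) (cd := c4) (p := p) hf (c := c2) h2
  obtain ⟨t3, e3'⟩ := hv_PL_sum (ca := c1) (cb := c2) (cd := c4) (p := p) hf (c := c3) h3
  obtain ⟨t4, e4'⟩ := hv_PL_sum (ca := c1) (cb := c2) (cd := c3) (p := p) hf (c := c4) h4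
  have hpt : ∀ w, f w * hv_G4 c1 c2 c3 c4 p w =
      hv_PL f c1 c2 c3 c4 p w - hv_PL f c2 c1 c3 c4 p w + hv_PL f c3 c1 c2 c4 p w -
        hv_PL f c4 c1 c2 c3 p w := by
    intro w
    by_cases hw : w = 0
    · subst hw
      have z : ∀ a b c : Vec, KG a b c p 0 = 0 := fun a b c =>
        KG_zero (Or.inl (by unfold det2; simp))
      have zP : ∀ a b c d : Vec, hv_PL f a b c d p 0 = 0 := fun a b c d => by
        unfold hv_PL
        rw [z]
        simp
      unfold hv_G4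
      rw [z, z, z, z, zP, zP, zP, zP]
      ring
    by_cases l1 : det2 c1 w = 0
    · have n2 := hv_one_line d12 hw l1
      have n3 := hv_one_line d13 hw l1
      have n4 := hv_one_line d14 hw l1
      unfold hv_G4 hv_PL
      rw [if_pos l1, if_neg n2, if_neg n3, if_neg n4,
        KG_zero (c1 := c1) (c2 := c3) (c3 := c4) (Or.inl l1),
        KG_zero (c1 := c1) (c2 := c2) (c3 := c4) (Or.inl l1),
        KG_zero (c1 := c1) (c2 := c2) (c3 := c3) (Or.inl l1)]
      ring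
    by_cases l2 : det2 c2 w = 0
    · have n3 := hv_one_line d23 hw l2
      have n4 := hv_one_line d24 hw l2
      unfold hv_G4 hv_PL
      rw [if_neg l1, if_pos l2, if_neg n3, if_neg n4,
        KG_zero (c1 := c2) (c2 := c3) (c3 := c4) (Or.inl l2),
        KG_zero (c1 := c1) (c2 := c2) (c3 := c4) (Or.inr (Or.inl l2)),
        KG_zero (c1 := c1) (c2 := c2) (c3 := c3) (Or.inr (Or.inl l2))]
      ring
    by_cases l3 : det2 c3 w = 0
    · have n4 := hv_one_line d34 hw l3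
      unfold hv_G4 hv_PL
      rw [if_neg l1, if_neg l2, if_pos l3, if_neg n4,
        KG_zero (c1 := c2) (c2 := c3) (c3 := c4) (Or.inr (Or.inl l3)),
        KG_zero (c1 := c1) (c2 := c3) (c3 := c4) (Or.inr (Or.inl l3)),
        KG_zero (c1 := c1) (c2 := c2) (c3 := c3) (Or.inr (Or.inr l3))]
      ring
    by_cases l4 : det2 c4 w = 0
    · unfold hv_G4 hv_PL
      rw [if_neg l1, if_neg l2, if_neg l3, if_pos l4,
        KG_zero (c1 := c2) (c2 := c3) (c3 := c4) (Or.inr (Or.inr l4)),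
        KG_zero (c1 := c1) (c2 := c3) (c3 := c4) (Or.inr (Or.inr l4)),
        KG_zero (c1 := c1) (c2 := c2) (c3 := c4) (Or.inr (Or.inr l4))]
      ring
    · have e := KG_coc l1 l2 l3 l4 p
      have e' : hv_G4 c1 c2 c3 c4 p w = 0 := e
      unfold hv_PL
      rw [if_neg l1, if_neg l2, if_neg l3, if_neg l4, e']
      ring
  rw [tsum_congr hpt, ((t1.sub t2).add t3).tsum_sub t4, (t1.sub t2).tsum_add t3, t1.tsum_sub t2,
    e1', e2', e3', e4']

/-! ### invariance -/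

private lemma hv_inv {h : Vec → ℂ} {g : Mat} (hd : g.det ≠ 0) (h1 : ‖g.det‖ = 1)
    (hg : ∀ w, h (g.act w) = h w) (x y z p : Vec) :
    TT h x y z p = TT h (g.act x) (g.act y) (g.act z) (g.act p) := by
  have e := TT_act h hd x y z p
  rw [h1] at e
  simp only [hg] at e
  simpa using e

private lemma hv_ls {h : Vec → ℂ} {g : Mat} (hg : ∀ w, h (g.act w) = h w) (c : Vec) :
    RNP.ls h (g.act c) = RNP.ls h c := by
  unfold RNP.ls
  refine tsum_congr fun t => ?_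
  rw [← RNP.act_smul, hg]

private lemma hv_a13 (f : Vec → ℂ) (x y z p : Vec) : TT f z y x p = -TT f x y z p := by
  rw [TT_a12 f y z x p, TT_a23 f y x z p, TT_a12 f x y z p, neg_neg]

private lemma hv_scal3 (f : Vec → ℂ) {k : ℂ} (hk : k ≠ 0) (x y z p : Vec) :
    TT f x y (k • z) p = TT f x y z p := by
  rw [← neg_neg (TT f x y (k • z) p), ← hv_a13 f x y (k • z) p, TT_scal f hk, hv_a13, neg_neg]

private lemma hv_scal2 (f : Vec → ℂ) {k : ℂ} (hk : k ≠ 0) (x y z p : Vec) :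
    TT f x (k • y) z p = TT f x y z p := by
  rw [← neg_neg (TT f x (k • y) z p), ← TT_a23 f x (k • y) z p, hv_scal3 f hk, TT_a23, neg_neg]

private lemma hv_scalp (f : Vec → ℂ) (k : ℂ) (x y z p : Vec) :
    TT f x y z (k • p) = k ^ 2 * TT f x y z p := by
  obtain ⟨k11, k12, k22, hk⟩ := KG_quad x y z
  unfold TT
  rw [← tsum_mul_left]
  refine tsum_congr fun w => ?_
  rw [hk, hk]
  simp only [Prod.smul_fst, Prod.smul_snd, smul_eq_mul]
  ring

/-- the symbol of a cusp -/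
private def hv_S (h : Vec → ℂ) (c : Vec) : ℂ := TT h e2 e1 c c

private lemma hv_S_smul (h : Vec → ℂ) {k : ℂ} (hk : k ≠ 0) (c : Vec) :
    hv_S h (k • c) = k ^ 2 * hv_S h c := by
  unfold hv_S
  rw [hv_scal3 h hk, hv_scalp]

/-- a dilation -/
private lemma hv_dil (h : Vec → ℂ) {a d : ℂ} (ha : a ≠ 0) (hd : d ≠ 0) :
    TT (fun w => h (a * w.1, d * w.2)) e2 e1 v11 v11 =
      ((‖a * d‖ ^ 2 : ℝ) : ℂ) * hv_S h (a, d) := by
  have hdet : (dg a d).det ≠ 0 := by
    rw [RNP.det_dg]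
    exact mul_ne_zero ha hd
  have e := TT_act h hdet e2 e1 v11 v11
  have e' : (fun w : Vec => h ((dg a d).act w)) = fun w => h (a * w.1, d * w.2) := by
    funext w
    rw [RNP.dg_act]
  have g1 : (dg a d).act e2 = d • e2 := by
    rw [RNP.dg_act]
    ext <;> simp [e2]
  have g2 : (dg a d).act e1 = a • e1 := by
    rw [RNP.dg_act]
    ext <;> simp [e1]
  have g3 : (dg a d).act v11 = (a, d) := by
    rw [RNP.dg_act]
    ext <;> simp [v11]
  rw [e', RNP.det_dg, g1, g2, g3, TT_scal h hd, hv_scal2 h ha] at e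
  exact e

private lemma hv_dil_adm {E : RNP.OD} {h : Vec → ℂ} (hh : RNP.AdmE E h) {a d k : ℂ}
    (ha : a ∈ E.K) (hd : d ∈ E.K) (ha0 : a ≠ 0) (hd0 : d ≠ 0) (hk : k ∈ E.K) :
    RNP.AdmE E (fun w => k * h (a * w.1, d * w.2)) := by
  have h1 := RNP.AdmE_act (RNP.GK_dg ha hd ha0 hd0) hh
  have e' : (fun w : Vec => h ((dg a d).act w)) = fun w => h (a * w.1, d * w.2) := by
    funext w
    rw [RNP.dg_act]
  rw [e'] at h1
  exact RNP.AdmE_smul hk h1

variable {D : RNK.OD}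

theorem TT_FH {h : Vec → ℂ} (hh : RNP.AdmE (toP D) h) (hs : ∀ x y, h (y, x) = h (x, y))
    (hn : ∀ x y, h (-x, y) = h (x, y)) (hu : ∀ x y, h (x + y, y) = h (x, y))
    {α β : ℂ} (hα : α ∈ D.K) (hβ : β ∈ D.K) (ha : α ≠ 0) (hb : β ≠ 0) (hab : α + β = 1)
    (h0 : RNP.ls h e1 = 0) :
    TT (fun w => FH α β h w - FH α β h (w.2, w.1)) e2 e1 v11 v11 =
      2 * ((α * β)⁻¹) ^ 2 * KG e2 e1 v11 (1, β) (1, β) * RNP.ls h (1, β) := by
  have hα' : α ∈ (toP D).K := hα
  have hβ' : β ∈ (toP D).K := hβ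
  have hai : α⁻¹ ∈ (toP D).K := inv_mem hα'
  have hbi : β⁻¹ ∈ (toP D).K := inv_mem hβ'
  have habi : (α * β)⁻¹ ∈ (toP D).K := inv_mem (mul_mem hα' hβ')
  have hab0 : α * β ≠ 0 := mul_ne_zero ha hb
  have hnx : ((‖α‖ ^ 2 : ℝ) : ℂ) ∈ (toP D).K := RNP.nsq_K hα'
  have hny : ((‖β‖ ^ 2 : ℝ) : ℂ) ∈ (toP D).K := RNP.nsq_K hβ'
  have hk1 : ((‖α‖ ^ 2 * ‖β‖ ^ 2 : ℝ) : ℂ) ∈ (toP D).K := by
    have e : ((‖α‖ ^ 2 * ‖β‖ ^ 2 : ℝ) : ℂ) = ((‖α‖ ^ 2 : ℝ) : ℂ) * ((‖β‖ ^ 2 : ℝ) : ℂ) := by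
      push_cast
      ring
    rw [e]
    exact mul_mem hnx hny
  have hk2 : ((‖α‖ ^ 4 * ‖β‖ ^ 2 : ℝ) : ℂ) ∈ (toP D).K := by
    have e : ((‖α‖ ^ 4 * ‖β‖ ^ 2 : ℝ) : ℂ) =
        ((‖α‖ ^ 2 : ℝ) : ℂ) * ((‖α‖ ^ 2 : ℝ) : ℂ) * ((‖β‖ ^ 2 : ℝ) : ℂ) := by
      push_cast
      ring
    rw [e]
    exact mul_mem (mul_mem hnx hnx) hny
  have hk3 : ((‖α‖ ^ 2 * ‖β‖ ^ 4 : ℝ) : ℂ) ∈ (toP D).K := by
    have e : ((‖α‖ ^ 2 * ‖β‖ ^ 4 : ℝ) : ℂ) =
        ((‖α‖ ^ 2 : ℝ) : ℂ) * ((‖β‖ ^ 2 : ℝ) : ℂ) * ((‖β‖ ^ 2 : ℝ) : ℂ) := by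
      push_cast
      ring
    rw [e]
    exact mul_mem (mul_mem hnx hny) hny
  have hai0 : α⁻¹ ≠ 0 := inv_ne_zero ha
  have hbi0 : β⁻¹ ≠ 0 := inv_ne_zero hb
  have habi0 : (α * β)⁻¹ ≠ 0 := inv_ne_zero hab0
  -- the three parts
  have A1 := hv_dil_adm hh hbi hai hbi0 hai0 hk1
  have A2 := hv_dil_adm hh habi hai habi0 hai0 (neg_mem hk2)
  have A3 := hv_dil_adm hh habi hbi habi0 hbi0 hk3
  have C2 : RNP.Cu (toP D) e2 := RNP.Cu_e2
  have C1 : RNP.Cu (toP D) e1 := RNP.Cu_e1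
  have C3 : RNP.Cu (toP D) v11 := RNP.Cu_v11
  have hFH : FH α β h = fun w => (((‖α‖ ^ 2 * ‖β‖ ^ 2 : ℝ) : ℂ) * h (β⁻¹ * w.1, α⁻¹ * w.2) +
      -((‖α‖ ^ 4 * ‖β‖ ^ 2 : ℝ) : ℂ) * h ((α * β)⁻¹ * w.1, α⁻¹ * w.2)) +
      ((‖α‖ ^ 2 * ‖β‖ ^ 4 : ℝ) : ℂ) * h ((α * β)⁻¹ * w.1, β⁻¹ * w.2) := by
    funext w
    unfold FH
    simp only [div_eq_inv_mul]
    ring
  have hAF : RNP.AdmE (toP D) (FH α β h) := by
    rw [hFH]
    exact RNP.AdmE_add (RNP.AdmE_add A1 A2) A3
  have hval : TT (FH α β h) e2 e1 v11 v11 =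
      ((α * β)⁻¹) ^ 2 * (hv_S h (α, β) - hv_S h (1, β) + hv_S h (1, α)) := by
    rw [hFH, RNP.TT_add (RNP.AdmE_add A1 A2) A3 C2 C1 C3 C3.1, RNP.TT_add A1 A2 C2 C1 C3 C3.1,
      TT_smul, TT_smul, TT_smul, hv_dil h hbi0 hai0, hv_dil h habi0 hai0, hv_dil h habi0 hbi0]
    have v1 : ((β⁻¹, α⁻¹) : Vec) = (α * β)⁻¹ • ((α, β) : Vec) := by
      ext
      · simp only [Prod.smul_fst, smul_eq_mul]
        field_simp
      · simp only [Prod.smul_snd, smul_eq_mul]
        field_simp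
    have v2 : (((α * β)⁻¹, α⁻¹) : Vec) = (α * β)⁻¹ • ((1, β) : Vec) := by
      ext
      · simp only [Prod.smul_fst, smul_eq_mul]
        field_simp
      · simp only [Prod.smul_snd, smul_eq_mul]
        field_simp
    have v3 : (((α * β)⁻¹, β⁻¹) : Vec) = (α * β)⁻¹ • ((1, α) : Vec) := by
      ext
      · simp only [Prod.smul_fst, smul_eq_mul]
        field_simp
      · simp only [Prod.smul_snd, smul_eq_mul]
        field_simp
    rw [v1, v2, v3, hv_S_smul h habi0, hv_S_smul h habi0, hv_S_smul h habi0]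
    have na : (‖α‖ : ℂ) ≠ 0 := by exact_mod_cast (norm_pos_iff.2 ha).ne'
    have nb : (‖β‖ : ℂ) ≠ 0 := by exact_mod_cast (norm_pos_iff.2 hb).ne'
    simp only [norm_mul, norm_inv]
    push_cast
    field_simp
    ring
  -- the swapped part
  have hsw : TT (fun w => FH α β h (w.2, w.1)) e2 e1 v11 v11 = -TT (FH α β h) e2 e1 v11 v11 := by
    have hdet : swp.det ≠ 0 := by
      rw [RNP.det_swp]
      norm_num
    have e := TT_act (FH α β h) hdet e2 e1 v11 v11
    have e' : (fun w : Vec => FH α β h (swp.act w)) = fun w => FH α β h (w.2, w.1) := by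
      funext w
      rw [RNP.swp_act]
    have g1 : swp.act e2 = e1 := by
      rw [RNP.swp_act]
      rfl
    have g2 : swp.act e1 = e2 := by
      rw [RNP.swp_act]
      rfl
    have g3 : swp.act v11 = v11 := by
      rw [RNP.swp_act]
      rfl
    rw [e', RNP.det_swp, g1, g2, g3, TT_a12 (FH α β h) e2 e1 v11 v11] at e
    rw [e]
    simp
  have hAsw : RNP.AdmE (toP D) (fun w => (-1) * FH α β h (w.2, w.1)) := by
    have h1 := RNP.AdmE_act (D := toP D) (RNP.GO_GK RNP.GO_swp) hAF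
    have e' : (fun w : Vec => FH α β h (swp.act w)) = fun w => FH α β h (w.2, w.1) := by
      funext w
      rw [RNP.swp_act]
    rw [e'] at h1
    exact RNP.AdmE_smul (neg_mem (one_mem _)) h1
  have htot : TT (fun w => FH α β h w - FH α β h (w.2, w.1)) e2 e1 v11 v11 =
      2 * TT (FH α β h) e2 e1 v11 v11 := by
    have e' : (fun w : Vec => FH α β h w - FH α β h (w.2, w.1)) =
        fun w => FH α β h w + (-1) * FH α β h (w.2, w.1) := by
      funext w
      ring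
    rw [e', RNP.TT_add hAF hAsw C2 C1 C3 C3.1, TT_smul, hsw]
    ring
  rw [htot, hval]
  -- invariances
  have iA : ∀ x y, h (x, y - x) = h (x, y) := fun x y => by
    rw [hs (y - x) x, ← hu (y - x) x, sub_add_cancel, hs]
  have iN : ∀ x y, h (x, -y) = h (x, y) := fun x y => by
    rw [hs (-y) x, hn, hs]
  let gu : Mat := ⟨1, 1, 0, 1⟩
  let gn : Mat := ⟨-1, 0, 0, 1⟩
  let ga : Mat := ⟨1, 0, -1, 1⟩
  let gb : Mat := ⟨1, 0, 1, -1⟩
  let gc : Mat := ⟨1, 0, 1, 1⟩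
  have du : gu.det = 1 := by simp [gu, Mat.det]
  have dn : gn.det = -1 := by simp [gn, Mat.det]
  have da : ga.det = 1 := by simp [ga, Mat.det]
  have db : gb.det = -1 := by simp [gb, Mat.det]
  have Hu : ∀ w, h (gu.act w) = h w := fun w => by
    have e : gu.act w = (w.1 + w.2, w.2) := by simp [gu, Mat.act]
    rw [e, hu]
  have Hn : ∀ w, h (gn.act w) = h w := fun w => by
    have e : gn.act w = (-w.1, w.2) := by simp [gn, Mat.act]
    rw [e, hn]
  have Ha : ∀ w, h (ga.act w) = h w := fun w => by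
    have e : ga.act w = (w.1, w.2 - w.1) := by
      simp only [ga, Mat.act]
      ext <;> simp <;> ring
    rw [e, iA]
  have Hb : ∀ w, h (gb.act w) = h w := fun w => by
    have e : gb.act w = (w.1, -(w.2 - w.1)) := by
      simp only [gb, Mat.act]
      ext <;> simp <;> ring
    rw [e, iN, iA]
  have Hc : ∀ w, h (gc.act w) = h w := fun w => by
    have e : gc.act w = (w.1, w.1 + w.2) := by
      simp only [gc, Mat.act]
      ext <;> simp
    rw [e, ← iA w.1 (w.1 + w.2), add_sub_cancel_left]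
  have Hs : ∀ w, h (swp.act w) = h w := fun w => by
    rw [RNP.swp_act, hs]
  -- 3
  have S1 : hv_S h (α, β) = -TT h e1 v11 (1, β) (1, β) := by
    unfold hv_S
    rw [hv_inv (g := gu) (by rw [du]; exact one_ne_zero) (by rw [du]; simp) Hu]
    have g1 : gu.act e2 = v11 := by simp [gu, Mat.act, e2, v11]
    have g2 : gu.act e1 = e1 := by simp [gu, Mat.act, e1]
    have g3 : gu.act (α, β) = (1, β) := by simp [gu, Mat.act, hab]
    rw [g1, g2, g3, TT_a12]
  have S2 : TT h e2 v11 (1, β) (1, β) = hv_S h (1, α) := by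
    rw [hv_inv (g := ga) (by rw [da]; exact one_ne_zero) (by rw [da]; simp) Ha]
    have g1 : ga.act e2 = e2 := by simp [ga, Mat.act, e2]
    have g2 : ga.act v11 = e1 := by simp [ga, Mat.act, e1, v11]
    have g3 : ga.act (1, β) = (1, -α) := by
      simp only [ga, Mat.act]
      ext
      · simp
      · simp only
        linear_combination hab
    rw [g1, g2, g3]
    have g1' : gn.act e2 = e2 := by simp [gn, Mat.act, e2]
    have g2' : gn.act e1 = (-1 : ℂ) • e1 := by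
      simp only [gn, Mat.act, e1]
      ext <;> simp
    have g3' : gn.act (1, -α) = (-1 : ℂ) • ((1, α) : Vec) := by
      simp only [gn, Mat.act]
      ext <;> simp
    have h1 : (-1 : ℂ) ≠ 0 := by norm_num
    rw [hv_inv (g := gn) (by rw [dn]; exact h1) (by rw [dn]; simp) Hn, g1', g2', g3',
      hv_scal2 h h1, hv_scal3 h h1, hv_scalp]
    unfold hv_S
    ring
  -- 4
  have Q0 : TT h e2 e1 v11 (1, β) = 0 := by
    have q := fun p => RNP.TT_quad hh C2 C1 C3 p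
    have h1 : (-1 : ℂ) ≠ 0 := by norm_num
    have r1 : ∀ p : Vec, TT h e2 e1 v11 p = -TT h e2 e1 v11 (p.2, p.1) := fun p => by
      rw [hv_inv (g := swp) (by rw [RNP.det_swp]; exact h1) (by rw [RNP.det_swp]; simp) Hs]
      have g1 : swp.act e2 = e1 := by
        rw [RNP.swp_act]
        rfl
      have g2 : swp.act e1 = e2 := by
        rw [RNP.swp_act]
        rfl
      have g3 : swp.act v11 = v11 := by
        rw [RNP.swp_act]
        rfl
      rw [g1, g2, g3, TT_a12, RNP.swp_act]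
    have r2 : ∀ p : Vec, TT h e2 e1 v11 p = -TT h e2 e1 v11 (p.1, p.1 - p.2) := fun p => by
      rw [hv_inv (g := gb) (by rw [db]; exact h1) (by rw [db]; simp) Hb]
      have g1 : gb.act e2 = (-1 : ℂ) • e2 := by
        simp only [gb, Mat.act, e2]
        ext <;> simp
      have g2 : gb.act e1 = v11 := by simp [gb, Mat.act, e1, v11]
      have g3 : gb.act v11 = e1 := by simp [gb, Mat.act, e1, v11]
      have g4 : gb.act p = (p.1, p.1 - p.2) := by
        simp only [gb, Mat.act]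
        ext <;> simp <;> ring
      rw [g1, g2, g3, g4, TT_scal h h1, TT_a23]
    have a1 := r1 v11
    have a2 := r1 e1
    have a3 := r2 e1
    have b1 : ((v11.2, v11.1) : Vec) = v11 := rfl
    have b2 : ((e1.2, e1.1) : Vec) = e2 := rfl
    have b3 : ((e1.1, e1.1 - e1.2) : Vec) = v11 := by simp [e1, v11]
    rw [b1] at a1
    rw [b2] at a2
    rw [b3] at a3
    have z1 : TT h e2 e1 v11 v11 = 0 := by linear_combination (1 / 2 : ℂ) * a1
    have z2 : TT h e2 e1 v11 e1 = 0 := by rw [a3, z1, neg_zero]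
    have z3 : TT h e2 e1 v11 e2 = 0 := by
      rw [z2] at a2
      linear_combination a2
    rw [q, z1, z2, z3]
    ring
  -- 5
  have l1 : RNP.ls h e2 = 0 := by
    have e := hv_ls Hs e1
    have g2 : swp.act e1 = e2 := by
      rw [RNP.swp_act]
      rfl
    rw [g2, h0] at e
    exact e
  have l3 : RNP.ls h v11 = 0 := by
    have e := hv_ls Hc e1
    have g2 : gc.act e1 = v11 := by simp [gc, Mat.act, e1, v11]
    rw [g2, h0] at e
    exact e
  have Cc : RNP.Cu (toP D) (1, β) := ⟨⟨one_mem _, hβ'⟩, by simp⟩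
  have k := coc_expl hh C2 C1 C3 Cc Cc.1 (by simp [det2, e1, e2]) (by simp [det2, e2, v11])
    (by simp [det2, e2]) (by simp [det2, e1, v11]) (by simpa [det2, e1] using hb)
    (by
      have e : det2 v11 (1, β) = -α := by
        simp only [det2, v11]
        linear_combination hab
      rw [e]
      exact neg_ne_zero.2 ha)
  rw [l1, h0, l3, Q0, S2] at k
  rw [S1]
  have k' : TT h e2 e1 (1, β) (1, β) = hv_S h (1, β) := rfl
  rw [k'] at k
  linear_combination (-2 * ((α * β)⁻¹) ^ 2) * k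

/-- the coefficient -/
theorem KG_val {α β : ℂ} (ha : α ≠ 0) (hb : β ≠ 0) (hab : α + β = 1) :
    KG e2 e1 v11 (1, β) (1, β) =
      6 * ((starRingEnd ℂ) β - β) / (β * (starRingEnd ℂ) β * (α * (starRingEnd ℂ) α)) := by
  have e1' : det2 e2 (1, β) = -1 := by simp [det2, e2]
  have e2' : det2 e1 (1, β) = β := by simp [det2, e1]
  have e3' : det2 v11 (1, β) = -α := by
    simp only [det2, v11]
    linear_combination hab
  have e4 : det2 e1 v11 = 1 := by simp [det2, e1, v11]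
  have e5 : det2 v11 e2 = 1 := by simp [det2, e2, v11]
  have hna : -α ≠ 0 := neg_ne_zero.2 ha
  simp only [KG]
  rw [e1', e2', e3', e4, e5, div_self hb, div_self hna, div_self (by norm_num : (-1 : ℂ) ≠ 0)]
  simp only [map_mul, map_neg, map_one]
  have ha' : (starRingEnd ℂ) α ≠ 0 := (map_ne_zero (starRingEnd ℂ)).2 ha
  have hb' : (starRingEnd ℂ) β ≠ 0 := (map_ne_zero (starRingEnd ℂ)).2 hb
  field_simp
  ring

end

end RNE
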