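import Pool.Agent.RNE.Gs
import Pool.Agent.RNE.Lt

/-!
# RNE.Lf: the L-function of a character

`χ : Hc D m`, `τ = du m χ 1` (real, in `K`, not zero). `th2_fe` and `Hc.du_mul`:
`th2 m χ (1/t) = t³ Σ τ conj(χ(x)) x̄² exp(..) = t³ τ th2 m χ t` (substitute `x ↦ x̄`, `Hc.cjf`).
The `StrongFEPair` with `f = g = th2 m χ`, `k = 3`, `ε = τ`; `Λ(s) = Γ(s) (π / (m y))^(-s) L(s)`,
`y = Im ω`, `Λ(3 - s) = τ Λ(s)`. So `L(s) = (π / (m y))^s Γ(s)⁻¹ Λ(s)` is entire and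
`L'(-1) = - (π / (m y))⁻¹ Λ(-1) = -(m y / π) τ Λ(4) = -(m y / π) τ 6 (m y / π)⁴ L(4)`. `L(4) = E4 χ`.
-/

open RNK Set Filter Topology Asymptotics

namespace RNE

noncomputable section

variable {D : OD} {m : ℕ} [NeZero m]

private def lf_cj (D : OD) : D.O ≃ D.O where
  toFun x := cj x
  invFun x := cj x
  left_inv _ := Subtype.ext (Complex.conj_conj _)
  right_inv _ := Subtype.ext (Complex.conj_conj _)

private theorem lf_nn_cj (x : D.O) : RN2.nn D (cj x) = RN2.nn D x := by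
  have h1 := RN2.nn_real D x
  have h2 := RN2.nn_real D (cj x)
  have h3 : ‖((cj x : D.O) : ℂ)‖ = ‖(x : ℂ)‖ := Complex.norm_conj (x : ℂ)
  rw [h3, ← h1] at h2
  exact_mod_cast h2

private theorem lf_th2c (χ : Hc D m) (t : ℝ) :
    th2c m (RN2.du m χ.f) t = RN2.du m χ.f 1 * th2 m χ.f t := by
  unfold th2c th2
  rw [← (lf_cj D).tsum_eq, ← tsum_mul_left]
  refine tsum_congr fun x => ?_
  show RN2.du m χ.f (cj x) * (starRingEnd ℂ) ((cj x : D.O) : ℂ) ^ 2 *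
    ((Real.exp (-(Real.pi * t / (m * (UNI.om D.a).im)) * RN2.nn D (cj x)) : ℝ) : ℂ) = _
  have h1 : (starRingEnd ℂ) ((cj x : D.O) : ℂ) = (x : ℂ) := Complex.conj_conj (x : ℂ)
  rw [lf_nn_cj, h1, χ.du_mul, χ.cjf, Complex.conj_conj]
  ring

private theorem lf_fe (χ : Hc D m) {t : ℝ} (ht : 0 < t) :
    th2 m χ.f (1 / t) = (RN2.du m χ.f 1 * (t : ℂ) ^ 3) * th2 m χ.f t := by
  rw [th2_fe χ.pe ht, lf_th2c]
  ring

private theorem lf_bigO (χ : Hc D m) (r : ℝ) :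
    (fun t : ℝ => th2 m χ.f t) =O[atTop] (fun t : ℝ => t ^ r) := by
  obtain ⟨C, c, hc, h⟩ := th2_top χ.pe (N := m) (D := D)
  have h1 : (fun t : ℝ => th2 m χ.f t) =O[atTop] (fun t : ℝ => Real.exp (-c * t)) := by
    refine Asymptotics.IsBigO.of_bound C ?_
    filter_upwards [eventually_ge_atTop 1] with t ht
    rw [Real.norm_eq_abs, abs_of_pos (Real.exp_pos _)]
    exact h t ht
  exact h1.trans (isLittleO_exp_neg_mul_rpow_atTop hc r).isBigO

/-- the pair of functions with functional equation -/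
private def lfP (χ : Hc D m) : WeakFEPair ℂ where
  f := fun t => th2 m χ.f t
  g := fun t => th2 m χ.f t
  k := 3
  ε := RN2.du m χ.f 1
  f₀ := 0
  g₀ := 0
  hf_int := (th2_cont χ.pe).locallyIntegrableOn measurableSet_Ioi
  hg_int := (th2_cont χ.pe).locallyIntegrableOn measurableSet_Ioi
  hk := by norm_num
  hε := χ.tau_ne
  h_feq := fun t ht => by
    have ht' : 0 < t := ht
    rw [lf_fe χ ht', smul_eq_mul]
    congr 2
    rw [← Complex.ofReal_pow]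
    congr 1
    rw [← Real.rpow_natCast]
    norm_num
  hf_top := fun r => by simpa using lf_bigO χ r
  hg_top := fun r => by simpa using lf_bigO χ r

private theorem lfP_strong (χ : Hc D m) : IsStrongFEPair (lfP χ) := ⟨rfl, rfl⟩

private theorem lf_Lam_diff (χ : Hc D m) : Differentiable ℂ (lfP χ).Λ :=
  (lfP_strong χ).differentiable_Λ

private theorem lf_Lam_fe (χ : Hc D m) (s : ℂ) :
    (lfP χ).Λ (3 - s) = RN2.du m χ.f 1 * (lfP χ).Λ s := by
  have h := (lfP χ).functional_equation s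
  have h2 : (lfP χ).symm.Λ s = (lfP χ).Λ s := by
    have e1 : (lfP χ).symm.Λ = mellin (lfP χ).symm.f := (lfP_strong χ).symm.Λ_eq
    have e2 : (lfP χ).Λ = mellin (lfP χ).f := (lfP_strong χ).Λ_eq
    rw [e1, e2]
    rfl
  rw [h2] at h
  have h3 : (lfP χ).ε = RN2.du m χ.f 1 := rfl
  have h4 : (((lfP χ).k : ℝ) : ℂ) = 3 := by
    have : (lfP χ).k = 3 := rfl
    rw [this]; norm_num
  rw [h3, h4, smul_eq_mul] at h
  exact h

private theorem lf_summable (χ : Hc D m) {v : ℝ} (hv : 0 < v) {s : ℂ} (hs : 2 < s.re) :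
    Summable fun x : D.O => ‖χ.f x * (x : ℂ) ^ 2‖ / (v * (RN2.nn D x : ℝ)) ^ s.re := by
  have h0 : Summable (fun x : D.O => (1 : ℂ) * ((RN2.nn D x : ℕ) : ℂ) ^ (-((s.re - 1 : ℝ) : ℂ))) :=
    RN2.Ds_summable (D := D) (a := fun _ => (1 : ℂ)) ⟨1, fun _ => by simp⟩
      (s := ((s.re - 1 : ℝ) : ℂ)) (by rw [Complex.ofReal_re]; linarith)
  refine Summable.of_nonneg_of_le (fun x => by positivity) (fun x => ?_)
    (h0.norm.mul_left ((v ^ s.re)⁻¹))
  rw [one_mul, norm_mul, norm_pow, ← RN2.nn_real D x]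
  have hb := χ.bdd x
  rcases Nat.eq_zero_or_pos (RN2.nn D x) with h | h
  · rw [h, Nat.cast_zero, mul_zero, zero_div]
    positivity
  · have hn : (0 : ℝ) < (RN2.nn D x : ℝ) := Nat.cast_pos.2 h
    rw [Complex.norm_natCast_cpow_of_pos h, Complex.neg_re, Complex.ofReal_re,
      show -(s.re - 1) = 1 - s.re by ring, Real.rpow_sub hn, Real.rpow_one,
      Real.mul_rpow hv.le hn.le]
    have h1 : ‖χ.f x‖ * (RN2.nn D x : ℝ) / (v ^ s.re * (RN2.nn D x : ℝ) ^ s.re) ≤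
        1 * (RN2.nn D x : ℝ) / (v ^ s.re * (RN2.nn D x : ℝ) ^ s.re) := by
      gcongr
    refine h1.trans (le_of_eq ?_)
    have h2 : (0 : ℝ) < v ^ s.re := Real.rpow_pos_of_pos hv _
    have h3 : (0 : ℝ) < (RN2.nn D x : ℝ) ^ s.re := Real.rpow_pos_of_pos hn _
    field_simp

private theorem lf_x0 {x : D.O} (h : RN2.nn D x = 0) : (x : ℂ) = 0 := by
  have h1 := RN2.nn_real D x
  rw [h, Nat.cast_zero] at h1
  have h2 : ‖(x : ℂ)‖ = 0 := by
    have := h1.symm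
    exact pow_eq_zero_iff (two_ne_zero) |>.mp this
  exact norm_eq_zero.1 h2

private theorem lf_hasSum_Lam (χ : Hc D m) {s : ℂ} (hs : 2 < s.re) :
    HasSum (fun x : D.O => Complex.Gamma s * (χ.f x * (x : ℂ) ^ 2) /
      ((Real.pi / (m * (UNI.om D.a).im) * (RN2.nn D x : ℝ) : ℝ) : ℂ) ^ s) ((lfP χ).Λ s) := by
  have hy := RN2.om_im_pos D
  have hm : (0 : ℝ) < m := Nat.cast_pos.2 (Nat.pos_of_ne_zero (NeZero.ne m))
  have hp := Real.pi_pos
  have hv : 0 < Real.pi / (m * (UNI.om D.a).im) := by positivity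
  have e2 : (lfP χ).Λ = mellin (lfP χ).f := (lfP_strong χ).Λ_eq
  rw [e2]
  haveI : Countable D.O := (RN2.elE D).symm.injective.countable
  refine hasSum_mellin (a := fun x : D.O => χ.f x * (x : ℂ) ^ 2)
    (p := fun x => Real.pi / (m * (UNI.om D.a).im) * (RN2.nn D x : ℝ))
    (F := (lfP χ).f) (s := s) ?_ (by linarith) ?_ ?_
  · intro x
    rcases Nat.eq_zero_or_pos (RN2.nn D x) with h | h
    · left
      simp [lf_x0 h]
    · right
      have hn : (0 : ℝ) < (RN2.nn D x : ℝ) := Nat.cast_pos.2 h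
      positivity
  · intro t ht
    have ht' : 0 < t := ht
    have h1 := (th2_summable (D := D) (a := χ.f) ⟨1, χ.bdd⟩
      (c := Real.pi * t / (m * (UNI.om D.a).im)) (by positivity)).hasSum
    have h2 : (lfP χ).f t = th2 m χ.f t := rfl
    rw [h2]
    refine LatL.hsC h1 fun x => ?_
    congr 3
    ring
  · exact lf_summable χ hv hs

/-- the L-function -/
private def lfL (χ : Hc D m) (s : ℂ) : ℂ :=
  (lfP χ).Λ s * ((Real.pi / (m * (UNI.om D.a).im) : ℝ) : ℂ) ^ s * (Complex.Gamma s)⁻¹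

private theorem lf_v (D : OD) (m : ℕ) [NeZero m] : 0 < Real.pi / (m * (UNI.om D.a).im) := by
  have hy := RN2.om_im_pos D
  have hm : (0 : ℝ) < m := Nat.cast_pos.2 (Nat.pos_of_ne_zero (NeZero.ne m))
  have hp := Real.pi_pos
  positivity

private theorem lfL_diff (χ : Hc D m) : Differentiable ℂ (lfL χ) := by
  have hv := lf_v D m
  have h0 : ((Real.pi / (m * (UNI.om D.a).im) : ℝ) : ℂ) ≠ 0 := by
    rw [Complex.ofReal_ne_zero]; exact hv.ne'
  refine ((lf_Lam_diff χ).mul ?_).mul Complex.differentiable_one_div_Gamma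
  intro s
  exact (differentiableAt_id.const_cpow (Or.inl h0))

private theorem lfL_hasSum (χ : Hc D m) {s : ℂ} (hs : 2 < s.re) :
    HasSum (fun x : D.O => χ.f x * (x : ℂ) ^ 2 / ((RN2.nn D x : ℕ) : ℂ) ^ s) (lfL χ s) := by
  have hv := lf_v D m
  have h0 : ((Real.pi / (m * (UNI.om D.a).im) : ℝ) : ℂ) ≠ 0 := by
    rw [Complex.ofReal_ne_zero]; exact hv.ne'
  have hG : Complex.Gamma s ≠ 0 := Complex.Gamma_ne_zero_of_re_pos (by linarith)
  have h := ((lf_hasSum_Lam χ hs).mul_right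
    (((Real.pi / (m * (UNI.om D.a).im) : ℝ) : ℂ) ^ s)).mul_right (Complex.Gamma s)⁻¹
  have h1 : ((Real.pi / (m * (UNI.om D.a).im) : ℝ) : ℂ) ^ s ≠ 0 := by
    rw [Complex.cpow_def_of_ne_zero h0]; exact Complex.exp_ne_zero _
  refine LatL.hsC h fun x => ?_
  have e : (((Real.pi / (m * (UNI.om D.a).im) * (RN2.nn D x : ℝ) : ℝ)) : ℂ) ^ s
      = ((Real.pi / (m * (UNI.om D.a).im) : ℝ) : ℂ) ^ s * ((RN2.nn D x : ℕ) : ℂ) ^ s := by
    rw [← Complex.ofReal_natCast, ← Complex.mul_cpow_ofReal_nonneg hv.le (Nat.cast_nonneg _),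
      ← Complex.ofReal_mul]
  rw [e]
  by_cases h2 : ((RN2.nn D x : ℕ) : ℂ) ^ s = 0
  · rw [h2]; simp
  · field_simp

private theorem lfL_deriv (χ : Hc D m) :
    HasDerivAt (lfL χ) (-(6 * RN2.du m χ.f 1 * ((m * (UNI.om D.a).im / Real.pi) ^ 5 : ℝ)) *
      lfL χ 4) (-1) := by
  have hv := lf_v D m
  have h0 : ((Real.pi / (m * (UNI.om D.a).im) : ℝ) : ℂ) ≠ 0 := by
    rw [Complex.ofReal_ne_zero]; exact hv.ne'
  have hg : DifferentiableAt ℂ (fun s : ℂ => (lfP χ).Λ s *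
      ((Real.pi / (m * (UNI.om D.a).im) : ℝ) : ℂ) ^ s) (-1) := by
    refine (lf_Lam_diff χ (-1)).mul ?_
    exact (differentiableAt_id.const_cpow (Or.inl h0))
  have h1 := hg.hasDerivAt.mul LatL.hasDerivAt_invGamma
  refine (h1 : HasDerivAt (lfL χ) _ (-1)).congr_deriv ?_
  have hG1 : Complex.Gamma (-1 : ℂ) = 0 := by
    have := Complex.Gamma_neg_nat_eq_zero 1
    simpa using this
  have hG4 : Complex.Gamma (4 : ℂ) = 6 := by
    have := Complex.Gamma_nat_eq_factorial 3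
    have h3 : ((3 : ℕ) : ℂ) + 1 = 4 := by norm_num
    rw [h3] at this
    rw [this]
    norm_num [Nat.factorial]
  have hfe : (lfP χ).Λ (-1) = RN2.du m χ.f 1 * (lfP χ).Λ 4 := by
    have := lf_Lam_fe χ 4
    rw [← this]; norm_num
  rw [hG1, inv_zero, mul_zero, zero_add, hfe, lfL, hG4]
  have e1 : ((Real.pi / (m * (UNI.om D.a).im) : ℝ) : ℂ) ^ (-1 : ℂ) =
      (((m * (UNI.om D.a).im / Real.pi : ℝ)) : ℂ) := by
    rw [Complex.cpow_neg_one, ← Complex.ofReal_inv, inv_div]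
  have e4 : ((Real.pi / (m * (UNI.om D.a).im) : ℝ) : ℂ) ^ (4 : ℂ) =
      ((((m * (UNI.om D.a).im / Real.pi) ^ 4)⁻¹ : ℝ) : ℂ) := by
    rw [show (4 : ℂ) = ((4 : ℕ) : ℂ) by norm_num, Complex.cpow_natCast, ← Complex.ofReal_pow]
    congr 1
    rw [← inv_pow, inv_div]
  rw [e1, e4]
  have hx : 0 < m * (UNI.om D.a).im / Real.pi := by
    have := inv_pos.2 hv
    rwa [inv_div] at this
  generalize m * (UNI.om D.a).im / Real.pi = v at *
  have hx' : (v : ℂ) ≠ 0 := by rw [Complex.ofReal_ne_zero]; exact hx.ne'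
  push_cast
  field_simp

theorem Lf (χ : Hc D m) : ∃ L : ℂ → ℂ, Differentiable ℂ L ∧
    (∀ s : ℂ, 2 < s.re → HasSum (fun x : D.O => χ.f x * (x : ℂ) ^ 2 / ((RN2.nn D x : ℕ) : ℂ) ^ s)
      (L s)) ∧
    deriv L (-1) = -(6 * RN2.du m χ.f 1 * ((m * (UNI.om D.a).im / Real.pi) ^ 5 : ℝ)) *
      E4 χ.f := by
  refine ⟨lfL χ, lfL_diff χ, fun s hs => lfL_hasSum χ hs, ?_⟩
  rw [(lfL_deriv χ).deriv]
  congr 1
  have h := (lfL_hasSum χ (s := 4) (by norm_num)).tsum_eq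
  rw [← h]
  unfold E4
  refine tsum_congr fun x => ?_
  rw [show (4 : ℂ) = ((4 : ℕ) : ℂ) by norm_num, Complex.cpow_natCast]

end

end RNE
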