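import Pool.Agent.RNE.Defs
import Pool.Agent.RN2.Bs

/-!
# RNE.Nz: the value at `4` is not zero (stub; prove the sorry)

Let `w` be the number of units (`2`, or `4` for `O = ℤ[i]`, or `6` for `O = ℤ[(1 + √-3)/2]`). The units contribute `w` to
the sum. The other elements `x ≠ 0` have `nn D x ≥ 2` and contribute at most `Σ nn(x)⁻³` in absolute value. We need
`Σ_{nn x ≥ 2} nn(x)⁻³ < w`. With `x = a + b ω`, `4 nn(x) = (2 a + t b)² + |D| b²`, `|D| = 4 n - t²`
(`D.a.t`, `D.a.n`; `UNI.nm`). WLOG (only values of the form matter, or translate `a`) `t ∈ {0, 1}`.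
* `|D| ≥ 7`: `Σ_{nn ≥ 2} nn⁻³ ≤ 0.64 < 2`. Terms with `b = 0`: `2 (ζ(6) - 1) ≤ 0.04`. For `b = ±1`:
  `4 nn ≥ (2a + t b)² + 7`: each row `≤ 0.3`. For `|b| ≥ 2`: `nn ≥ a'² + 7 b² / 4`,
  `Σ_a (a² + h)⁻³`-type bounds, `nn³ ≥ C (1 + a²) b⁴` or similar crude bounds, are enough.
* `|D| = 4`: `4 (ζ(3) β(3) - 1) = 0.66 < 4`, `|D| = 3`: `0.38 < 6`; again crude bounds are enough.
Alternative for the whole statement: bound the number of elements of norm `n`. See also `QOL/Nonzero` (a similar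
estimate for `a = 1`).
-/

open RNK

namespace RNE

noncomputable section

variable {D : OD}

/-! ### telescoping sums over finite sets of integers -/

private theorem nz_tel {H : ℤ → ℝ} (hm : Monotone H) {S : ℝ} (hS : ∀ x y, H x - H y ≤ S)
    (A : Finset ℤ) : ∑ a ∈ A, (H (a + 1) - H a) ≤ S := by
  obtain ⟨N, hN⟩ : ∃ N : ℕ, ∀ a ∈ A, a.natAbs ≤ N := by
    refine ⟨A.sup Int.natAbs, fun a ha => ?_⟩
    exact Finset.le_sup (f := Int.natAbs) ha
  have h1 : A ⊆ (Finset.range (2 * N + 1)).image fun i : ℕ => (i : ℤ) - N := by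
    intro a ha
    have h2 := hN a ha
    rw [Finset.mem_image]
    refine ⟨(a + N).toNat, ?_, ?_⟩
    · rw [Finset.mem_range]
      omega
    · omega
  have h2 : ∑ a ∈ (Finset.range (2 * N + 1)).image (fun i : ℕ => (i : ℤ) - N), (H (a + 1) - H a) =
      ∑ i ∈ Finset.range (2 * N + 1), (H ((i : ℤ) - N + 1) - H ((i : ℤ) - N)) := by
    refine Finset.sum_image ?_
    intro i _ j _ hij
    simp only at hij
    omega
  calc ∑ a ∈ A, (H (a + 1) - H a)
      ≤ ∑ a ∈ (Finset.range (2 * N + 1)).image (fun i : ℕ => (i : ℤ) - N), (H (a + 1) - H a) :=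
        Finset.sum_le_sum_of_subset_of_nonneg h1 fun a _ _ => sub_nonneg.2 (hm (by omega))
    _ = ∑ i ∈ Finset.range (2 * N + 1), (H ((i : ℤ) - N + 1) - H ((i : ℤ) - N)) := h2
    _ = H (((2 * N + 1 : ℕ) : ℤ) - N) - H (((0 : ℕ) : ℤ) - N) := by
        rw [← Finset.sum_range_sub (fun i : ℕ => H ((i : ℤ) - N))]
        refine Finset.sum_congr rfl fun i _ => ?_
        have e : (i : ℤ) - N + 1 = ((i + 1 : ℕ) : ℤ) - N := by push_cast; ring
        rw [e]
    _ ≤ S := hS _ _

private theorem nz_row {G : ℤ → ℝ} (hm : Monotone G) {S : ℝ} (hS : ∀ x y, G x - G y ≤ S)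
    (A : Finset ℤ) (s : ℤ) : ∑ a ∈ A, (G (2 * a + s + 1) - G (2 * a + s - 1)) ≤ S := by
  have h := nz_tel (H := fun a => G (2 * a + s - 1)) (fun x y hxy => hm (by omega))
    (fun x y => hS _ _) A
  refine le_trans (le_of_eq (Finset.sum_congr rfl fun a _ => ?_)) h
  have e : 2 * (a + 1) + s - 1 = 2 * a + s + 1 := by ring
  simp only [e]

/-! ### the three majorants -/

private def G0 (x : ℤ) : ℝ :=
  if x ≤ -3 then -(1 / 8 * (1 / 3 + 1 / (x : ℝ))) else if x < 3 then 0 else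
    1 / 8 * (1 / 3 - 1 / (x : ℝ))

private def G1 (x : ℤ) : ℝ :=
  if x ≤ -3 then -(1 / 4 + 3 / (16 * (x : ℝ))) else if x < 3 then (x : ℝ) / 16 else
    1 / 4 - 3 / (16 * (x : ℝ))

private def G2 (x : ℤ) : ℝ :=
  if x ≤ 0 then -(2 / 7 * (1 - 3 / (3 - (x : ℝ)))) else 2 / 7 * (1 - 3 / (3 + (x : ℝ)))

private theorem nz_mono {G : ℤ → ℝ} (h : ∀ x, G x ≤ G (x + 1)) : Monotone G :=
  monotone_int_of_le_succ h

private theorem G0_mono : Monotone G0 := by
  refine nz_mono fun x => ?_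
  unfold G0
  push_cast
  rcases lt_or_ge x (-3) with h | h
  · rw [if_pos (by omega), if_pos (by omega)]
    have hx : (x : ℝ) ≤ -4 := by exact_mod_cast (by omega : x ≤ -4)
    have h1 : 1 / ((x : ℝ) + 1) ≤ 1 / (x : ℝ) :=
      one_div_le_one_div_of_neg_of_le (by linarith) (by linarith)
    linarith
  rcases eq_or_lt_of_le h with h | h
  · rw [← h, if_pos (by norm_num), if_neg (by norm_num), if_pos (by norm_num)]
    norm_num
  rcases lt_or_ge x 2 with h2 | h2
  · rw [if_neg (by omega), if_pos (by omega), if_neg (by omega), if_pos (by omega)]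
  rcases eq_or_lt_of_le h2 with h2 | h2
  · rw [← h2]
    norm_num
  · rw [if_neg (by omega), if_neg (by omega), if_neg (by omega), if_neg (by omega)]
    have hx : (3 : ℝ) ≤ x := by exact_mod_cast (by omega : 3 ≤ x)
    have h1 : 1 / ((x : ℝ) + 1) ≤ 1 / (x : ℝ) :=
      one_div_le_one_div_of_le (by linarith) (by linarith)
    linarith

private theorem G1_mono : Monotone G1 := by
  refine nz_mono fun x => ?_
  unfold G1
  push_cast
  rcases lt_or_ge x (-3) with h | h
  · rw [if_pos (by omega), if_pos (by omega)]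
    have hx : (x : ℝ) ≤ -4 := by exact_mod_cast (by omega : x ≤ -4)
    have h1 : 1 / ((x : ℝ) + 1) ≤ 1 / (x : ℝ) :=
      one_div_le_one_div_of_neg_of_le (by linarith) (by linarith)
    have e1 : 3 / (16 * ((x : ℝ) + 1)) = 3 / 16 * (1 / ((x : ℝ) + 1)) := by
      rw [div_mul_div_comm, mul_one]
    have e2 : 3 / (16 * (x : ℝ)) = 3 / 16 * (1 / (x : ℝ)) := by rw [div_mul_div_comm, mul_one]
    rw [e1, e2]
    linarith
  rcases eq_or_lt_of_le h with h | h
  · rw [← h, if_pos (by norm_num), if_neg (by norm_num), if_pos (by norm_num)]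
    norm_num
  rcases lt_or_ge x 2 with h2 | h2
  · rw [if_neg (by omega), if_pos (by omega), if_neg (by omega), if_pos (by omega)]
    linarith
  rcases eq_or_lt_of_le h2 with h2 | h2
  · rw [← h2]
    norm_num
  · rw [if_neg (by omega), if_neg (by omega), if_neg (by omega), if_neg (by omega)]
    have hx : (3 : ℝ) ≤ x := by exact_mod_cast (by omega : 3 ≤ x)
    have h1 : 1 / ((x : ℝ) + 1) ≤ 1 / (x : ℝ) :=
      one_div_le_one_div_of_le (by linarith) (by linarith)
    have e1 : 3 / (16 * ((x : ℝ) + 1)) = 3 / 16 * (1 / ((x : ℝ) + 1)) := by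
      rw [div_mul_div_comm, mul_one]
    have e2 : 3 / (16 * (x : ℝ)) = 3 / 16 * (1 / (x : ℝ)) := by rw [div_mul_div_comm, mul_one]
    rw [e1, e2]
    linarith

private theorem G2_mono : Monotone G2 := by
  refine nz_mono fun x => ?_
  unfold G2
  push_cast
  rcases lt_or_ge x 0 with h | h
  · rw [if_pos (by omega), if_pos (by omega)]
    have hx : (x : ℝ) ≤ -1 := by exact_mod_cast (by omega : x ≤ -1)
    have h1 : 3 / (3 - (x : ℝ)) ≤ 3 / (3 - ((x : ℝ) + 1)) :=
      div_le_div_of_nonneg_left (by norm_num) (by linarith) (by linarith)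
    linarith
  rcases eq_or_lt_of_le h with h | h
  · rw [← h]
    norm_num
  · rw [if_neg (by omega), if_neg (by omega)]
    have hx : (1 : ℝ) ≤ x := by exact_mod_cast (by omega : 1 ≤ x)
    have h1 : 3 / (3 + ((x : ℝ) + 1)) ≤ 3 / (3 + (x : ℝ)) :=
      div_le_div_of_nonneg_left (by norm_num) (by linarith) (by linarith)
    linarith

private theorem G0_bd (x : ℤ) : -(1 / 24) ≤ G0 x ∧ G0 x ≤ 1 / 24 := by
  unfold G0
  split_ifs with h1 h2
  · have hx : (x : ℝ) ≤ -3 := by exact_mod_cast h1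
    have h3 : 1 / (x : ℝ) ≤ 0 := div_nonpos_of_nonneg_of_nonpos zero_le_one (by linarith)
    have h4 : -(1 / 3) ≤ 1 / (x : ℝ) := by
      rw [← sub_nonneg]
      have : 1 / (x : ℝ) - -(1 / 3) = (x + 3) / (3 * x) := by
        have : (x : ℝ) ≠ 0 := by linarith
        field_simp
        ring
      rw [this]
      exact div_nonneg_of_nonpos (by linarith) (by linarith)
    constructor <;> linarith
  · constructor <;> norm_num
  · have hx : (3 : ℝ) ≤ x := by exact_mod_cast (by omega : 3 ≤ x)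
    have h3 : 0 ≤ 1 / (x : ℝ) := by positivity
    have h4 : 1 / (x : ℝ) ≤ 1 / 3 := one_div_le_one_div_of_le (by norm_num) hx
    constructor <;> linarith

private theorem G1_bd (x : ℤ) : -(1 / 4) ≤ G1 x ∧ G1 x ≤ 1 / 4 := by
  unfold G1
  split_ifs with h1 h2
  · have hx : (x : ℝ) ≤ -3 := by exact_mod_cast h1
    have h3 : 3 / (16 * (x : ℝ)) ≤ 0 := div_nonpos_of_nonneg_of_nonpos (by norm_num) (by linarith)
    have h4 : -(1 / 4) ≤ 3 / (16 * (x : ℝ)) := by
      rw [← sub_nonneg]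
      have : 3 / (16 * (x : ℝ)) - -(1 / 4) = (4 * x + 3) / (16 * x) := by
        have : (x : ℝ) ≠ 0 := by linarith
        field_simp
        ring
      rw [this]
      exact div_nonneg_of_nonpos (by linarith) (by linarith)
    constructor <;> linarith
  · have hx : (x : ℝ) ≤ 2 := by exact_mod_cast (by omega : x ≤ 2)
    have hx' : (-2 : ℝ) ≤ x := by exact_mod_cast (by omega : -2 ≤ x)
    constructor <;> linarith
  · have hx : (3 : ℝ) ≤ x := by exact_mod_cast (by omega : 3 ≤ x)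
    have h3 : 0 ≤ 3 / (16 * (x : ℝ)) := by positivity
    have h4 : 3 / (16 * (x : ℝ)) ≤ 3 / (16 * 3) :=
      div_le_div_of_nonneg_left (by norm_num) (by norm_num) (by linarith)
    constructor <;> linarith

private theorem G2_bd (x : ℤ) : -(2 / 7) ≤ G2 x ∧ G2 x ≤ 2 / 7 := by
  unfold G2
  split_ifs with h1
  · have hx : (x : ℝ) ≤ 0 := by exact_mod_cast h1
    have h3 : 0 ≤ 3 / (3 - (x : ℝ)) := div_nonneg (by norm_num) (by linarith)
    have h4 : 3 / (3 - (x : ℝ)) ≤ 1 := by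
      rw [div_le_one (by linarith)]
      linarith
    constructor <;> linarith
  · have hx : (1 : ℝ) ≤ x := by exact_mod_cast (by omega : 1 ≤ x)
    have h3 : 0 ≤ 3 / (3 + (x : ℝ)) := by positivity
    have h4 : 3 / (3 + (x : ℝ)) ≤ 1 := by
      rw [div_le_one (by linarith)]
      linarith
    constructor <;> linarith

private theorem G0_odd (x : ℤ) : G0 (-x) = -G0 x := by
  unfold G0
  push_cast
  rcases lt_or_ge x 3 with h | h
  · rcases lt_or_ge x (-2) with h2 | h2
    · rw [if_neg (by omega), if_neg (by omega), if_pos (by omega), one_div_neg_eq_neg_one_div]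
      ring
    · rw [if_neg (by omega), if_pos (by omega), if_neg (by omega), if_pos (by omega)]
      simp
  · rw [if_pos (by omega), if_neg (by omega), if_neg (by omega), one_div_neg_eq_neg_one_div]
    ring

private theorem G1_odd (x : ℤ) : G1 (-x) = -G1 x := by
  unfold G1
  push_cast
  rcases lt_or_ge x 3 with h | h
  · rcases lt_or_ge x (-2) with h2 | h2
    · rw [if_neg (by omega), if_neg (by omega), if_pos (by omega), mul_neg, div_neg]
      ring
    · rw [if_neg (by omega), if_pos (by omega), if_neg (by omega), if_pos (by omega)]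
      ring
  · rw [if_pos (by omega), if_neg (by omega), if_neg (by omega), mul_neg, div_neg]
    ring

private theorem G2_odd (x : ℤ) : G2 (-x) = -G2 x := by
  unfold G2
  push_cast
  rcases lt_trichotomy x 0 with h | h | h
  · rw [if_neg (by omega), if_pos (by omega)]
    ring_nf
  · subst h
    norm_num
  · rw [if_pos (by omega), if_neg (by omega)]
    ring_nf

private theorem nz_even {G g : ℤ → ℝ} (ho : ∀ x, G (-x) = -G x) (hg : ∀ x, g (-x) = g x)
    (h : ∀ c : ℤ, 0 ≤ c → g c ≤ G (c + 1) - G (c - 1)) (c : ℤ) : g c ≤ G (c + 1) - G (c - 1) := by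
  rcases le_total 0 c with h0 | h0
  · exact h c h0
  · have h1 := h (-c) (by omega)
    have e1 : -c + 1 = -(c - 1) := by ring
    have e2 : -c - 1 = -(c + 1) := by ring
    rw [hg, e1, e2, ho, ho] at h1
    linarith

private theorem G0_ge (c : ℤ) (hc : 4 ≤ |c|) : 64 / (c : ℝ) ^ 6 ≤ G0 (c + 1) - G0 (c - 1) := by
  have key := nz_even (G := G0) (g := fun c : ℤ => if 4 ≤ |c| then 64 / (c : ℝ) ^ 6 else 0) G0_odd
    (fun x => by
      simp only [abs_neg, Int.cast_neg]
      congr 2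
      ring)
    (fun c h0 => by
      show (if 4 ≤ |c| then 64 / (c : ℝ) ^ 6 else 0) ≤ _
      split_ifs with h4
      · rw [abs_of_nonneg h0] at h4
        have hx : (4 : ℝ) ≤ c := by exact_mod_cast h4
        unfold G0
        rw [if_neg (by omega), if_neg (by omega), if_neg (by omega), if_neg (by omega)]
        push_cast
        have h5 : 1 / 8 * (1 / 3 - 1 / ((c : ℝ) + 1)) - 1 / 8 * (1 / 3 - 1 / ((c : ℝ) - 1)) =
            1 / (4 * ((c : ℝ) ^ 2 - 1)) := by
          have e1 : (c : ℝ) + 1 ≠ 0 := by linarith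
          have e2 : (c : ℝ) - 1 ≠ 0 := by linarith
          have e3 : (c : ℝ) ^ 2 - 1 ≠ 0 := by
            have : (c : ℝ) ^ 2 - 1 = (c + 1) * (c - 1) := by ring
            rw [this]
            exact mul_ne_zero e1 e2
          field_simp
          ring
        rw [h5]
        have h6 : (0 : ℝ) < 4 * ((c : ℝ) ^ 2 - 1) := by nlinarith
        rw [div_le_div_iff₀ (by positivity) h6]
        have h7 : (256 : ℝ) ≤ (c : ℝ) ^ 4 := by
          have := pow_le_pow_left₀ (by norm_num) hx 4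
          norm_num at this
          exact this
        have h8 : (c : ℝ) ^ 6 = (c : ℝ) ^ 4 * (c : ℝ) ^ 2 := by ring
        have h9 : 0 ≤ (c : ℝ) ^ 2 := by positivity
        rw [h8]
        nlinarith [mul_le_mul_of_nonneg_right h7 h9]
      · exact sub_nonneg.2 (G0_mono (by omega))) c
  simp only [if_pos hc] at key
  exact key

private theorem G1_ge (c : ℤ) : min (1 / 8) (64 / ((c : ℝ) ^ 2 + 3) ^ 3) ≤ G1 (c + 1) - G1 (c - 1) := by
  refine nz_even (G := G1) (g := fun c : ℤ => min (1 / 8) (64 / ((c : ℝ) ^ 2 + 3) ^ 3)) G1_odd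
    (fun x => by simp) (fun c h0 => ?_) c
  show min (1 / 8) (64 / ((c : ℝ) ^ 2 + 3) ^ 3) ≤ _
  rcases lt_or_ge c 4 with h | h
  · have h4 : c = 0 ∨ c = 1 ∨ c = 2 ∨ c = 3 := by omega
    rcases h4 with rfl | rfl | rfl | rfl
    · refine (min_le_left _ _).trans ?_
      unfold G1
      norm_num
    · refine (min_le_left _ _).trans ?_
      unfold G1
      norm_num
    · refine (min_le_left _ _).trans ?_
      unfold G1
      norm_num
    · refine (min_le_right _ _).trans ?_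
      unfold G1
      norm_num
  · refine (min_le_right _ _).trans ?_
    have hx : (4 : ℝ) ≤ c := by exact_mod_cast h
    unfold G1
    rw [if_neg (by omega), if_neg (by omega), if_neg (by omega), if_neg (by omega)]
    push_cast
    have e1 : (c : ℝ) + 1 ≠ 0 := by linarith
    have e2 : (c : ℝ) - 1 ≠ 0 := by linarith
    have h5 : 1 / 4 - 3 / (16 * ((c : ℝ) + 1)) - (1 / 4 - 3 / (16 * ((c : ℝ) - 1))) =
        3 / (8 * ((c : ℝ) ^ 2 - 1)) := by
      have e3 : (c : ℝ) ^ 2 - 1 ≠ 0 := by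
        have : (c : ℝ) ^ 2 - 1 = (c + 1) * (c - 1) := by ring
        rw [this]
        exact mul_ne_zero e1 e2
      field_simp
      ring
    rw [h5]
    have h6 : (0 : ℝ) < 8 * ((c : ℝ) ^ 2 - 1) := by nlinarith
    rw [div_le_div_iff₀ (by positivity) h6]
    have h7 : (19 : ℝ) ≤ (c : ℝ) ^ 2 + 3 := by nlinarith
    have h8 : (361 : ℝ) ≤ ((c : ℝ) ^ 2 + 3) ^ 2 := by nlinarith
    have h9 : ((c : ℝ) ^ 2 + 3) ^ 3 = ((c : ℝ) ^ 2 + 3) ^ 2 * ((c : ℝ) ^ 2 + 3) := by ring
    rw [h9]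
    nlinarith [mul_le_mul_of_nonneg_right h8 (by linarith : (0 : ℝ) ≤ (c : ℝ) ^ 2 + 3)]

private theorem G2_ge (c : ℤ) : 1 / ((c : ℝ) ^ 2 + 12) ≤ G2 (c + 1) - G2 (c - 1) := by
  refine nz_even (G := G2) (g := fun c : ℤ => 1 / ((c : ℝ) ^ 2 + 12)) G2_odd
    (fun x => by simp) (fun c h0 => ?_) c
  show 1 / ((c : ℝ) ^ 2 + 12) ≤ _
  rcases eq_or_lt_of_le h0 with h | h
  · rw [← h]
    unfold G2
    norm_num
  · rcases eq_or_lt_of_le (by omega : 1 ≤ c) with h1 | h1
    · rw [← h1]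
      unfold G2
      norm_num
    · have hx : (2 : ℝ) ≤ c := by exact_mod_cast (by omega : 2 ≤ c)
      unfold G2
      rw [if_neg (by omega), if_neg (by omega)]
      push_cast
      have h5 : 2 / 7 * (1 - 3 / (3 + ((c : ℝ) + 1))) - 2 / 7 * (1 - 3 / (3 + ((c : ℝ) - 1))) =
          12 / (7 * (((c : ℝ) + 4) * ((c : ℝ) + 2))) := by
        have e1 : 3 + ((c : ℝ) + 1) ≠ 0 := by linarith
        have e2 : 3 + ((c : ℝ) - 1) ≠ 0 := by linarith
        have e3 : (c : ℝ) + 4 ≠ 0 := by linarith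
        have e4 : (c : ℝ) + 2 ≠ 0 := by linarith
        field_simp
        ring
      rw [h5, div_le_div_iff₀ (by positivity) (by positivity)]
      have h6 : 0 ≤ (c - 4) * (5 * c - 22) := by
        rcases le_or_gt c 4 with h7 | h7
        · exact mul_nonneg_of_nonpos_of_nonpos (by omega) (by omega)
        · exact mul_nonneg (by omega) (by omega)
      have h7 : (0 : ℝ) ≤ ((c : ℝ) - 4) * (5 * (c : ℝ) - 22) := by exact_mod_cast h6
      nlinarith

/-! ### the norm form -/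

private theorem nz_nm (m : ℤ × ℤ) : ((RN2.nn D (RN2.el D m) : ℕ) : ℤ) = UNI.nm D.a m := by
  have h := RN2.nn_mul_cj D (RN2.el D m)
  have h1 : UNI.xx D.a m * (starRingEnd ℂ) (UNI.xx D.a m) = (UNI.nm D.a m : ℤ) := by
    simp only [UNI.xx, map_add, map_mul, map_intCast, cj_om, UNI.nm]
    push_cast
    linear_combination (-(m.2 : ℂ) ^ 2) * om_sq D.a
  have h2 : ((RN2.nn D (RN2.el D m) : ℕ) : ℂ) = ((UNI.nm D.a m : ℤ) : ℂ) := by
    rw [← h, ← h1]
    rfl
  exact_mod_cast h2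

private theorem nz_four (m : ℤ × ℤ) : 4 * ((RN2.nn D (RN2.el D m) : ℕ) : ℤ) =
    (2 * m.1 + D.a.t * m.2) ^ 2 + (4 * D.a.n - D.a.t ^ 2) * m.2 ^ 2 := by
  rw [nz_nm]
  unfold UNI.nm
  ring

private theorem nz_disc (a : UNI.Par) : 3 ≤ 4 * a.n - a.t ^ 2 := by
  have h := a.h
  rcases Int.even_or_odd' a.t with ⟨k, hk | hk⟩
  · have e : a.t ^ 2 = 4 * k ^ 2 := by rw [hk]; ring
    rw [e] at h ⊢
    omega
  · have e : a.t ^ 2 = 4 * (k ^ 2 + k) + 1 := by rw [hk]; ring
    rw [e] at h ⊢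
    omega

private theorem nz_ge (m : ℤ × ℤ) :
    ((2 * m.1 + D.a.t * m.2 : ℤ) : ℝ) ^ 2 + 3 * (m.2 : ℝ) ^ 2 ≤
      4 * ((RN2.nn D (RN2.el D m) : ℕ) : ℝ) := by
  have h1 : (2 * m.1 + D.a.t * m.2) ^ 2 + 3 * m.2 ^ 2 ≤ 4 * ((RN2.nn D (RN2.el D m) : ℕ) : ℤ) := by
    rw [nz_four]
    have := nz_disc D.a
    nlinarith [sq_nonneg m.2]
  exact_mod_cast h1

/-- the terms of norm at least `2` -/
private def hh (x : D.O) : ℝ := if 2 ≤ RN2.nn D x then (((RN2.nn D x : ℕ) : ℝ) ^ 3)⁻¹ else 0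

private theorem hh_nonneg (x : D.O) : 0 ≤ hh x := by
  unfold hh
  split_ifs
  · positivity
  · exact le_rfl

private def rr (b : ℤ) : ℝ := if b = 0 then 1 / 12 else if b = 1 ∨ b = -1 then 1 / 2 else
  256 / 63 / (b : ℝ) ^ 4

private theorem nz_one_row (b : ℤ) (A : Finset ℤ) : ∑ a ∈ A, hh (RN2.el D (a, b)) ≤ rr b := by
  unfold rr
  split_ifs with h0 h1
  · subst h0
    refine le_trans (Finset.sum_le_sum (g := fun a => G0 (2 * a + 0 + 1) - G0 (2 * a + 0 - 1))
      fun a _ => ?_) (nz_row G0_mono (S := 1 / 12) (fun x y => by linarith [(G0_bd x).2, (G0_bd y).1])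
      A 0)
    unfold hh
    split_ifs with h2
    · have h3 := nz_four (D := D) (a, 0)
      simp only [mul_zero, add_zero, ne_eq, OfNat.ofNat_ne_zero, not_false_eq_true, zero_pow] at h3
      have h4 : 8 ≤ (2 * a) ^ 2 := by
        rw [← h3]
        have : (2 : ℤ) ≤ ((RN2.nn D (RN2.el D (a, 0)) : ℕ) : ℤ) := by exact_mod_cast h2
        linarith
      have h5 : 4 ≤ |2 * a| := by
        by_contra hcon
        have h6 : |2 * a| ≤ 3 := by omega
        have h7 : |a| ≤ 1 := by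
          rw [abs_mul] at h6
          simp only [Nat.abs_ofNat] at h6
          omega
        have h8 : a ^ 2 ≤ 1 := by
          rw [← sq_abs]
          have := abs_nonneg a
          nlinarith
        nlinarith
      have h6 := G0_ge (2 * a) h5
      have h7 : (((RN2.nn D (RN2.el D (a, 0)) : ℕ) : ℝ) ^ 3)⁻¹ = 64 / ((2 * a : ℤ) : ℝ) ^ 6 := by
        have h8 : 4 * ((RN2.nn D (RN2.el D (a, 0)) : ℕ) : ℝ) = ((2 * a : ℤ) : ℝ) ^ 2 := by
          exact_mod_cast h3
        have h9 : ((RN2.nn D (RN2.el D (a, 0)) : ℕ) : ℝ) = ((2 * a : ℤ) : ℝ) ^ 2 / 4 := by linarith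
        rw [h9, div_pow, inv_div]
        congr 1
        · norm_num
        · ring
      rw [h7, add_zero]
      exact h6
    · exact sub_nonneg.2 (G0_mono (by omega))
  · refine le_trans (Finset.sum_le_sum (g := fun a => G1 (2 * a + D.a.t * b + 1) -
      G1 (2 * a + D.a.t * b - 1)) fun a _ => ?_) (nz_row G1_mono (S := 1 / 2)
      (fun x y => by linarith [(G1_bd x).2, (G1_bd y).1]) A (D.a.t * b))
    unfold hh
    split_ifs with h2
    · refine le_trans ?_ (G1_ge (2 * a + D.a.t * b))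
      have h3 := nz_ge (D := D) (a, b)
      simp only at h3
      have hb : (b : ℝ) ^ 2 = 1 := by
        rcases h1 with rfl | rfl <;> norm_num
      rw [hb, mul_one] at h3
      have h2' : (2 : ℝ) ≤ ((RN2.nn D (RN2.el D (a, b)) : ℕ) : ℝ) := by exact_mod_cast h2
      refine le_min ?_ ?_
      · rw [one_div]
        refine inv_anti₀ (by norm_num) ?_
        have := pow_le_pow_left₀ (by norm_num) h2' 3
        norm_num at this
        exact this
      · rw [← one_div, div_le_div_iff₀ (by positivity) (by positivity)]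
        have h5 := pow_le_pow_left₀ (by positivity) h3 3
        have h6 : (4 * ((RN2.nn D (RN2.el D (a, b)) : ℕ) : ℝ)) ^ 3 =
            64 * ((RN2.nn D (RN2.el D (a, b)) : ℕ) : ℝ) ^ 3 := by ring
        rw [h6] at h5
        linarith
    · exact sub_nonneg.2 (G1_mono (by omega))
  · push Not at h1
    have hb2 : (4 : ℝ) ≤ (b : ℝ) ^ 2 := by
      have h2 : 2 ≤ |b| := by
        rcases abs_cases b with ⟨e, _⟩ | ⟨e, _⟩ <;> omega
      have h3 : (4 : ℤ) ≤ b ^ 2 := by
        rw [← sq_abs]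
        nlinarith
      exact_mod_cast h3
    have hb4 : 0 < (b : ℝ) ^ 4 := by
      have : (b : ℝ) ^ 4 = (b : ℝ) ^ 2 * (b : ℝ) ^ 2 := by ring
      rw [this]
      nlinarith
    have hrow := nz_row G2_mono (S := 4 / 7) (fun x y => by linarith [(G2_bd x).2, (G2_bd y).1]) A
      (D.a.t * b)
    have e1 : 256 / 63 / (b : ℝ) ^ 4 = 64 / (9 * (b : ℝ) ^ 4) * (4 / 7) := by
      field_simp
      norm_num
    rw [e1]
    refine le_trans (Finset.sum_le_sum (g := fun a => 64 / (9 * (b : ℝ) ^ 4) *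
      (G2 (2 * a + D.a.t * b + 1) - G2 (2 * a + D.a.t * b - 1))) fun a _ => ?_) ?_
    · unfold hh
      split_ifs with h2
      · refine le_trans ?_ (mul_le_mul_of_nonneg_left (G2_ge (2 * a + D.a.t * b)) (by positivity))
        have h3 := nz_ge (D := D) (a, b)
        simp only at h3
        obtain ⟨c, hc⟩ : ∃ c : ℝ, c = ((2 * a + D.a.t * b : ℤ) : ℝ) := ⟨_, rfl⟩
        rw [← hc] at h3 ⊢
        have h2' : (2 : ℝ) ≤ ((RN2.nn D (RN2.el D (a, b)) : ℕ) : ℝ) := by exact_mod_cast h2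
        obtain ⟨ν, hν⟩ : ∃ ν : ℝ, ν = ((RN2.nn D (RN2.el D (a, b)) : ℕ) : ℝ) := ⟨_, rfl⟩
        rw [← hν] at h3 h2' ⊢
        have h5 := pow_le_pow_left₀ (by positivity) h3 3
        have h6 : (4 * ν) ^ 3 = 64 * ν ^ 3 := by ring
        rw [h6] at h5
        have h7 : 9 * (b : ℝ) ^ 4 * (c ^ 2 + 12) ≤ (c ^ 2 + 3 * (b : ℝ) ^ 2) ^ 3 := by
          have e2 : (c ^ 2 + 3 * (b : ℝ) ^ 2) ^ 3 = (c ^ 2 + 3 * (b : ℝ) ^ 2) ^ 2 *
            (c ^ 2 + 3 * (b : ℝ) ^ 2) := by ring
          rw [e2]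
          have e3 : 9 * (b : ℝ) ^ 4 ≤ (c ^ 2 + 3 * (b : ℝ) ^ 2) ^ 2 := by
            have : 9 * (b : ℝ) ^ 4 = (3 * (b : ℝ) ^ 2) ^ 2 := by ring
            rw [this]
            exact pow_le_pow_left₀ (by positivity) (by nlinarith [sq_nonneg c]) 2
          exact mul_le_mul e3 (by linarith) (by positivity) (by positivity)
        have h8 : 64 / (9 * (b : ℝ) ^ 4) * (1 / (c ^ 2 + 12)) = 64 / (9 * (b : ℝ) ^ 4 * (c ^ 2 + 12)) := by
          rw [div_mul_div_comm, mul_one]
        rw [h8, ← one_div, div_le_div_iff₀ (by positivity) (by positivity)]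
        linarith
      · exact mul_nonneg (by positivity) (sub_nonneg.2 (G2_mono (by omega)))
    · rw [← Finset.mul_sum]
      exact mul_le_mul_of_nonneg_left hrow (by positivity)

private def VV (b : ℤ) : ℝ := if b ≤ -1 then 16 / 21 / ((b : ℝ) * (b - 1)) else
  if b = 0 then 8 / 21 + 1 / 2 else if b = 1 then 8 / 21 + 7 / 12 else
    16 / 21 + 13 / 12 - 16 / 21 / ((b : ℝ) * (b - 1))

private theorem rr_le (b : ℤ) : rr b ≤ VV (b + 1) - VV b := by
  unfold rr
  rcases lt_or_ge b (-1) with h | h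
  · rw [if_neg (by omega), if_neg (by omega)]
    unfold VV
    rw [if_pos (by omega), if_pos (by omega)]
    push_cast
    have hx : (b : ℝ) ≤ -2 := by exact_mod_cast (by omega : b ≤ -2)
    have e1 : (b : ℝ) ≠ 0 := by linarith
    have e2 : (b : ℝ) - 1 ≠ 0 := by linarith
    have e3 : (b : ℝ) + 1 ≠ 0 := by linarith
    have e4 : 16 / 21 / (((b : ℝ) + 1) * ((b : ℝ) + 1 - 1)) - 16 / 21 / ((b : ℝ) * ((b : ℝ) - 1)) =
        32 / 21 / (-(b : ℝ) * ((b : ℝ) ^ 2 - 1)) := by
      have e5 : (b : ℝ) ^ 2 - 1 ≠ 0 := by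
        have : (b : ℝ) ^ 2 - 1 = (b + 1) * (b - 1) := by ring
        rw [this]
        exact mul_ne_zero e3 e2
      have e6 : (b : ℝ) + 1 - 1 = b := by ring
      rw [e6]
      field_simp
      ring
    rw [e4, div_le_div_iff₀ (by positivity) (by nlinarith)]
    have h1 : (b : ℝ) ^ 4 = (-(b : ℝ)) ^ 3 * (-(b : ℝ)) := by ring
    obtain ⟨y, hy⟩ : ∃ y : ℝ, y = -(b : ℝ) := ⟨_, rfl⟩
    have h2 : (b : ℝ) ^ 2 = y ^ 2 := by rw [hy]; ring
    rw [h1, h2, ← hy]
    have hy2 : 2 ≤ y := by linarith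
    have h3 : 8 * (y ^ 2 - 1) ≤ 3 * y ^ 3 := by nlinarith [mul_nonneg (sub_nonneg.2 hy2) (sub_nonneg.2 hy2), sq_nonneg (y - 2)]
    nlinarith [mul_le_mul_of_nonneg_right h3 (by linarith : (0 : ℝ) ≤ y)]
  rcases eq_or_lt_of_le h with h | h
  · rw [← h]
    unfold VV
    norm_num
  rcases eq_or_lt_of_le (by omega : 0 ≤ b) with h0 | h0
  · rw [← h0]
    unfold VV
    norm_num
  rcases eq_or_lt_of_le (by omega : 1 ≤ b) with h1 | h1
  · rw [← h1]
    unfold VV
    norm_num
  · rw [if_neg (by omega), if_neg (by omega)]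
    unfold VV
    rw [if_neg (by omega), if_neg (by omega), if_neg (by omega), if_neg (by omega), if_neg (by omega),
      if_neg (by omega)]
    push_cast
    have hx : (2 : ℝ) ≤ b := by exact_mod_cast (by omega : 2 ≤ b)
    have e1 : (b : ℝ) ≠ 0 := by linarith
    have e2 : (b : ℝ) - 1 ≠ 0 := by linarith
    have e3 : (b : ℝ) + 1 ≠ 0 := by linarith
    have e4 : 16 / 21 + 13 / 12 - 16 / 21 / (((b : ℝ) + 1) * ((b : ℝ) + 1 - 1)) -
        (16 / 21 + 13 / 12 - 16 / 21 / ((b : ℝ) * ((b : ℝ) - 1))) =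
        32 / 21 / ((b : ℝ) * ((b : ℝ) ^ 2 - 1)) := by
      have e5 : (b : ℝ) ^ 2 - 1 ≠ 0 := by
        have : (b : ℝ) ^ 2 - 1 = (b + 1) * (b - 1) := by ring
        rw [this]
        exact mul_ne_zero e3 e2
      have e6 : (b : ℝ) + 1 - 1 = b := by ring
      rw [e6]
      field_simp
      ring
    have h6 : (0 : ℝ) < (b : ℝ) * ((b : ℝ) ^ 2 - 1) := mul_pos (by linarith) (by nlinarith)
    rw [e4, div_le_div_iff₀ (by positivity) h6]
    obtain ⟨y, hy⟩ : ∃ y : ℝ, y = (b : ℝ) := ⟨_, rfl⟩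
    rw [← hy] at hx ⊢
    have h3 : 8 * (y ^ 2 - 1) ≤ 3 * y ^ 3 := by nlinarith [mul_nonneg (sub_nonneg.2 hx) (sub_nonneg.2 hx), sq_nonneg (y - 2)]
    nlinarith [mul_le_mul_of_nonneg_right h3 (by linarith : (0 : ℝ) ≤ y)]

private theorem rr_nonneg (b : ℤ) : 0 ≤ rr b := by
  unfold rr
  split_ifs
  · norm_num
  · norm_num
  · positivity

private theorem VV_mono : Monotone VV :=
  nz_mono fun b => by
    have := rr_le b
    have := rr_nonneg b
    linarith

private theorem VV_bd (b : ℤ) : 0 ≤ VV b ∧ VV b ≤ 16 / 21 + 13 / 12 := by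
  unfold VV
  split_ifs with h1 h2 h3
  · have hx : (b : ℝ) ≤ -1 := by exact_mod_cast h1
    have h4 : 2 ≤ (b : ℝ) * (b - 1) := by nlinarith
    constructor
    · positivity
    · have : 16 / 21 / ((b : ℝ) * (b - 1)) ≤ 16 / 21 / 2 :=
        div_le_div_of_nonneg_left (by norm_num) (by norm_num) h4
      linarith
  · constructor <;> norm_num
  · constructor <;> norm_num
  · have hx : (2 : ℝ) ≤ b := by exact_mod_cast (by omega : 2 ≤ b)
    have h4 : 2 ≤ (b : ℝ) * (b - 1) := by nlinarith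
    have h5 : 0 ≤ 16 / 21 / ((b : ℝ) * (b - 1)) := by positivity
    have : 16 / 21 / ((b : ℝ) * (b - 1)) ≤ 16 / 21 / 2 :=
      div_le_div_of_nonneg_left (by norm_num) (by norm_num) h4
    constructor <;> linarith

private theorem hh_sum (F : Finset (ℤ × ℤ)) : ∑ m ∈ F, hh (RN2.el D m) ≤ 19 / 10 := by
  classical
  have h1 : F ⊆ F.image Prod.fst ×ˢ F.image Prod.snd := by
    intro m hm
    rw [Finset.mem_product]
    exact ⟨Finset.mem_image_of_mem _ hm, Finset.mem_image_of_mem _ hm⟩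
  calc ∑ m ∈ F, hh (RN2.el D m)
      ≤ ∑ m ∈ F.image Prod.fst ×ˢ F.image Prod.snd, hh (RN2.el D m) :=
        Finset.sum_le_sum_of_subset_of_nonneg h1 fun _ _ _ => hh_nonneg _
    _ = ∑ b ∈ F.image Prod.snd, ∑ a ∈ F.image Prod.fst, hh (RN2.el D (a, b)) :=
        Finset.sum_product_right _ _ _
    _ ≤ ∑ b ∈ F.image Prod.snd, (VV (b + 1) - VV b) :=
        Finset.sum_le_sum fun b _ => (nz_one_row b _).trans (rr_le b)
    _ ≤ 16 / 21 + 13 / 12 :=
        nz_tel VV_mono (fun x y => by linarith [(VV_bd x).2, (VV_bd y).1]) _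
    _ ≤ 19 / 10 := by norm_num

private theorem hh_summ : Summable (hh (D := D)) ∧ ∑' x : D.O, hh x ≤ 19 / 10 := by
  have h1 : Summable fun m : ℤ × ℤ => hh (RN2.el D m) :=
    summable_of_sum_le (fun _ => hh_nonneg _) hh_sum
  have h2 : ∑' m : ℤ × ℤ, hh (RN2.el D m) ≤ 19 / 10 := h1.tsum_le_of_sum_le hh_sum
  have h3 : Summable (hh (D := D)) := (RN2.elE D).summable_iff.1 h1
  refine ⟨h3, ?_⟩
  rw [← (RN2.elE D).tsum_eq (hh (D := D))]
  exact h2

theorem E4_ne {a : D.O → ℂ} (ha : ∀ x, ‖a x‖ ≤ 1)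
    (hu : ∀ u : D.Oˣ, a (u : D.O) * (((u : D.O)) : ℂ) ^ 2 = 1) : E4 a ≠ 0 := by
  classical
  obtain ⟨hs, hle⟩ := hh_summ (D := D)
  obtain ⟨f, hf⟩ : ∃ f : D.O → ℂ, f = fun x : D.O => a x * (x : ℂ) ^ 2 /
    ((RN2.nn D x : ℕ) : ℂ) ^ 4 := ⟨_, rfl⟩
  have hone : ∀ x : D.O, RN2.nn D x = 1 → f x = 1 := by
    intro x hx
    obtain ⟨u, rfl⟩ := RN2.nn_eq_one.1 hx
    rw [hf]
    simp only
    rw [hx, Nat.cast_one, one_pow, div_one]
    exact hu u
  have hbd : ∀ x : D.O, RN2.nn D x ≠ 1 → ‖f x‖ ≤ hh x := by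
    intro x hx
    rcases Nat.lt_or_ge (RN2.nn D x) 2 with h | h
    · have h0 : RN2.nn D x = 0 := by omega
      have hx0 : x = 0 := RN2.nn_eq_zero.1 h0
      rw [hf]
      simp only
      rw [hx0]
      simp [hh_nonneg]
    · have hn : (0 : ℝ) < ((RN2.nn D x : ℕ) : ℝ) := by exact_mod_cast (by omega : 0 < RN2.nn D x)
      have h2 := RN2.nn_real D x
      rw [hf]
      simp only
      rw [norm_div, norm_mul, norm_pow, norm_pow, Complex.norm_natCast, ← h2]
      unfold hh
      rw [if_pos h, div_le_iff₀ (by positivity)]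
      have e : (((RN2.nn D x : ℕ) : ℝ) ^ 3)⁻¹ * ((RN2.nn D x : ℕ) : ℝ) ^ 4 =
          ((RN2.nn D x : ℕ) : ℝ) := by
        field_simp
      rw [e]
      exact mul_le_of_le_one_left hn.le (ha x)
  have hfin : {x : D.O | RN2.nn D x = 1}.Finite :=
    (RN2.nn_fin (D := D) 1).subset fun x hx => by
      have : RN2.nn D x = 1 := hx
      show RN2.nn D x ≤ 1
      omega
  -- summability
  have hsf : Summable f := by
    have h1 : Summable fun x : D.O => ‖f x‖ := by
      have h2 : Summable fun x : D.O => hh x + (hfin.toFinset : Set D.O).indicator (fun _ => (1 : ℝ)) x :=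
        hs.add (summable_of_hasFiniteSupport (by
          refine Set.Finite.subset hfin.toFinset.finite_toSet ?_
          intro x hx
          by_contra hcon
          exact hx (Set.indicator_of_notMem hcon _)))
      refine Summable.of_nonneg_of_le (fun _ => norm_nonneg _) (fun x => ?_) h2
      by_cases hx : RN2.nn D x = 1
      · rw [hone x hx, norm_one, Set.indicator_of_mem (by simpa using hx)]
        linarith [hh_nonneg x]
      · refine (hbd x hx).trans ?_
        have : 0 ≤ (hfin.toFinset : Set D.O).indicator (fun _ => (1 : ℝ)) x :=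
          Set.indicator_nonneg (fun _ _ => zero_le_one) _
        linarith
    exact h1.of_norm
  have hre : (E4 a).re = ∑' x : D.O, (f x).re := by
    have e : E4 a = ∑' x : D.O, f x := by rw [hf]; rfl
    rw [e]
    exact Complex.re_tsum hsf
  have hsre : Summable fun x : D.O => (f x).re := (Complex.hasSum_re hsf.hasSum).summable
  intro h0
  rw [h0, Complex.zero_re] at hre
  -- lower bound
  have hne : (1 : D.O) ≠ -1 := by
    intro h
    have h1 : ((1 : D.O) : ℂ) = ((-1 : D.O) : ℂ) := congrArg _ h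
    have h2 : (1 : ℂ) = -1 := by simpa using h1
    have h3 := congrArg Complex.re h2
    norm_num at h3
  have h1 : RN2.nn D (1 : D.O) = 1 := RN2.nn_eq_one.2 isUnit_one
  have h2 : RN2.nn D (-1 : D.O) = 1 := RN2.nn_eq_one.2 isUnit_one.neg
  have hg : ∀ x : D.O, (if x = 1 then (1 : ℝ) else 0) + (if x = -1 then (1 : ℝ) else 0) - hh x ≤
      (f x).re := by
    intro x
    by_cases hx : RN2.nn D x = 1
    · rw [hone x hx, Complex.one_re]
      have h3 := hh_nonneg x
      by_cases hx1 : x = 1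
      · have hx2 : ¬ x = -1 := fun h => hne (hx1.symm.trans h)
        rw [if_pos hx1, if_neg hx2]
        linarith
      · rw [if_neg hx1]
        split_ifs <;> linarith
    · have h3 := hbd x hx
      have h4 : x ≠ 1 := fun h => hx (by rw [h, h1])
      have h5 : x ≠ -1 := fun h => hx (by rw [h, h2])
      rw [if_neg h4, if_neg h5]
      have h6 := Complex.abs_re_le_norm (f x)
      have h7 := neg_abs_le (f x).re
      linarith
  have s1 : HasSum (fun x : D.O => if x = 1 then (1 : ℝ) else 0) 1 := hasSum_ite_eq 1 1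
  have s2 : HasSum (fun x : D.O => if x = -1 then (1 : ℝ) else 0) 1 := hasSum_ite_eq (-1) 1
  have s3 := (s1.add s2).sub hs.hasSum
  have h3 := hasSum_le hg s3 hsre.hasSum
  rw [← hre] at h3
  linarith

end

end RNE
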