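import Pool.Agent.RNE.Hc
import Pool.Agent.RNE.Hv
import Pool.Agent.RNE.Hl
import Pool.Agent.RNE.Nz
import Pool.Agent.RNE.Lf

/-!
# RNE.Ex: a closed element whose `η`-part has a nonzero regulator

`lv_ex`, `W = Ww D m c`, `Ww_CWt`, `CWt_tw`, `closed_t` give the closedness of all `W_x`. Support: `Ww_CWt.supp`, `anti`.
Value: `sum_TT η`, then `FTc_Ww` (for `χ = η.br`), `TT_FH` (`h = hh η.br c S`, `h_adm`, `h_s`, `h_n`, `h_u`, `h_zero`; `α = al`,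
`β = be`, `al_be`, `al_ne`, `be_ne`), `KG_val` (`β` is not real: `Im β = m Im ω > 0`), `h_ls`: `TT = k La χ`, `k ≠ 0`; `val_L`: the sum
is `(2 π)³ ρ₀ conj(k) deriv L (-1)`. `deriv L (-1) ≠ 0`: `hd`, `Hc.tau_ne`, `E4_ne` (`Hc.bdd`, `η.unit`), `m, Im ω, π ≠ 0`.
`Rs D N` is nonempty: `RN2.chars`.
-/

open RNK MeasureTheory

namespace RNE

noncomputable section

variable {D : RNK.OD} {m : ℕ} [NeZero m]

theorem dL_ne (η : Hc D m) {L : ℂ → ℂ}
    (hd : deriv L (-1) = -(6 * RN2.du m η.f 1 * ((m * (UNI.om D.a).im / Real.pi) ^ 5 : ℝ)) *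
      E4 η.f) : deriv L (-1) ≠ 0 := by
  have hm : (0 : ℝ) < m := Nat.cast_pos.2 (Nat.pos_of_ne_zero (NeZero.ne m))
  have hy := UNI.om_im_pos D.a
  have hx : 0 < m * (UNI.om D.a).im / Real.pi := div_pos (mul_pos hm hy) Real.pi_pos
  rw [hd]
  refine mul_ne_zero (neg_ne_zero.2 (mul_ne_zero (mul_ne_zero (by norm_num) η.tau_ne) ?_))
    (E4_ne η.bdd η.unit)
  rw [Complex.ofReal_ne_zero]
  exact (pow_pos hx 5).ne'

theorem exists_ne (η : Hc D m) {L : ℂ → ℂ}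
    (hd : deriv L (-1) = -(6 * RN2.du m η.f 1 * ((m * (UNI.om D.a).im / Real.pi) ^ 5 : ℝ)) *
      E4 η.f) :
    ∃ (N : ℕ) (_ : NeZero N), Even N ∧ m ∣ N ∧ ∃ W : UNL.G N → UNL.G N → ℤ,
      (∀ k l, W k l ≠ 0 → (N / 2) • k = 0 ∧ (N / 2) • l = 0) ∧
      (∀ x : D.O, RN2.Cp N x → ∀ Φ : (Additive (UNL.Gn (toU D.a) N → ℂˣ)) [⋀^Fin 4]→ₗ[ℤ] ℂ,
        UNL.bdry (toU D.a) (fun k l => W (RN2.ac x k) (RN2.ac x l)) Φ = 0) ∧
      ∀ S : RN2.Rs D N, ∑ d ∈ S.s, η.f d * ∫ q : UNL.E × UNL.E,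
        UNL.Gen.XReg (toU D.a) (fun k l => W (RN2.ac d k) (RN2.ac d l))
          (UNL.cu (toU D.a) q.1) (UNL.cu (toU D.a) q.2) ≠ 0 := by
  have hm : 0 < m := Nat.pos_of_ne_zero (NeZero.ne m)
  obtain ⟨c, N, hN0, hN, hmN, hl⟩ := lv_ex D hm
  have inst : NeZero N := ⟨hN0.ne'⟩
  have hW : CWt (toU D.a) N (Ww D m c) := Ww_CWt hl
  refine ⟨N, inst, hN, hmN, Ww D m c, fun k l h => ⟨hW.supp k l h, hW.supp l k ?_⟩,
    fun x hx Φ => closed_t hN (CWt_tw hW hx) Φ, fun S => ?_⟩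
  · rw [hW.anti k l]
    exact neg_ne_zero.2 h
  · have hα : ((al D m : D.O) : ℂ) ∈ D.K := O_sub_K (al D m).2
    have hβ : ((be D m : D.O) : ℂ) ∈ D.K := O_sub_K (be D m).2
    have ha : ((al D m : D.O) : ℂ) ≠ 0 := fun h => al_ne D hm (Subtype.ext h)
    have hb : ((be D m : D.O) : ℂ) ≠ 0 := fun h => be_ne D hm (Subtype.ext h)
    have hab : ((al D m : D.O) : ℂ) + ((be D m : D.O) : ℂ) = 1 := by
      have h := congrArg (fun x : D.O => (x : ℂ)) (al_be D m)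
      simpa using h
    obtain ⟨κ, hκ, hκ'⟩ := h_ls η.br hl hmN S
    obtain ⟨ρ₀, -, h0, h1⟩ := val_L (N := N) η hd
    have hF : (FTc D (pw η.br S fun k l => (Ww D m c k l : ℂ))) = fun w =>
        FH (al D m : ℂ) (be D m : ℂ) (hh η.br c S) w -
          FH (al D m : ℂ) (be D m : ℂ) (hh η.br c S) (w.2, w.1) := by
      funext w
      exact FTc_Ww η.br hl S w
    rw [sum_TT η hN S hW.ev hW.anti hW.row hW.supp, hF,
      TT_FH (h_adm η.br hl hmN S) (h_s η.br S) (h_n η.br S) (h_u η.br S) hα hβ ha hb hab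
        (h_zero η.br hl S), hκ', KG_val ha hb hab]
    obtain ⟨k, hk⟩ : ∃ k : ℂ, k = 2 * (((al D m : ℂ) * (be D m : ℂ))⁻¹) ^ 2 *
        (6 * ((starRingEnd ℂ) (be D m : ℂ) - (be D m : ℂ)) /
          ((be D m : ℂ) * (starRingEnd ℂ) (be D m : ℂ) *
            ((al D m : ℂ) * (starRingEnd ℂ) (al D m : ℂ)))) * κ := ⟨_, rfl⟩
    have hca : (starRingEnd ℂ) ((al D m : D.O) : ℂ) ≠ 0 := (map_ne_zero _).2 ha
    have hcb : (starRingEnd ℂ) ((be D m : D.O) : ℂ) ≠ 0 := (map_ne_zero _).2 hb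
    have him : (starRingEnd ℂ) ((be D m : D.O) : ℂ) - ((be D m : D.O) : ℂ) ≠ 0 := by
      intro h
      have h2 := congrArg Complex.im h
      have h3 : ((be D m : D.O) : ℂ).im = m * (UNI.om D.a).im := by
        show (UNI.xx D.a (0, (m : ℤ))).im = _
        simp [UNI.xx]
      rw [Complex.sub_im, Complex.conj_im, h3, Complex.zero_im] at h2
      have h4 : (0 : ℝ) < m * (UNI.om D.a).im :=
        mul_pos (Nat.cast_pos.2 hm) (UNI.om_im_pos D.a)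
      linarith
    have hk0 : k ≠ 0 := by
      rw [hk]
      refine mul_ne_zero (mul_ne_zero (mul_ne_zero two_ne_zero
        (pow_ne_zero _ (inv_ne_zero (mul_ne_zero ha hb)))) ?_) hκ
      exact div_ne_zero (mul_ne_zero (by norm_num) him)
        (mul_ne_zero (mul_ne_zero hb hcb) (mul_ne_zero ha hca))
    have hk1 : 2 * (((al D m : ℂ) * (be D m : ℂ))⁻¹) ^ 2 *
        (6 * ((starRingEnd ℂ) (be D m : ℂ) - (be D m : ℂ)) /
          ((be D m : ℂ) * (starRingEnd ℂ) (be D m : ℂ) *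
            ((al D m : ℂ) * (starRingEnd ℂ) (al D m : ℂ)))) * (κ * La η.br.f) =
        k * La η.br.f := by
      rw [hk]
      ring
    rw [hk1, h1 k]
    refine mul_ne_zero (mul_ne_zero (pow_ne_zero _ (mul_ne_zero two_ne_zero
      (by exact_mod_cast Real.pi_ne_zero))) (mul_ne_zero h0 ((map_ne_zero _).2 hk0))) (dL_ne η hd)

end

end RNE
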