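import Pool.Agent.RNE.Wf
import Pool.Agent.RNE.Wd
import Pool.Agent.RN2.Fin

/-!
# RNE.Fin: the `η`-part of the regulator integrals of all closed elements (stub; prove ALL sorries)

* `syW_tw`: `syW (W_d) = (syW W)_d` for `d` prime to `N`, `W_d(k,l) = W(d k, d l)`: `k ↦ d k` is a bijection fixing `0` and
  commuting with `-` (see `RN2/Sy`, `sy_inv`).
* `int_all`: let `V = syW W`: even, antisymmetric, row sums `0`, support (`RN2/Sy`: `sy_even`, `sy_anti`, `sy_row`,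
  `sy_supp`), all `V_x = syW (W_x)` closed (`sy_closed`); so `CWt` (`CWt_of_closed`), `int_chi` for `V`, and
  `∫ XReg (V_d) = 8 ∫ XReg (W_d)` (`reg_sy`, `RN2/Sr`). Integrability: `reg_int`.
-/

open RNK MeasureTheory

namespace RNE

noncomputable section

variable {D : RNK.OD} {m : ℕ} [NeZero m] {N : ℕ} [NeZero N]

omit [NeZero m] in
/-- symmetrisation commutes with bijections which fix `0` and commute with `-` -/
private theorem Fin_sy {Γ : Type*} [AddCommGroup Γ] [Fintype Γ] (W : Γ → Γ → ℤ) {f g : Γ → Γ}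
    (h1 : ∀ x, f (g x) = x) (h2 : ∀ x, g (f x) = x) (hf : f 0 = 0) (hg : g 0 = 0)
    (hn : ∀ x, f (-x) = -f x) (k l : Γ) :
    RN2.syW (fun k l => W (f k) (f l)) k l = RN2.syW W (f k) (f l) := by
  classical
  have h0 : ∀ x : Γ, f x = 0 ↔ x = 0 := by
    intro x
    constructor
    · intro hx
      rw [← h2 x, hx, hg]
    · rintro rfl
      exact hf
  have hA : ∀ j x : Γ, RN2.syA (fun k l => W (f k) (f l)) j x = RN2.syA W (f j) (f x) := by
    intro j x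
    simp only [RN2.syA, hn]
  have hs : ∀ φ : Γ → ℤ, ∑ j ∈ Finset.univ.erase (0 : Γ), φ (f j) =
      ∑ j ∈ Finset.univ.erase (0 : Γ), φ j := by
    intro φ
    refine Finset.sum_nbij' f g ?_ ?_ ?_ ?_ ?_
    · intro x hx
      exact Finset.mem_erase.2 ⟨fun hc => Finset.ne_of_mem_erase hx ((h0 x).1 hc), Finset.mem_univ _⟩
    · intro x hx
      refine Finset.mem_erase.2 ⟨fun hc => Finset.ne_of_mem_erase hx ?_, Finset.mem_univ _⟩
      rw [← h1 x, hc, hf]
    · intro x _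
      exact h2 x
    · intro x _
      exact h1 x
    · intro x _
      rfl
  unfold RN2.syW
  by_cases hk : k = 0
  · by_cases hl : l = 0
    · rw [if_pos hk, if_pos hl, if_pos ((h0 k).2 hk), if_pos ((h0 l).2 hl)]
    · rw [if_pos hk, if_neg hl, if_pos ((h0 k).2 hk), if_neg (fun hc => hl ((h0 l).1 hc)),
        ← hs (fun j => RN2.syA W j (f l))]
      simp only [hA]
  · by_cases hl : l = 0
    · rw [if_neg hk, if_pos hl, if_neg (fun hc => hk ((h0 k).1 hc)), if_pos ((h0 l).2 hl),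
        ← hs (fun j => RN2.syA W (f k) j)]
      simp only [hA]
    · rw [if_neg hk, if_neg hl, if_neg (fun hc => hk ((h0 k).1 hc)),
        if_neg (fun hc => hl ((h0 l).1 hc))]
      exact hA k l

omit [NeZero m] in
theorem syW_tw (W : UNL.G N → UNL.G N → ℤ) {d : D.O} (hd : RN2.Cp N d) (k l : UNL.G N) :
    RN2.syW (fun k l => W (RN2.ac d k) (RN2.ac d l)) k l =
      RN2.syW W (RN2.ac d k) (RN2.ac d l) := by
  obtain ⟨y, -, hy⟩ := RN2.Cp_inv (N := N) hd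
  exact Fin_sy W (f := fun x => RN2.ac d x) (g := fun x => RN2.ac y x) (fun x => (hy x).2)
    (fun x => (hy x).1) (RN2.ac_zero d) (RN2.ac_zero y) (fun x => RN2.ac_negk d x) k l

theorem int_all (η : Hc D m) (hN : Even N) (hm : m ∣ N) (S : RN2.Rs D N)
    {W : UNL.G N → UNL.G N → ℤ}
    (hsupp : ∀ k l, k ≠ 0 → l ≠ 0 → W k l ≠ 0 → (N / 2) • k = 0 ∧ (N / 2) • l = 0)
    (hcl : ∀ x : D.O, RN2.Cp N x → ∀ Φ : (Additive (UNL.Gn (toU D.a) N → ℂˣ)) [⋀^Fin 4]→ₗ[ℤ] ℂ,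
      UNL.bdry (toU D.a) (fun k l => W (RN2.ac x k) (RN2.ac x l)) Φ = 0) {L : ℂ → ℂ}
    (hd : deriv L (-1) = -(6 * RN2.du m η.f 1 * ((m * (UNI.om D.a).im / Real.pi) ^ 5 : ℝ)) *
      E4 η.f) :
    ∃ ρ ∈ D.K, ∑ d ∈ S.s, η.f d * ∫ q : UNL.E × UNL.E,
      UNL.Gen.XReg (toU D.a) (fun k l => W (RN2.ac d k) (RN2.ac d l))
        (UNL.cu (toU D.a) q.1) (UNL.cu (toU D.a) q.2) =
      (2 * Real.pi) ^ 3 * ρ * deriv L (-1) := by
  have htw : ∀ d : D.O, RN2.Cp N d → (fun k l => RN2.syW W (RN2.ac d k) (RN2.ac d l)) =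
      RN2.syW (fun k l => W (RN2.ac d k) (RN2.ac d l)) := by
    intro d hd
    funext k l
    exact (syW_tw W hd k l).symm
  have hW : CWt (toU D.a) N (RN2.syW W) :=
    CWt_of_closed hN (RN2.sy_even W) (RN2.sy_anti W) (RN2.sy_row W) (RN2.sy_supp hsupp)
      (fun x hx Φ => by
        rw [htw x hx]
        exact RN2.sy_closed (hcl x hx) Φ)
  obtain ⟨ρ, hρ, h⟩ := int_chi η hN hm S hW hd
  refine ⟨ρ / 8, D.K.div_mem hρ (O_sub_K (by simp)), ?_⟩
  have h2 : ∑ d ∈ S.s, η.f d * ∫ q : UNL.E × UNL.E,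
      UNL.Gen.XReg (toU D.a) (fun k l => RN2.syW W (RN2.ac d k) (RN2.ac d l))
        (UNL.cu (toU D.a) q.1) (UNL.cu (toU D.a) q.2) =
      8 * ∑ d ∈ S.s, η.f d * ∫ q : UNL.E × UNL.E,
      UNL.Gen.XReg (toU D.a) (fun k l => W (RN2.ac d k) (RN2.ac d l))
        (UNL.cu (toU D.a) q.1) (UNL.cu (toU D.a) q.2) := by
    rw [Finset.mul_sum]
    refine Finset.sum_congr rfl fun d hds => ?_
    rw [htw d (S.cp d hds), RN2.reg_sy]
    ring
  rw [h2] at h
  linear_combination (1 / 8 : ℂ) * h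

end

end RNE
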