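import Pool.Agent.RNE.Defs

/-!
# RNE.Gs: the characters and their Gauss sums

`χ : Hc D m`. `Cp m x` means `x` prime to `m`, `nn D x = x x̄`.
* `norm`: some power of `x` is `1` mod `m`.
* `cjf`: if `x` is prime to `m` then `x x̄ = nn D x` is an integer prime to `m`, so `χ(x) χ(x̄) = 1` (`int`),
  and `|χ(x)| = 1`.
* `du_mul`: the sum `F(x) = Σ_k χ(rp k) ψ(x tp k)` satisfies `F(x) = χ(y) F(x y)` for `y` prime to `m`.
* `tau_K`: mean over the integers prime to `m`, Ramanujan sums are rational.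
* `tau_real`: the substitution `r ↦ r̄`.
* `tau_ne`: Fourier inversion.
-/

open RNK

namespace RNE

noncomputable section

variable {D : OD} {m : ℕ} [NeZero m] (χ : Hc D m)

/-! ### conjugation -/

private theorem gs_cj_mul (x y : D.O) : cj (x * y) = cj x * cj y :=
  Subtype.ext (map_mul (starRingEnd ℂ) (x : ℂ) (y : ℂ))

private theorem gs_cj_add (x y : D.O) : cj (x + y) = cj x + cj y :=
  Subtype.ext (map_add (starRingEnd ℂ) (x : ℂ) (y : ℂ))

private theorem gs_cj_cj (x : D.O) : cj (cj x) = x :=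
  Subtype.ext (Complex.conj_conj (x : ℂ))

private theorem gs_cj_one : cj (1 : D.O) = 1 :=
  Subtype.ext (map_one (starRingEnd ℂ))

private theorem gs_cj_nat (n : ℕ) : cj ((n : ℕ) : D.O) = n := by
  apply Subtype.ext
  show (starRingEnd ℂ) (((n : ℕ) : D.O) : ℂ) = (((n : ℕ) : D.O) : ℂ)
  simp

private theorem gs_mul_cj (x : D.O) : x * cj x = ((RN2.nn D x : ℤ) : D.O) := by
  apply Subtype.ext
  show (x : ℂ) * (starRingEnd ℂ) (x : ℂ) = _
  rw [RN2.nn_mul_cj]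
  simp

private theorem gs_nn_cj (x : D.O) : RN2.nn D (cj x) = RN2.nn D x := by
  have h1 := RN2.nn_real D x
  have h2 := RN2.nn_real D (cj x)
  have h3 : ‖((cj x : D.O) : ℂ)‖ = ‖(x : ℂ)‖ := Complex.norm_conj (x : ℂ)
  rw [h3, ← h1] at h2
  exact_mod_cast h2

/-! ### the characters -/

omit [NeZero m] in
private theorem gs_inv {x : D.O} (hx : RN2.Cp m x) : ∃ a : D.O, χ.f a * χ.f x = 1 := by
  obtain ⟨a, b, h⟩ := hx
  refine ⟨a, ?_⟩
  have h1 : a * x = 1 + (m : D.O) * (-b) := by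
    rw [← h]
    ring
  rw [← χ.mul, h1, χ.per, χ.one]

omit [NeZero m] in
private theorem gs_ne {x : D.O} (hx : RN2.Cp m x) : χ.f x ≠ 0 := by
  obtain ⟨a, h⟩ := gs_inv χ hx
  exact right_ne_zero_of_mul_eq_one h

omit [NeZero m] in
private theorem gs_pow (x : D.O) (n : ℕ) : χ.f (x ^ n) = χ.f x ^ n := by
  induction n with
  | zero => rw [pow_zero, pow_zero, χ.one]
  | succ n ih => rw [pow_succ, χ.mul, ih, pow_succ]

theorem Hc.norm {x : D.O} (hx : RN2.Cp m x) : ‖χ.f x‖ = 1 := by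
  have hni : ¬ Function.Injective (fun n : ℕ => RN2.cls m (x ^ n)) := by
    intro h
    exact not_injective_infinite_finite _ h
  rw [Function.Injective] at hni
  push Not at hni
  obtain ⟨i, j, hij, hne⟩ := hni
  have key : ∀ i j : ℕ, RN2.cls m (x ^ i) = RN2.cls m (x ^ j) → i < j → ‖χ.f x‖ = 1 := by
    intro i j hij hlt
    obtain ⟨z, hz⟩ := RN2.cls_eq.1 hij
    have h1 : χ.f x ^ i = χ.f x ^ j := by
      rw [← gs_pow, ← gs_pow, hz, χ.per]
    have h2 : χ.f x ^ i * χ.f x ^ (j - i) = χ.f x ^ i * 1 := by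
      rw [← pow_add, mul_one, h1]
      congr 1
      omega
    have h3 := mul_left_cancel₀ (pow_ne_zero i (gs_ne χ hx)) h2
    exact Complex.norm_eq_one_of_pow_eq_one h3 (by omega)
  rcases lt_or_gt_of_ne hne with h | h
  · exact key i j hij h
  · exact key j i hij.symm h

omit [NeZero m] in
theorem Cp_cj {x : D.O} : RN2.Cp m (cj x) ↔ RN2.Cp m x := by
  have key : ∀ x : D.O, RN2.Cp m x → RN2.Cp m (cj x) := by
    rintro x ⟨a, b, h⟩
    refine ⟨cj a, cj b, ?_⟩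
    rw [← gs_cj_mul]
    have h1 : cj b * (m : D.O) = cj (b * (m : D.O)) := by
      rw [gs_cj_mul, gs_cj_nat]
    rw [h1, ← gs_cj_add, h, gs_cj_one]
  constructor
  · intro h
    have := key _ h
    rwa [gs_cj_cj] at this
  · exact key x

private theorem gs_conj_mul {x : D.O} (hx : RN2.Cp m x) : (starRingEnd ℂ) (χ.f x) * χ.f x = 1 := by
  rw [mul_comm, Complex.mul_conj, Complex.normSq_eq_norm_sq, χ.norm hx]
  simp

theorem Hc.cjf (x : D.O) : χ.f (cj x) = (starRingEnd ℂ) (χ.f x) := by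
  by_cases hx : RN2.Cp m x
  · have hx' : RN2.Cp m (cj x) := Cp_cj.2 hx
    have h1 : RN2.Cp m (((RN2.nn D x : ℤ)) : D.O) := by
      rw [← gs_mul_cj]
      exact RN2.Cp_mul.2 ⟨hx, hx'⟩
    have h2 : χ.f x * χ.f (cj x) = 1 := by
      rw [← χ.mul, gs_mul_cj, χ.int _ h1]
    have h3 := gs_conj_mul χ hx
    have h4 : χ.f x * χ.f (cj x) = χ.f x * (starRingEnd ℂ) (χ.f x) := by
      rw [h2, ← h3, mul_comm]
    exact mul_left_cancel₀ (gs_ne χ hx) h4
  · rw [χ.zr _ hx, χ.zr _ (fun h => hx (Cp_cj.1 h)), map_zero]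

theorem Hc.neg (x : D.O) : χ.f (-x) = χ.f x := by
  have h1 := χ.unit (-1)
  have h2 : χ.f (-1) = 1 := by
    have h3 : (((-1 : D.Oˣ) : D.O)) = -1 := by simp
    rw [h3] at h1
    have h4 : ((-1 : D.O) : ℂ) = -1 := by simp
    rw [h4] at h1
    simpa using h1
  have h5 : -x = (-1) * x := by ring
  rw [h5, χ.mul, h2, one_mul]

open Classical in
theorem Hc.bar (x : D.O) : (starRingEnd ℂ) (χ.f x) * χ.f x = if RN2.Cp m x then 1 else 0 := by
  by_cases hx : RN2.Cp m x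
  · rw [if_pos hx, gs_conj_mul χ hx]
  · rw [if_neg hx, χ.zr _ hx, mul_zero]

theorem Hc.bdd (x : D.O) : ‖χ.f x‖ ≤ 1 := by
  by_cases hx : RN2.Cp m x
  · exact (χ.norm hx).le
  · rw [χ.zr _ hx, norm_zero]
    exact zero_le_one

theorem Hc.pe : RN2.Pe m χ.f := χ.per

/-! ### the Gauss sum -/

/-- `y rp k` is `rp (ac y k)` mod `m` -/
private theorem gs_rp (y : D.O) (k : UNL.G m) :
    ∃ z : D.O, y * RN2.rp D k = RN2.rp D (RN2.ac y k) + (m : D.O) * z := by
  have h := tp_sm (D := D) (RN2.cod D y) k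
  rw [de_toU, RN2.xx_cod] at h
  have hm : (m : ℂ) ≠ 0 := Nat.cast_ne_zero.2 (NeZero.ne m)
  have e : UNL.tp (toU D.a) (UNL.sm (toU D.a) (RN2.cod D y) k) =
      ((RN2.rp D (RN2.ac y k) : D.O) : ℂ) / m := RN2.tp_rp _
  rw [e, RN2.tp_rp] at h
  refine ⟨⟨_, h⟩, Subtype.ext ?_⟩
  simp only [Subring.coe_add, Subring.coe_mul, Subring.coe_natCast]
  field_simp
  ring

private theorem gs_f_rp (y : D.O) (k : UNL.G m) :
    χ.f (RN2.rp D (RN2.ac y k)) = χ.f y * χ.f (RN2.rp D k) := by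
  obtain ⟨z, hz⟩ := gs_rp (m := m) y k
  rw [← χ.mul, hz, χ.per]

/-- the sum without the factor -/
private def gsF (x : D.O) : ℂ :=
  ∑ k : UNL.G m, χ.f (RN2.rp D k) * RN2.pss D ((x : ℂ) * UNL.tp (toU D.a) k)

private theorem gs_F (x : D.O) : RN2.du m χ.f x = 1 / (m : ℂ) * gsF χ x := rfl

private theorem gs_F_mul (x : D.O) {y : D.O} (hy : RN2.Cp m y) :
    gsF χ x = χ.f y * gsF χ (x * y) := by
  obtain ⟨y', -, hy'⟩ := RN2.Cp_inv hy
  let e : UNL.G m ≃ UNL.G m :=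
    { toFun := RN2.ac y
      invFun := RN2.ac y'
      left_inv := fun k => (hy' k).1
      right_inv := fun k => (hy' k).2 }
  unfold gsF
  rw [← e.sum_comp, Finset.mul_sum]
  refine Finset.sum_congr rfl fun k _ => ?_
  show χ.f (RN2.rp D (RN2.ac y k)) * RN2.pss D ((x : ℂ) * UNL.tp (toU D.a) (RN2.ac y k)) = _
  rw [gs_f_rp, RN2.pss_ac, mul_assoc]
  rfl

private theorem gs_F_per (x z : D.O) : gsF χ (x + (m : D.O) * z) = gsF χ x := by
  unfold gsF
  refine Finset.sum_congr rfl fun k _ => ?_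
  congr 1
  have e : ((x + (m : D.O) * z : D.O) : ℂ) * UNL.tp (toU D.a) k =
      (x : ℂ) * UNL.tp (toU D.a) k + (z : ℂ) * ((m : ℂ) * UNL.tp (toU D.a) k) := by
    simp only [Subring.coe_add, Subring.coe_mul, Subring.coe_natCast]
    ring
  rw [e, RN2.pss_add, RN2.pss_O (D.O.mul_mem z.2 (tp_N k)), mul_one]

private theorem gs_F1 (x : D.O) : gsF χ x = (starRingEnd ℂ) (χ.f x) * gsF χ 1 := by
  by_cases hx : RN2.Cp m x
  · rw [gs_F_mul χ 1 hx, one_mul, ← mul_assoc, gs_conj_mul χ hx, one_mul]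
  · rw [χ.zr _ hx, map_zero, zero_mul]
    obtain ⟨u, hu, v, hv, ⟨x', hx', e1⟩, ⟨y', hy', e2⟩⟩ := D.bez x x.2 (m : ℂ) (natCast_mem _ m)
    set q : D.O := ⟨u, hu⟩ * x + ⟨v, hv⟩ * (m : D.O) with hq
    have hqc : (q : ℂ) = u * x + v * m := by
      rw [hq]
      simp only [Subring.coe_add, Subring.coe_mul, Subring.coe_natCast]
    have e1' : x = q * ⟨x', hx'⟩ := Subtype.ext (by rw [Subring.coe_mul, hqc]; exact e1)
    have e2' : q * ⟨y', hy'⟩ = (m : D.O) :=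
      Subtype.ext (by rw [Subring.coe_mul, hqc, Subring.coe_natCast]; exact e2.symm)
    have hnu : ¬ IsUnit q := by
      intro h
      obtain ⟨w, hw⟩ := h.exists_left_inv
      apply hx
      refine ⟨w * ⟨u, hu⟩, w * ⟨v, hv⟩, ?_⟩
      rw [← hw, hq]
      ring
    obtain ⟨y, hy1, hy2⟩ := χ.prim q ⟨y', hy'⟩ e2' hnu
    have h1 := gs_F_mul χ x hy1
    have h2 : x * (1 + ⟨y', hy'⟩ * y) = x + (m : D.O) * (⟨x', hx'⟩ * y) := by
      rw [← e2']
      linear_combination (⟨y', hy'⟩ * y : D.O) * e1'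
    rw [h2, gs_F_per] at h1
    have h3 : (χ.f (1 + ⟨y', hy'⟩ * y) - 1) * gsF χ x = 0 := by
      rw [sub_mul, ← h1, one_mul, sub_self]
    exact (mul_eq_zero.1 h3).resolve_left (sub_ne_zero.2 hy2)

theorem Hc.du_mul (x : D.O) :
    RN2.du m χ.f x = (starRingEnd ℂ) (χ.f x) * RN2.du m χ.f 1 := by
  rw [gs_F, gs_F, gs_F1 χ x]
  ring

/-! ### the Gauss sum is in `K` -/

private theorem gs_gal {N : ℕ} [NeZero N] {w : ℂ} (hw : w ^ N = 1) :
    ∃ r : ℚ, ∑ u : (ZMod N)ˣ, w ^ (u : ZMod N).val = r := by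
  let K := CyclotomicField N ℚ
  have hne : NeZero ((N : ℕ) : ℚ) := ⟨by exact_mod_cast NeZero.ne N⟩
  have hcyc : IsCyclotomicExtension {N} ℚ K := CyclotomicField.isCyclotomicExtension N ℚ
  have hfd : FiniteDimensional ℚ K := IsCyclotomicExtension.finiteDimensional {N} ℚ K
  have φ : K →ₐ[ℚ] ℂ := IsAlgClosed.lift
  have hN : 0 < N := Nat.pos_of_ne_zero (NeZero.ne N)
  have hζ : IsPrimitiveRoot (IsCyclotomicExtension.zeta N ℚ K) N :=
    IsCyclotomicExtension.zeta_spec N ℚ K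
  set ζ := IsCyclotomicExtension.zeta N ℚ K with hζd
  have h1 : IsPrimitiveRoot (φ ζ) N := hζ.map_of_injective φ.injective
  obtain ⟨t, -, ht⟩ := h1.eq_pow_of_pow_eq_one hw
  let x : K := ∑ u : (ZMod N)ˣ, (ζ ^ t) ^ (u : ZMod N).val
  have hG : IsGalois ℚ K := IsCyclotomicExtension.isGalois {N} ℚ K
  have hx : ∀ σ : K ≃ₐ[ℚ] K, σ x = x := by
    intro σ
    have hs := hζ.autToPow_spec ℚ σ
    set v := hζ.autToPow ℚ σ with hv
    have h2 : σ x = ∑ u : (ZMod N)ˣ, (ζ ^ t) ^ ((v * u : (ZMod N)ˣ) : ZMod N).val := by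
      simp only [x, map_sum, map_pow]
      refine Finset.sum_congr rfl fun u _ => ?_
      rw [← hs, Units.val_mul, ZMod.val_mul, ← pow_mul, ← pow_mul, ← pow_mul]
      have hA : ζ ^ ((v : ZMod N).val * (t * (u : ZMod N).val)) =
          (ζ ^ ((v : ZMod N).val * (u : ZMod N).val)) ^ t := by
        rw [← pow_mul]
        congr 1
        ring
      have hB : ζ ^ (t * ((v : ZMod N).val * (u : ZMod N).val % N)) =
          (ζ ^ ((v : ZMod N).val * (u : ZMod N).val % N)) ^ t := by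
        rw [← pow_mul]
        congr 1
        ring
      rw [hA, hB, ← pow_eq_pow_mod _ hζ.pow_eq_one]
    rw [h2]
    exact Equiv.sum_comp (Equiv.mulLeft v) (fun u : (ZMod N)ˣ => (ζ ^ t) ^ (u : ZMod N).val)
  have hb : x ∈ (⊥ : IntermediateField ℚ K) := (IsGalois.mem_bot_iff_fixed x).2 hx
  rw [IntermediateField.mem_bot] at hb
  obtain ⟨r, hr⟩ := hb
  refine ⟨r, ?_⟩
  have h4 : φ x = ∑ u : (ZMod N)ˣ, w ^ (u : ZMod N).val := by
    simp only [x, map_sum, map_pow, ht]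
  rw [← h4, ← hr, AlgHom.commutes]
  rfl

private theorem gs_pss_pow (n : ℕ) (z : ℂ) : RN2.pss D ((n : ℂ) * z) = RN2.pss D z ^ n := by
  induction n with
  | zero => rw [Nat.cast_zero, zero_mul, RN2.pss_zero, pow_zero]
  | succ n ih =>
    rw [Nat.cast_succ, add_mul, one_mul, RN2.pss_add, ih, pow_succ]

theorem Hc.tau_K : RN2.du m χ.f 1 ∈ D.K := by
  have hu : ∀ u : (ZMod m)ˣ, gsF χ 1 = gsF χ (((u : ZMod m).val : ℕ) : D.O) := by
    intro u
    have hcop := ZMod.val_coe_unit_coprime u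
    have hc : RN2.Cp m ((((u : ZMod m).val : ℤ)) : D.O) := by
      have h1 : IsCoprime (((u : ZMod m).val : ℤ)) (m : ℤ) := Nat.isCoprime_iff_coprime.2 hcop
      have h2 := h1.map (Int.castRingHom D.O)
      simpa [RN2.Cp] using h2
    have h3 := χ.int _ hc
    have h4 : ((((u : ZMod m).val : ℤ)) : D.O) = (((u : ZMod m).val : ℕ) : D.O) := by simp
    rw [h4] at h3 hc
    rw [gs_F_mul χ 1 hc, h3, one_mul, one_mul]
  have h1 : (Fintype.card (ZMod m)ˣ : ℂ) * gsF χ 1 =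
      ∑ k : UNL.G m, χ.f (RN2.rp D k) *
        ∑ u : (ZMod m)ˣ, RN2.pss D (UNL.tp (toU D.a) k) ^ (u : ZMod m).val := by
    have h2 : (Fintype.card (ZMod m)ˣ : ℂ) * gsF χ 1 =
        ∑ u : (ZMod m)ˣ, gsF χ (((u : ZMod m).val : ℕ) : D.O) := by
      rw [← Finset.sum_congr rfl fun u _ => hu u, Finset.sum_const, Finset.card_univ,
        nsmul_eq_mul]
    rw [h2]
    unfold gsF
    rw [Finset.sum_comm]
    refine Finset.sum_congr rfl fun k _ => ?_
    rw [Finset.mul_sum]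
    refine Finset.sum_congr rfl fun u _ => ?_
    rw [Subring.coe_natCast, gs_pss_pow]
  have h2 : ∀ k : UNL.G m, ∃ r : ℚ,
      ∑ u : (ZMod m)ˣ, RN2.pss D (UNL.tp (toU D.a) k) ^ (u : ZMod m).val = r := by
    intro k
    apply gs_gal
    rw [← gs_pss_pow]
    exact RN2.pss_O (tp_N k)
  have h3 : (Fintype.card (ZMod m)ˣ : ℂ) * gsF χ 1 ∈ D.K := by
    rw [h1]
    refine sum_mem fun k _ => ?_
    obtain ⟨r, hr⟩ := h2 k
    rw [hr]
    exact D.K.mul_mem (χ.val _) (SubfieldClass.ratCast_mem D.K r)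
  have h4 : (Fintype.card (ZMod m)ˣ : ℂ) ≠ 0 := Nat.cast_ne_zero.2 Fintype.card_ne_zero
  have h5 : RN2.du m χ.f 1 =
      (m : ℂ)⁻¹ * ((Fintype.card (ZMod m)ˣ : ℂ)⁻¹ * ((Fintype.card (ZMod m)ˣ : ℂ) * gsF χ 1)) := by
    rw [inv_mul_cancel_left₀ h4, gs_F, one_div]
  rw [h5]
  exact D.K.mul_mem (D.K.inv_mem (natCast_mem _ m))
    (D.K.mul_mem (D.K.inv_mem (natCast_mem _ _)) h3)

/-! ### the Gauss sum is real -/

private theorem gs_pss_conj (z : ℂ) :
    (starRingEnd ℂ) (RN2.pss D z) = RN2.pss D ((starRingEnd ℂ) z) := by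
  show (starRingEnd ℂ) (Complex.exp _) = Complex.exp _
  rw [← Complex.exp_conj]
  congr 1
  simp only [map_mul, map_sub, Complex.conj_conj, Complex.conj_ofReal]

private theorem gs_pss_sub {x y : ℂ} (h : x - y ∈ D.O) : RN2.pss D x = RN2.pss D y := by
  have e : x = y + (x - y) := by ring
  rw [e, RN2.pss_add, RN2.pss_O h, mul_one]

/-- conjugation on the classes -/
private def gs_kb (k : UNL.G m) : UNL.G m := RN2.cls m (cj (RN2.rp D k))

private theorem gs_kb_kb (k : UNL.G m) : gs_kb (D := D) (gs_kb (D := D) k) = k := by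
  obtain ⟨z, hz⟩ := RN2.rp_cls (N := m) (cj (RN2.rp D k))
  have h1 : RN2.rp D k = cj (RN2.rp D (gs_kb (D := D) k)) + (m : D.O) * cj z := by
    have h2 := congrArg cj hz
    rw [gs_cj_cj, gs_cj_add, gs_cj_mul, gs_cj_nat] at h2
    exact h2
  have h3 : RN2.cls m (RN2.rp D k) = RN2.cls m (cj (RN2.rp D (gs_kb (D := D) k))) :=
    RN2.cls_eq.2 ⟨_, h1⟩
  rw [RN2.cls_rp] at h3
  exact h3.symm

theorem Hc.tau_real : (starRingEnd ℂ) (RN2.du m χ.f 1) = RN2.du m χ.f 1 := by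
  let e : UNL.G m ≃ UNL.G m :=
    { toFun := gs_kb (D := D)
      invFun := gs_kb (D := D)
      left_inv := gs_kb_kb
      right_inv := gs_kb_kb }
  have hm : (m : ℂ) ≠ 0 := Nat.cast_ne_zero.2 (NeZero.ne m)
  rw [gs_F, map_mul, map_div₀, map_one, map_natCast]
  congr 1
  unfold gsF
  rw [map_sum]
  refine Eq.trans ?_ (e.sum_comp fun k => χ.f (RN2.rp D k) *
    RN2.pss D (((1 : D.O) : ℂ) * UNL.tp (toU D.a) k))
  refine Finset.sum_congr rfl fun k _ => ?_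
  show _ = χ.f (RN2.rp D (gs_kb (D := D) k)) *
    RN2.pss D (((1 : D.O) : ℂ) * UNL.tp (toU D.a) (gs_kb (D := D) k))
  obtain ⟨z, hz⟩ := RN2.rp_cls (N := m) (cj (RN2.rp D k))
  have hz' : cj (RN2.rp D k) = RN2.rp D (gs_kb (D := D) k) + (m : D.O) * z := hz
  have h1 : χ.f (RN2.rp D (gs_kb (D := D) k)) = (starRingEnd ℂ) (χ.f (RN2.rp D k)) := by
    rw [← χ.cjf, hz', χ.per]
  rw [map_mul, h1, gs_pss_conj]
  congr 1
  rw [Subring.coe_one, one_mul, one_mul]
  apply gs_pss_sub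
  rw [RN2.tp_rp, RN2.tp_rp, map_div₀, map_natCast]
  have h2 := congrArg (fun t : D.O => (t : ℂ)) hz'
  simp only [Subring.coe_add, Subring.coe_mul, Subring.coe_natCast] at h2
  have h3 : (starRingEnd ℂ) ((RN2.rp D k : D.O) : ℂ) =
      ((RN2.rp D (gs_kb (D := D) k) : D.O) : ℂ) + m * z := h2
  rw [h3]
  have h4 : (((RN2.rp D (gs_kb (D := D) k) : D.O) : ℂ) + m * z) / m -
      ((RN2.rp D (gs_kb (D := D) k) : D.O) : ℂ) / m = z := by
    field_simp
    ring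
  rw [h4]
  exact z.2

theorem Hc.tau_ne : RN2.du m χ.f 1 ≠ 0 := by
  intro h0
  have hm : (m : ℂ) ≠ 0 := Nat.cast_ne_zero.2 (NeZero.ne m)
  have hF0 : gsF χ 1 = 0 := by
    rw [gs_F] at h0
    exact (mul_eq_zero.1 h0).resolve_left (div_ne_zero one_ne_zero hm)
  have hF : ∀ x : D.O, gsF χ x = 0 := by
    intro x
    rw [gs_F1, hF0, mul_zero]
  set l : UNL.G m := RN2.cls m (1 : D.O) with hl
  have h1 : ∑ r : UNL.G m, gsF χ (RN2.rp D r) *
      RN2.pss D ((RN2.rp D r : ℂ) * UNL.tp (toU D.a) (-l)) =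
      χ.f (RN2.rp D l) * (m : ℂ) ^ 2 := by
    have h2 : ∀ r : UNL.G m, gsF χ (RN2.rp D r) *
        RN2.pss D ((RN2.rp D r : ℂ) * UNL.tp (toU D.a) (-l)) =
        ∑ k : UNL.G m, χ.f (RN2.rp D k) *
          RN2.pss D ((RN2.rp D r : ℂ) * UNL.tp (toU D.a) (k + -l)) := by
      intro r
      unfold gsF
      rw [Finset.sum_mul]
      refine Finset.sum_congr rfl fun k _ => ?_
      rw [RN2.pss_addk, mul_assoc]
    rw [Finset.sum_congr rfl fun r _ => h2 r, Finset.sum_comm]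
    have h3 : ∀ k : UNL.G m, ∑ r : UNL.G m, χ.f (RN2.rp D k) *
        RN2.pss D ((RN2.rp D r : ℂ) * UNL.tp (toU D.a) (k + -l)) =
        if k = l then χ.f (RN2.rp D k) * (m : ℂ) ^ 2 else 0 := by
      intro k
      rw [← Finset.mul_sum, RN2.orthk]
      by_cases hk : k = l
      · rw [if_pos hk, if_pos (by rw [hk, add_neg_cancel])]
      · rw [if_neg hk, if_neg (by
          intro h
          apply hk
          rwa [← sub_eq_add_neg, sub_eq_zero] at h), mul_zero]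
    rw [Finset.sum_congr rfl fun k _ => h3 k]
    simp
  have h4 : χ.f (RN2.rp D l) = 1 := by
    obtain ⟨z, hz⟩ := RN2.rp_cls (N := m) (1 : D.O)
    have h5 := χ.one
    rw [hz, χ.per] at h5
    exact h5
  rw [h4, one_mul] at h1
  have h6 : (m : ℂ) ^ 2 = 0 := by
    rw [← h1]
    refine Finset.sum_eq_zero fun r _ => ?_
    rw [hF, zero_mul]
  exact pow_ne_zero 2 hm h6

theorem E4_conj : (starRingEnd ℂ) (E4 χ.f) = E4 χ.f := by
  let e : D.O ≃ D.O :=
    { toFun := cj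
      invFun := cj
      left_inv := gs_cj_cj
      right_inv := gs_cj_cj }
  unfold E4
  rw [Complex.conj_tsum]
  refine Eq.trans ?_ (e.tsum_eq fun x => χ.f x * (x : ℂ) ^ 2 / ((RN2.nn D x : ℕ) : ℂ) ^ 4)
  refine tsum_congr fun x => ?_
  show _ = χ.f (cj x) * ((cj x : D.O) : ℂ) ^ 2 / ((RN2.nn D (cj x) : ℕ) : ℂ) ^ 4
  rw [χ.cjf, gs_nn_cj, map_div₀, map_mul, map_pow, map_pow, map_natCast]
  rfl

omit [NeZero m] in
/-- `E4` and `La` -/
theorem La_E4 (a : D.O → ℂ) :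
    (starRingEnd ℂ) (La fun x => (starRingEnd ℂ) (a x)) = E4 a := by
  unfold La E4
  rw [Complex.conj_tsum]
  refine tsum_congr fun x => ?_
  rw [map_mul, Complex.conj_conj, map_inv₀, map_mul, map_pow, map_pow, Complex.conj_conj,
    ← RN2.nn_mul_cj]
  by_cases hx : (x : ℂ) = 0
  · rw [hx]
    simp
  · have hc : (starRingEnd ℂ) (x : ℂ) ≠ 0 := (map_ne_zero (starRingEnd ℂ)).2 hx
    field_simp

end

end RNE
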