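import Pool.Agent.RNE.Kd
import Pool.Agent.RNK.Wf
import Pool.Agent.RNK.Wm

open RNK MeasureTheory

/-!
# RNE.Wr: the regulator integral as a lattice sum 

`b = toU D.a`, `b.A = 1`. `UNL.reg_val` (see its use in `RNK/Wf`, `reg_W`):
`∫ Reg = -(4 i N⁶ / κ²) Σ' Wd V x₁ x₂ KK (mm x₁) (mm x₂)`, and `wf_sum` (`RNK/Wf`, private): the sum is
`- conj TT(FT V)`; there the values of `FT V` were rational; here they are real: `conj ψ(z) = ψ(-z)` and
`V(-k,-l) = V(k,l)` (`ev`, `anti`). `∫ XReg = N⁴ ∫ Reg`: proof of `int_XW` in `RNK/Wm`.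
-/

namespace RNE

noncomputable section

variable {D : RNK.OD} {N : ℕ} [NeZero N]

/-- the frequencies are the elements of `O` -/
private theorem wr_mm (a : UNI.Par) (m : ℤ × ℤ) :
    UNL.mm (toU a) m = UNI.xx a (m.1 - a.t * m.2, m.2) := by
  have h := cj_om a
  rw [UNL.mm, tau_toU, h, UNI.xx]
  push_cast
  ring

private theorem wr_inj (a : UNI.Par) {m m' : ℤ × ℤ}
    (h : UNL.mm (toU a) m = UNL.mm (toU a) m') : m = m' := by
  have hs := UNL.tau_im_pos (toU a)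
  have h1 : ((m.1 - m'.1 : ℤ) : ℂ) - ((m.2 - m'.2 : ℤ) : ℂ) *
      (starRingEnd ℂ) (UNL.tau (toU a)) = 0 := by
    simp only [UNL.mm] at h
    push_cast
    linear_combination h
  have h2 : m.2 - m'.2 = 0 := by
    have h3 := congrArg Complex.im h1
    simp only [Complex.sub_im, Complex.mul_im, Complex.intCast_im, Complex.intCast_re,
      Complex.conj_im, zero_mul, add_zero, Complex.zero_im, zero_sub, mul_neg, neg_neg] at h3
    have h4 := (mul_eq_zero.1 h3).resolve_right hs.ne'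
    exact_mod_cast h4
  rw [h2, Int.cast_zero, zero_mul, sub_zero] at h1
  have h5 : m.1 - m'.1 = 0 := by exact_mod_cast h1
  exact Prod.ext (sub_eq_zero.1 h5) (sub_eq_zero.1 h2)

private theorem wr_neg {y : ℂ} (hy : y ∈ D.O) (k : UNL.G N) :
    ps (toU D.a) (y * UNL.tp (toU D.a) (-k)) =
      (starRingEnd ℂ) (ps (toU D.a) (y * UNL.tp (toU D.a) k)) := by
  have h1 : ps (toU D.a) (y * UNL.tp (toU D.a) (k + -k)) =
      ps (toU D.a) (y * UNL.tp (toU D.a) k) * ps (toU D.a) (y * UNL.tp (toU D.a) (-k)) :=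
    RN2.pss_addk (⟨y, hy⟩ : D.O) k (-k)
  have h2 : ps (toU D.a) (y * UNL.tp (toU D.a) (k + -k)) = 1 := by
    rw [add_neg_cancel]
    have h3 : UNL.tp (toU D.a) (0 : UNL.G N) = 0 := by
      simp [UNL.tp]
    rw [h3, mul_zero]
    exact ps_O D.O.zero_mem
  have h4 : ‖ps (toU D.a) (y * UNL.tp (toU D.a) k)‖ = 1 := RN2.pss_norm (D := D) _
  have h5 : ps (toU D.a) (y * UNL.tp (toU D.a) k) ≠ 0 := by
    intro h
    rw [h, norm_zero] at h4
    exact zero_ne_one h4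
  rw [h2] at h1
  have h6 : ps (toU D.a) (y * UNL.tp (toU D.a) k) *
      (starRingEnd ℂ) (ps (toU D.a) (y * UNL.tp (toU D.a) k)) = 1 := by
    rw [Complex.mul_conj, Complex.normSq_eq_norm_sq, h4]
    norm_num
  exact mul_left_cancel₀ h5 (h1.symm.trans h6.symm)

/-- the values of the Fourier transform are real -/
private theorem wr_real {V : UNL.G N → UNL.G N → ℤ}
    (ev : ∀ k l, V (-k) l = V k l) (anti : ∀ k l, V l k = -V k l) (w : Vec) :
    (starRingEnd ℂ) (FTc D (fun k l : UNL.G N => (V k l : ℂ)) w) =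
      FTc D (fun k l : UNL.G N => (V k l : ℂ)) w := by
  by_cases hw : RNP.O2 (toP D) w
  · have ev2 : ∀ k l, V (-k) (-l) = V k l := by
      intro k l
      rw [ev, anti (-l) k, ev, anti k l, neg_neg]
    rw [FTc, if_pos hw, map_sum, ← Equiv.sum_comp (Equiv.neg (UNL.G N))]
    refine Finset.sum_congr rfl fun k _ => ?_
    rw [map_sum, ← Equiv.sum_comp (Equiv.neg (UNL.G N))]
    refine Finset.sum_congr rfl fun l _ => ?_
    simp only [Equiv.neg_apply]
    rw [ev2, map_mul, map_mul, wr_neg hw.1, wr_neg hw.2, Complex.conj_conj, Complex.conj_conj,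
      map_intCast]
  · rw [FTc, if_neg hw, map_zero]

private theorem wr_sum {V : UNL.G N → UNL.G N → ℤ}
    (ev : ∀ k l, V (-k) l = V k l) (anti : ∀ k l, V l k = -V k l) :
    ∑' x : (ℤ × ℤ) × (ℤ × ℤ), UNL.Wd (toU D.a) V x.1 x.2 *
      UNL.KK (UNL.mm (toU D.a) x.1) (UNL.mm (toU D.a) x.2) =
    -(starRingEnd ℂ) (TT (FTc D fun k l => (V k l : ℂ)) e2 e1 v11 v11) := by
  have hmem : ∀ m, UNL.mm (toU D.a) m ∈ D.O := fun m => ⟨_, wr_mm D.a m⟩
  have hsur : ∀ x ∈ D.O, ∃ m, UNL.mm (toU D.a) m = x := by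
    rintro x ⟨m, rfl⟩
    refine ⟨(m.1 + D.a.t * m.2, m.2), ?_⟩
    rw [wr_mm]
    simp
  have hgi : Function.Injective (fun x : (ℤ × ℤ) × (ℤ × ℤ) =>
      ((UNL.mm (toU D.a) x.1, UNL.mm (toU D.a) x.2) : Vec)) := by
    intro x y h
    simp only [Prod.mk.injEq] at h
    exact Prod.ext (wr_inj D.a h.1) (wr_inj D.a h.2)
  have hO : ∀ x : (ℤ × ℤ) × (ℤ × ℤ),
      RNP.O2 (toP D) ((UNL.mm (toU D.a) x.1, UNL.mm (toU D.a) x.2) : Vec) :=
    fun x => ⟨hmem _, hmem _⟩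
  have hsupp : Function.support (fun w : Vec =>
      FTc D (fun k l : UNL.G N => (V k l : ℂ)) w * KG e2 e1 v11 v11 w) ⊆
      Set.range (fun x : (ℤ × ℤ) × (ℤ × ℤ) =>
      ((UNL.mm (toU D.a) x.1, UNL.mm (toU D.a) x.2) : Vec)) := by
    intro w hw
    have h1 : FTc D (fun k l : UNL.G N => (V k l : ℂ)) w ≠ 0 := left_ne_zero_of_mul hw
    have h2 : RNP.O2 (toP D) w := by
      by_contra h
      exact h1 (by rw [FTc, if_neg h])
    obtain ⟨x, hx⟩ := hsur _ h2.1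
    obtain ⟨y, hy⟩ := hsur _ h2.2
    exact ⟨(x, y), Prod.ext hx hy⟩
  rw [TT, ← hgi.tsum_eq hsupp, Complex.conj_tsum, ← tsum_neg]
  refine tsum_congr fun x => ?_
  have h1 : FTc D (fun k l : UNL.G N => (V k l : ℂ)) ((UNL.mm (toU D.a) x.1, UNL.mm (toU D.a) x.2) : Vec) =
      UNL.Wd (toU D.a) V x.1 x.2 := by
    rw [FTc, if_pos (hO x)]
    simp only [UNL.Wd, UNL.ch, ps]
  rw [map_mul, wr_real ev anti, KG_std, ← h1, map_neg, Complex.conj_conj]
  ring

theorem reg_TT (hN : Even N) {V : UNL.G N → UNL.G N → ℤ}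
    (ev : ∀ k l, V (-k) l = V k l) (anti : ∀ k l, V l k = -V k l) (row : ∀ l, ∑ k, V k l = 0)
    (supp : ∀ k l, V k l ≠ 0 → (N / 2) • k = 0) :
    Integrable (fun q : UNL.E × UNL.E =>
      UNL.Gen.XReg (toU D.a) V (UNL.cu (toU D.a) q.1) (UNL.cu (toU D.a) q.2)) ∧
    ∫ q : UNL.E × UNL.E,
      UNL.Gen.XReg (toU D.a) V (UNL.cu (toU D.a) q.1) (UNL.cu (toU D.a) q.2) =
      4 * Complex.I * (N : ℂ) ^ 10 / ((UNL.kap (toU D.a) : ℝ) : ℂ) ^ 2 *
        (starRingEnd ℂ) (TT (FTc D fun k l => (V k l : ℂ)) e2 e1 v11 v11) := by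
  obtain ⟨h1, h2⟩ := UNL.reg_val (toU D.a) N hN V ev anti row supp
  rw [wr_sum ev anti] at h2
  have h3 := fun s t : UNL.G N => UNL.Gen.int_tr (toU D.a) (UNL.Gen.Reg_per2 (toU D.a) V)
    (UNL.tp (toU D.a) s) (UNL.tp (toU D.a) t) h1
  simp only [UNL.Gen.XReg_eq]
  constructor
  · exact integrable_finsetSum _ fun s _ => integrable_finsetSum _ fun t _ => (h3 s t).1
  · rw [integral_finsetSum _ fun s _ => integrable_finsetSum _ fun t _ => (h3 s t).1]
    have e : ∀ s : UNL.G N, ∫ q : UNL.E × UNL.E, ∑ t : UNL.G N,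
        UNL.Reg (toU D.a) V (UNL.cu (toU D.a) q.1 + UNL.tp (toU D.a) s)
          (UNL.cu (toU D.a) q.2 + UNL.tp (toU D.a) t) =
        (N : ℂ) ^ 2 * ∫ q : UNL.E × UNL.E,
          UNL.Reg (toU D.a) V (UNL.cu (toU D.a) q.1) (UNL.cu (toU D.a) q.2) := by
      intro s
      rw [integral_finsetSum _ fun t _ => (h3 s t).1]
      rw [Finset.sum_congr rfl fun t _ => (h3 s t).2]
      rw [Finset.sum_const, Finset.card_univ, Fintype.card_prod, ZMod.card, nsmul_eq_mul]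
      push_cast
      ring
    rw [Finset.sum_congr rfl fun s _ => e s]
    rw [Finset.sum_const, Finset.card_univ, Fintype.card_prod, ZMod.card, nsmul_eq_mul, h2]
    push_cast
    ring

end

end RNE
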