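import Pool.Agent.RNE.Wx
import Pool.Agent.RNE.Wr
import Pool.Agent.RNE.Gs

/-!
# RNE.Wf: the `η`-part of the regulator integrals of a closed weight (stub; prove ALL sorries)

* `twist`: the weight `W_d(k,l) = W(d k, d l)`, `d` prime to `N`, is even, antisymmetric, has row sums `0` (`k ↦ d k`
  is a bijection, `RN2.Cp_inv`) and `(N/2) k = 0` on the support (`(N/2) (d k) = d ((N/2) k)`). So `reg_TT` applies.
* `η.br` is the conjugate character. `Σ_d η(d) ∫ XReg(W_d) = C Σ_d η(d) conj TT(FTc W_d) = C conj (TT (FTc (pw η.br S W)))`,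
  `C = 4 i N¹⁰ / κ²` (`TT` is linear: `TT_summable` for `FTc W_d`: here the values of `FTc W_d` are in a
  cyclotomic field, not in `K`, so use a summability of `Σ |g(w)| |KG(w)|` for bounded `g` supported on `O²`: it
  follows from `UNI.KK_summable` as in `RNK/Sm`, `sum_std`, or from `RNP.TT_summable` for the indicator function of
  `O²`, which is admissible, by comparison: `Summable.of_norm_bounded`).
* `tri_Wc`: `= C conj(k) conj(La (conj η)) = C conj(k) E4 η` (`La_E4`), and `deriv L (-1) = -(6 τ (m y/π)⁵) E4 η`, `y = Im ω`,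
  `κ = π / y` (`UNL.kap`, `sD = 2 y`), `τ = du m η 1 ∈ K`, `τ ≠ 0` (`Hc.tau_K`, `Hc.tau_ne`). So the sum is
  `(2 π)³ ρ deriv L (-1)` with `ρ = - i N¹⁰ conj(k) / (12 τ m⁵ y³)`, `i y ∈ K`, `y² ∈ ℚ` (see the end of `RNK/Wf`).
-/

open RNK MeasureTheory

namespace RNE

noncomputable section

variable {D : RNK.OD} {m : ℕ} [NeZero m] {N : ℕ} [NeZero N]

omit [NeZero m] in
theorem twist {W : UNL.G N → UNL.G N → ℤ}
    (ev : ∀ k l, W (-k) l = W k l) (anti : ∀ k l, W l k = -W k l) (row : ∀ l, ∑ k, W k l = 0)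
    (supp : ∀ k l, W k l ≠ 0 → (N / 2) • k = 0) {d : D.O} (hd : RN2.Cp N d) :
    (∀ k l, W (RN2.ac d (-k)) (RN2.ac d l) = W (RN2.ac d k) (RN2.ac d l)) ∧
    (∀ k l, W (RN2.ac d l) (RN2.ac d k) = -W (RN2.ac d k) (RN2.ac d l)) ∧
    (∀ l, ∑ k, W (RN2.ac d k) (RN2.ac d l) = 0) ∧
    (∀ k l, W (RN2.ac d k) (RN2.ac d l) ≠ 0 → (N / 2) • k = 0) := by
  obtain ⟨d', -, hd'⟩ := RN2.Cp_inv hd
  refine ⟨fun k l => ?_, fun k l => anti _ _, fun l => ?_, fun k l h => ?_⟩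
  · rw [RN2.ac_negk, ev]
  · let e : UNL.G N ≃ UNL.G N :=
      { toFun := RN2.ac d
        invFun := RN2.ac d'
        left_inv := fun k => (hd' k).1
        right_inv := fun k => (hd' k).2 }
    rw [← row (RN2.ac d l)]
    exact e.sum_comp (fun k => W k (RN2.ac d l))
  · have h1 := supp _ _ h
    have h2 : ∀ n : ℕ, RN2.ac d (n • k) = n • RN2.ac d k := by
      intro n
      induction n with
      | zero => rw [zero_smul, zero_smul, RN2.ac_zero]
      | succ n ih => rw [succ_nsmul, succ_nsmul, RN2.ac_addk, ih]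
    rw [← (hd' ((N / 2) • k)).1, h2, h1, RN2.ac_zero]

open Classical in
/-- the indicator function of `O²` -/
private def wfI (D : RNK.OD) (w : Vec) : ℂ := if RNP.O2 (toP D) w then 1 else 0

private theorem wf_ind : RNP.AdmE (toP D) (wfI D) := by
  refine ⟨1, one_pos, ?_, ?_, ?_⟩
  · intro w
    unfold wfI
    split_ifs
    · exact (toP D).K.one_mem
    · exact (toP D).K.zero_mem
  · intro w hw
    rw [Nat.cast_one, one_smul]
    by_contra h
    exact hw (by unfold wfI; rw [if_neg h])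
  · intro w v hv
    have h : RNP.O2 (toP D) (w + ((1 : ℕ) : ℂ) • v) ↔ RNP.O2 (toP D) w := by
      rw [Nat.cast_one, one_smul]
      constructor
      · intro h
        refine ⟨?_, ?_⟩
        · have h1 := (toP D).O.sub_mem h.1 hv.1
          simpa using h1
        · have h1 := (toP D).O.sub_mem h.2 hv.2
          simpa using h1
      · intro h
        exact ⟨(toP D).O.add_mem h.1 hv.1, (toP D).O.add_mem h.2 hv.2⟩
    unfold wfI
    by_cases hw : RNP.O2 (toP D) w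
    · rw [if_pos hw, if_pos (h.2 hw)]
    · rw [if_neg hw, if_neg (fun h1 => hw (h.1 h1))]

private theorem wf_sm (c : UNL.G N → UNL.G N → ℂ) :
    Summable fun w => FTc D c w * KG e2 e1 v11 v11 w := by
  have h1 := (RNP.TT_summable (wf_ind (D := D)) (RNP.Cu_e2 (D := toP D))
    (RNP.Cu_e1 (D := toP D)) (RNP.Cu_v11 (D := toP D))
    (⟨(toP D).K.one_mem, (toP D).K.one_mem⟩ : RNP.K2 (toP D) v11)).norm
  refine Summable.of_norm_bounded (g := fun w => (∑ k : UNL.G N, ∑ l : UNL.G N, ‖c k l‖) *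
    ‖wfI D w * KG e2 e1 v11 v11 w‖) (h1.mul_left _) fun w => ?_
  rw [norm_mul, norm_mul, ← mul_assoc]
  refine mul_le_mul_of_nonneg_right ?_ (norm_nonneg _)
  unfold FTc wfI
  by_cases h : RNP.O2 (toP D) w
  · rw [if_pos h, if_pos h, norm_one, mul_one]
    refine (norm_sum_le _ _).trans (Finset.sum_le_sum fun k _ =>
      (norm_sum_le _ _).trans (Finset.sum_le_sum fun l _ => ?_))
    have e1 : ∀ z : ℂ, ‖ps (toU D.a) z‖ = 1 := fun z => RN2.pss_norm (D := D) z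
    rw [norm_mul, norm_mul, e1, e1, mul_one, mul_one]
  · rw [if_neg h, if_neg h, norm_zero, mul_zero]

omit [NeZero m] in
private theorem wf_pw (η : Hc D m) (S : RN2.Rs D N) (W : UNL.G N → UNL.G N → ℤ) (w : Vec) :
    FTc D (pw η.br S fun k l => (W k l : ℂ)) w = ∑ d ∈ S.s, (starRingEnd ℂ) (η.f d) *
      FTc D (fun k l => ((W (RN2.ac d k) (RN2.ac d l) : ℤ) : ℂ)) w := by
  unfold FTc
  by_cases h : RNP.O2 (toP D) w
  · simp only [if_pos h]
    simp only [pw, Finset.sum_mul]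
    have e1 : ∀ k : UNL.G N, ∑ l : UNL.G N, ∑ d ∈ S.s,
        η.br.f d * (W (RN2.ac d k) (RN2.ac d l) : ℂ) *
          (ps (toU D.a) (w.1 * UNL.tp (toU D.a) k) * ps (toU D.a) (w.2 * UNL.tp (toU D.a) l)) =
        ∑ d ∈ S.s, ∑ l : UNL.G N, η.br.f d * (W (RN2.ac d k) (RN2.ac d l) : ℂ) *
          (ps (toU D.a) (w.1 * UNL.tp (toU D.a) k) * ps (toU D.a) (w.2 * UNL.tp (toU D.a) l)) :=
      fun k => Finset.sum_comm
    rw [Finset.sum_congr rfl fun k _ => e1 k, Finset.sum_comm]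
    refine Finset.sum_congr rfl fun d _ => ?_
    rw [Finset.mul_sum]
    refine Finset.sum_congr rfl fun k _ => ?_
    rw [Finset.mul_sum]
    refine Finset.sum_congr rfl fun l _ => ?_
    show (starRingEnd ℂ) (η.f d) * _ * _ = _
    ring
  · simp only [if_neg h, mul_zero, Finset.sum_const_zero]

/-- the `η`-part in terms of the lattice sum of the `η.br`-part of the weight -/
theorem sum_TT (η : Hc D m) (hN : Even N) (S : RN2.Rs D N)
    {W : UNL.G N → UNL.G N → ℤ} (ev : ∀ k l, W (-k) l = W k l)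
    (anti : ∀ k l, W l k = -W k l) (row : ∀ l, ∑ k, W k l = 0)
    (supp : ∀ k l, W k l ≠ 0 → (N / 2) • k = 0) :
    ∑ d ∈ S.s, η.f d * ∫ q : UNL.E × UNL.E,
      UNL.Gen.XReg (toU D.a) (fun k l => W (RN2.ac d k) (RN2.ac d l))
        (UNL.cu (toU D.a) q.1) (UNL.cu (toU D.a) q.2) =
      4 * Complex.I * (N : ℂ) ^ 10 / ((UNL.kap (toU D.a) : ℝ) : ℂ) ^ 2 *
        (starRingEnd ℂ) (TT (FTc D (pw η.br S fun k l => (W k l : ℂ))) e2 e1 v11 v11) := by
  have hd : ∀ d ∈ S.s, ∫ q : UNL.E × UNL.E,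
      UNL.Gen.XReg (toU D.a) (fun k l => W (RN2.ac d k) (RN2.ac d l))
        (UNL.cu (toU D.a) q.1) (UNL.cu (toU D.a) q.2) =
      4 * Complex.I * (N : ℂ) ^ 10 / ((UNL.kap (toU D.a) : ℝ) : ℂ) ^ 2 *
        (starRingEnd ℂ) (TT (FTc D fun k l => ((W (RN2.ac d k) (RN2.ac d l) : ℤ) : ℂ))
          e2 e1 v11 v11) := by
    intro d hd
    obtain ⟨t1, t2, t3, t4⟩ := twist (D := D) ev anti row supp (S.cp d hd)
    exact (reg_TT (D := D) hN t1 t2 t3 t4).2
  have hT : TT (FTc D (pw η.br S fun k l => (W k l : ℂ))) e2 e1 v11 v11 =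
      ∑ d ∈ S.s, (starRingEnd ℂ) (η.f d) *
        TT (FTc D fun k l => ((W (RN2.ac d k) (RN2.ac d l) : ℤ) : ℂ)) e2 e1 v11 v11 := by
    unfold TT
    have h1 : ∀ w : Vec, FTc D (pw η.br S fun k l => (W k l : ℂ)) w * KG e2 e1 v11 v11 w =
        ∑ d ∈ S.s, (starRingEnd ℂ) (η.f d) *
          (FTc D (fun k l => ((W (RN2.ac d k) (RN2.ac d l) : ℤ) : ℂ)) w *
            KG e2 e1 v11 v11 w) := by
      intro w
      rw [wf_pw, Finset.sum_mul]
      refine Finset.sum_congr rfl fun d _ => ?_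
      ring
    rw [tsum_congr h1, Summable.tsum_finsetSum fun d _ => (wf_sm _).mul_left _]
    refine Finset.sum_congr rfl fun d _ => ?_
    rw [tsum_mul_left]
  rw [hT, map_sum, Finset.mul_sum]
  refine Finset.sum_congr rfl fun d hd' => ?_
  rw [hd d hd', map_mul, Complex.conj_conj]
  ring

/-- from a value of the lattice sum to a value of the regulators -/
theorem val_L (η : Hc D m) {L : ℂ → ℂ}
    (hd : deriv L (-1) = -(6 * RN2.du m η.f 1 * ((m * (UNI.om D.a).im / Real.pi) ^ 5 : ℝ)) *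
      E4 η.f) : ∃ ρ₀ ∈ D.K, ρ₀ ≠ 0 ∧ ∀ k : ℂ,
    4 * Complex.I * (N : ℂ) ^ 10 / ((UNL.kap (toU D.a) : ℝ) : ℂ) ^ 2 *
      (starRingEnd ℂ) (k * La η.br.f) =
      (2 * Real.pi) ^ 3 * (ρ₀ * (starRingEnd ℂ) k) * deriv L (-1) := by
  have hτ := η.tau_K
  have hτ0 := η.tau_ne
  set τ : ℂ := RN2.du m η.f 1 with hτd
  have hLa : (starRingEnd ℂ) (La η.br.f) = E4 η.f := La_E4 η.f
  set y : ℝ := (UNI.om D.a).im with hy
  have hy0 : 0 < y := UNI.om_im_pos D.a
  have hAr : ((toU D.a).A : ℝ) = 1 := by simp [toU]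
  have hA : ((toU D.a).A : ℂ) = 1 := by simp [toU]
  have hsy : UNL.sD (toU D.a) = 2 * y := by
    have h1 := UNL.tau_im (toU D.a)
    rw [tau_toU, hAr, ← hy] at h1
    rw [h1]
    ring
  have hsq : ((y : ℝ) : ℂ) ^ 2 ∈ D.K := by
    have h1 := UNL.sD_sq (toU D.a)
    rw [hsy] at h1
    have e : ((y : ℝ) : ℂ) ^ 2 =
        ((4 * (toU D.a).A * (toU D.a).C - (toU D.a).B ^ 2 : ℤ) : ℂ) / ((4 : ℕ) : ℂ) := by
      have h2 : ((y ^ 2 : ℝ) : ℂ) = ((4 * ((toU D.a).A : ℝ) * (toU D.a).C -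
          ((toU D.a).B : ℝ) ^ 2 : ℝ) : ℂ) / 4 := by
        rw [← h1]
        push_cast
        ring
      rw [← Complex.ofReal_pow, h2]
      push_cast
      ring
    rw [e]
    exact D.K.div_mem (O_sub_K (int_O _)) (O_sub_K (nat_O 4))
  have hI : ((y : ℝ) : ℂ) * Complex.I ∈ D.K := by
    have h4 := UNL.two_A_tau (toU D.a)
    have h5 : UNL.tau (toU D.a) ∈ D.K := by
      rw [tau_toU]
      exact O_sub_K ⟨(0, 1), by simp [UNI.xx]⟩
    have e : ((y : ℝ) : ℂ) * Complex.I =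
        UNL.tau (toU D.a) - ((toU D.a).B : ℂ) / ((2 : ℕ) : ℂ) := by
      rw [hA, hsy] at h4
      push_cast at h4 ⊢
      linear_combination -(1 / 2 : ℂ) * h4
    rw [e]
    exact D.K.sub_mem h5 (D.K.div_mem (O_sub_K (int_O _)) (O_sub_K (nat_O 2)))
  have hyc : ((y : ℝ) : ℂ) ≠ 0 := by exact_mod_cast hy0.ne'
  have hpi : (Real.pi : ℂ) ≠ 0 := by exact_mod_cast Real.pi_ne_zero
  have hm : (m : ℂ) ≠ 0 := Nat.cast_ne_zero.2 (NeZero.ne m)
  have hN : (N : ℂ) ≠ 0 := Nat.cast_ne_zero.2 (NeZero.ne N)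
  have hkap : ((UNL.kap (toU D.a) : ℝ) : ℂ) = Real.pi / ((y : ℝ) : ℂ) := by
    unfold UNL.kap
    rw [hAr, hsy]
    push_cast
    field_simp
  refine ⟨-((N : ℂ) ^ 10 * (((y : ℝ) : ℂ) * Complex.I)) /
    (((12 : ℕ) : ℂ) * τ * (m : ℂ) ^ 5 * (((y : ℝ) : ℂ) ^ 2) ^ 2), ?_, ?_, ?_⟩
  · refine D.K.div_mem (D.K.neg_mem (D.K.mul_mem (pow_mem (O_sub_K (nat_O N)) 10) hI))
      (D.K.mul_mem (D.K.mul_mem (D.K.mul_mem (O_sub_K (nat_O 12)) hτ)
        (pow_mem (O_sub_K (nat_O m)) 5)) (pow_mem hsq 2))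
  · refine div_ne_zero (neg_ne_zero.2 (mul_ne_zero (pow_ne_zero _ hN)
      (mul_ne_zero hyc Complex.I_ne_zero))) ?_
    exact mul_ne_zero (mul_ne_zero (mul_ne_zero (by norm_num) hτ0) (pow_ne_zero _ hm))
      (pow_ne_zero _ (pow_ne_zero _ hyc))
  · intro k
    rw [hd, map_mul, hLa, hkap]
    push_cast
    field_simp
    ring

theorem int_chi (η : Hc D m) (hN : Even N) (hm : m ∣ N) (S : RN2.Rs D N)
    {W : UNL.G N → UNL.G N → ℤ} (hW : CWt (toU D.a) N W) {L : ℂ → ℂ}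
    (hd : deriv L (-1) = -(6 * RN2.du m η.f 1 * ((m * (UNI.om D.a).im / Real.pi) ^ 5 : ℝ)) *
      E4 η.f) :
    ∃ ρ ∈ D.K, ∑ d ∈ S.s, η.f d * ∫ q : UNL.E × UNL.E,
      UNL.Gen.XReg (toU D.a) (fun k l => W (RN2.ac d k) (RN2.ac d l))
        (UNL.cu (toU D.a) q.1) (UNL.cu (toU D.a) q.2) =
      (2 * Real.pi) ^ 3 * ρ * deriv L (-1) := by
  obtain ⟨k, hk, e⟩ := tri_Wc η.br hm S hW
  obtain ⟨ρ₀, h0, -, h1⟩ := val_L (N := N) η hd
  refine ⟨ρ₀ * (starRingEnd ℂ) k, D.K.mul_mem h0 (cj_K hk), ?_⟩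
  rw [sum_TT η hN S hW.ev hW.anti hW.row hW.supp, e, h1 k]

end

end RNE
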