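import Pool.Agent.RNE.Defs
import Pool.Agent.RNP.Ci

/-!
# RNE.Kd: definitions (primitive `K`-valued characters, means, Fourier transforms)
-/

open RNK

namespace RNE

noncomputable section

/-- primitive characters mod `m` with values in `K`, trivial on the integers -/
structure Kc (D : RNK.OD) (m : ℕ) extends RN2.Chr D m where
  val : ∀ x, f x ∈ D.K
  int : ∀ n : ℤ, RN2.Cp m ((n : ℤ) : D.O) → f ((n : ℤ) : D.O) = 1
  prim : ∀ q q' : D.O, q * q' = (m : D.O) → ¬ IsUnit q →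
    ∃ y : D.O, RN2.Cp m (1 + q' * y) ∧ f (1 + q' * y) ≠ 1

variable {D : RNK.OD} {m : ℕ}

/-- the complex conjugate of a character -/
def Hc.br (η : Hc D m) : Kc D m where
  f x := (starRingEnd ℂ) (η.f x)
  mul x y := by rw [η.mul, map_mul]
  one := by rw [η.one, map_one]
  per x y := by rw [η.per]
  zr x hx := by rw [η.zr x hx, map_zero]
  val x := cj_K (η.val x)
  int n hn := by rw [η.int n hn, map_one]
  prim q q' h hq := by
    obtain ⟨y, hy, hy'⟩ := η.prim q q' h hq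
    refine ⟨y, hy, fun h1 => hy' ?_⟩
    have h2 := congrArg (starRingEnd ℂ) h1
    rwa [Complex.conj_conj, map_one] at h2

/-- the mean of `conj(χ(r)) f(r w)` over representatives of the classes prime to `M` -/
def avg (χ : Kc D m) {M : ℕ} (S : RN2.Rs D M) (f : Vec → ℂ) (w : Vec) : ℂ :=
  1 / (S.s.card : ℂ) * ∑ r ∈ S.s, (starRingEnd ℂ) (χ.f r) * f ((r : ℂ) • w)

/-- `c` is the mean for all sufficiently divisible `M` -/
def IsMean (χ : Kc D m) (f : Vec → ℂ) (w : Vec) (c : ℂ) : Prop :=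
  ∃ M₀ : ℕ, 0 < M₀ ∧ ∀ M : ℕ, 0 < M → M₀ ∣ M → ∀ S : RN2.Rs D M, avg χ S f w = c

open Classical in
/-- the projection to the `χ`-part -/
def Pf (χ : Kc D m) (f : Vec → ℂ) (w : Vec) : ℂ :=
  if h : ∃ c, IsMean χ f w c then Classical.choose h else 0

open Classical in
/-- the Fourier transform of a complex weight, on `O²` -/
def FTc (D : RNK.OD) {N : ℕ} [NeZero N] (c : UNL.G N → UNL.G N → ℂ) (w : Vec) : ℂ :=
  if RNP.O2 (toP D) w then ∑ k : UNL.G N, ∑ l : UNL.G N,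
    c k l * (ps (toU D.a) (w.1 * UNL.tp (toU D.a) k) * ps (toU D.a) (w.2 * UNL.tp (toU D.a) l))
  else 0

/-- weights with values in `K` of type `χ` -/
structure Eqv (χ : Kc D m) {N : ℕ} (c : UNL.G N → UNL.G N → ℂ) : Prop where
  val : ∀ k l, c k l ∈ D.K
  eqv : ∀ x : D.O, RN2.Cp N x → ∀ k l, χ.f x * c (RN2.ac x k) (RN2.ac x l) = c k l

/-- the `χ`-part of a weight -/
def pw (χ : Kc D m) {N : ℕ} (S : RN2.Rs D N) (c : UNL.G N → UNL.G N → ℂ) (k l : UNL.G N) : ℂ :=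
  ∑ d ∈ S.s, χ.f d * c (RN2.ac d k) (RN2.ac d l)

/-- closed weights of level `N` without invariance -/
structure CWt (b : UNL.Par) (N : ℕ) [NeZero N] (W : UNL.G N → UNL.G N → ℤ) : Prop where
  ev : ∀ k l, W (-k) l = W k l
  anti : ∀ k l, W l k = -W k l
  row : ∀ l, ∑ k, W k l = 0
  supp : ∀ k l, W k l ≠ 0 → (N / 2) • k = 0
  cl : ∃ (J : ℕ) (q q' : Fin J → ℤ × ℤ) (c : Fin J → UNL.G N → UNL.G N → ℚ),
    (∀ j, UNL.de b (q j) * UNL.de b (q' j) = N) ∧ (∀ j l, c j l 0 = 0) ∧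
    ∀ l k, Al W l k + Al W l (-k) = ∑ j, (Rl b (q j) (c j l) k + Rl b (q j) (c j l) (-k))

end

end RNE
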