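import Pool.Agent.RNE.Kd
import Pool.Agent.RN2.Cd
import Pool.Agent.RNP.Fc

/-!
# RNE.Pe: the projection to the `χ`-part of a function on `K²` (stub; prove ALL sorries)

`f` admissible: `Adm D₀ M f`, `D₀ = toP D`: values in `K`, support in `(1/M) O²`, period `M O²`.
* `mean_ex`: let `w ∈ ℂ²`. If `w ∉ K²` then `f (r w) = 0` for all `r ≠ 0` in `O` (its support is in `K²`), mean `0`. If
  `n w ∈ O²`, `n > 0` natural, put `M₀ = M n m`. For `M₀ ∣ M'` the function `h(r) = conj χ(r) f(r w)` on `O` is periodic mod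
  `M₀` (`M₀ y w = M (m y) (n w)`), and the mean over representatives of the classes prime to `M'` is the mean over
  the classes prime to `M₀`: all fibres of `(O/M')ˣ → (O/M₀)ˣ` have the same number of elements (a surjective
  homomorphism; the lifting is the private lemma `sl_lift` in `RNK/Sl`). Simplest: show that the mean for `M'` equals the
  mean for `M₀`: `Σ_{r mod M'} h(r) = (1/|S₀|) Σ_{s ∈ S₀} Σ_{r mod M'} h(r s')`, `s' ≡ s` mod `M₀` prime to `M'`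
  (`rs_shift` for `M'`), `= (1/|S₀|) Σ_r Σ_s h(r s) = Σ_r (mean of h over S₀)` (`rs_shift` for `M₀`, `r` prime to `M₀`).
* `Pf_spec`: from `mean_ex` and uniqueness of the mean (`Rs D M` is nonempty, `RN2.chars`; two values of `M₀` have
  a common multiple).
* `Pf_add`, `Pf_smul`, `Pf_act`: `avg` is linear in `f`, and `avg (f ∘ g) w = avg f (g w)` (`g (r w) = r g w`); take a common
  multiple of the `M₀`s.
* `Pf_adm`: values: `Pf = avg` for some `M'`, `conj χ(r) ∈ K`. Support: if `Pf f w ≠ 0` then for `M'` divisible by `M₀`,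
  by `M` and by `n M` (`n w ∈ O²`) some `r` prime to `M'` has `f (r w) ≠ 0`, so `M r w ∈ O²`; with `a r + b M' = 1`:
  `M w = a M r w + b M' M w ∈ O²`. Period: `f (r (w + M v)) = f (r w + M (r v)) = f (r w)`. `Pf_supp`: the same.
* `Pf_eqv`: for `w ∈ (1/M) O²` and `x` prime to `M m`: take `M' = (M m)^j` large (same prime divisors, a multiple of
  `M · M · m` and a valid modulus by the proof of `mean_ex` (the values at `w` and `x w` only need `M₀ = M M m`)),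
  `x` is prime to `M'`, `rs_shift`: `avg f (x w) = (1/|S|) Σ conj χ(r) f (r x w) = χ(x) (1/|S|) Σ conj χ(r x) f (r x w)`,
  using `χ(x) conj χ(x) = 1`.
* `Pf_id`: `M = N`, `m ∣ N`: for `w ∈ O²` all `f (r w) = χ(r) f w` (`r` prime to `M'`, so to `N`), the mean is `f w`.
-/

open RNK

namespace RNE

noncomputable section

variable {D : RNK.OD} {m : ℕ} [NeZero m] (χ : Kc D m)

/-! ### elements prime to a modulus -/

/-- lifting of an element prime to `M` to an element prime to `M'` -/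
private theorem pe_lift {M M' : ℕ} (hM' : 0 < M') {s : D.O} (hs : RN2.Cp M s) :
    ∃ z : D.O, RN2.Cp M' (s + (M : D.O) * z) := by
  classical
  have h0 : ((M' : ℕ) : D.O) ≠ 0 := by
    intro h
    have h1 := congrArg (fun y : D.O => (y : ℂ)) h
    have h2 : ((M' : ℕ) : ℂ) = 0 := by
      simpa using h1
    exact hM'.ne' (by exact_mod_cast h2)
  let F : Multiset D.O := UniqueFactorizationMonoid.factors ((M' : ℕ) : D.O)
  let z : D.O := (F.filter fun p => ¬ p ∣ s).prod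
  refine ⟨z, ?_⟩
  refine isCoprime_of_prime_dvd (fun h => h0 h.2) ?_
  intro p hp h1 h2
  obtain ⟨q, hq, hpq⟩ := UniqueFactorizationMonoid.exists_mem_factors_of_dvd h0 hp.irreducible h2
  by_cases hps : p ∣ s
  · have h3 : p ∣ (M : D.O) * z := (dvd_add_right hps).1 h1
    rcases hp.dvd_or_dvd h3 with h4 | h4
    · exact hp.not_isUnit (hs.isUnit_of_dvd' hps h4)
    · obtain ⟨r, hr, hpr⟩ := (Prime.exists_mem_multiset_dvd hp h4)
      obtain ⟨hr1, hr2⟩ := Multiset.mem_filter.1 hr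
      have h5 : Prime r := UniqueFactorizationMonoid.prime_of_factor r hr1
      have h6 : Associated p r := (Prime.dvd_prime_iff_associated hp h5).1 hpr
      exact hr2 (h6.symm.dvd.trans hps)
  · have hqs : ¬ q ∣ s := fun h => hps (hpq.dvd.trans h)
    have h3 : q ∣ z := Multiset.dvd_prod (Multiset.mem_filter.2 ⟨hq, hqs⟩)
    have h4 : p ∣ (M : D.O) * z := (hpq.dvd.trans h3).mul_left _
    exact hps ((dvd_add_left h4).1 h1)

private theorem pe_cp_dvd {M M' : ℕ} (h : M ∣ M') {x : D.O} (hx : RN2.Cp M' x) : RN2.Cp M x := by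
  obtain ⟨k, rfl⟩ := h
  unfold RN2.Cp at hx ⊢
  rw [Nat.cast_mul] at hx
  exact IsCoprime.of_mul_right_left hx

private theorem pe_cp_mul {M M' : ℕ} {x : D.O} (h : RN2.Cp M x) (h' : RN2.Cp M' x) :
    RN2.Cp (M * M') x := by
  unfold RN2.Cp at h h' ⊢
  rw [Nat.cast_mul]
  exact IsCoprime.mul_right h h'

private theorem pe_two_ne {M : ℕ} (hM : 2 ∣ M) {r : D.O} (hr : RN2.Cp M r) : r ≠ 0 := by
  rintro rfl
  have h1 : IsUnit ((M : ℕ) : D.O) := isCoprime_zero_left.1 hr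
  obtain ⟨k, rfl⟩ := hM
  rw [Nat.cast_mul] at h1
  have h2 : IsUnit ((2 : ℕ) : D.O) := isUnit_of_mul_isUnit_left h1
  have h3 := RN2.nn_eq_one.2 h2
  have h4 := RN2.nn_real D ((2 : ℕ) : D.O)
  rw [h3] at h4
  have h5 : ((((2 : ℕ) : D.O)) : ℂ) = 2 := by
    push_cast
    rfl
  rw [h5] at h4
  norm_num at h4

/-- representatives -/
private theorem pe_rs (D : RNK.OD) {M : ℕ} (hM : 0 < M) : Nonempty (RN2.Rs D M) := by
  haveI : NeZero M := ⟨hM.ne'⟩
  obtain ⟨S, -⟩ := RN2.chars D M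
  exact ⟨S⟩

/-- the mean of a periodic function does not depend on the modulus -/
private theorem pe_mean {M M' : ℕ} (hM : 0 < M) (hM' : 0 < M') (hd : M ∣ M') {h : D.O → ℂ}
    (hh : RN2.Pe M h) (S : RN2.Rs D M) (S' : RN2.Rs D M') :
    1 / (S'.s.card : ℂ) * ∑ r ∈ S'.s, h r = 1 / (S.s.card : ℂ) * ∑ s ∈ S.s, h s := by
  classical
  haveI : NeZero M := ⟨hM.ne'⟩
  haveI : NeZero M' := ⟨hM'.ne'⟩
  have hc : (S.s.card : ℂ) ≠ 0 := by exact_mod_cast (RN2.card_pos S).ne'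
  have hc' : (S'.s.card : ℂ) ≠ 0 := by exact_mod_cast (RN2.card_pos S').ne'
  have hh' : RN2.Pe M' h := by
    intro x y
    obtain ⟨k, rfl⟩ := hd
    have e : x + ((M * k : ℕ) : D.O) * y = x + (M : D.O) * ((k : D.O) * y) := by
      rw [Nat.cast_mul]
      ring
    rw [e, hh]
  have hl : ∀ s : D.O, ∃ z : D.O, s ∈ S.s → RN2.Cp M' (s + (M : D.O) * z) := by
    intro s
    by_cases hs : s ∈ S.s
    · obtain ⟨z, hz⟩ := pe_lift (M := M) hM' (S.cp s hs)
      exact ⟨z, fun _ => hz⟩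
    · exact ⟨0, fun h => absurd h hs⟩
  choose z hz using hl
  have h1 : ∑ s ∈ S.s, ∑ r ∈ S'.s, h (r * (s + (M : D.O) * z s)) =
      (S.s.card : ℂ) * ∑ r ∈ S'.s, h r := by
    rw [Finset.sum_congr rfl fun s hs => RN2.rs_shift S' (hz s hs) hh', Finset.sum_const,
      nsmul_eq_mul]
  have h2 : ∑ s ∈ S.s, ∑ r ∈ S'.s, h (r * (s + (M : D.O) * z s)) =
      (S'.s.card : ℂ) * ∑ s ∈ S.s, h s := by
    rw [Finset.sum_comm]
    have h3 : ∀ r ∈ S'.s, ∑ s ∈ S.s, h (r * (s + (M : D.O) * z s)) = ∑ s ∈ S.s, h s := by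
      intro r hr
      rw [← RN2.rs_shift S (pe_cp_dvd hd (S'.cp r hr)) hh]
      refine Finset.sum_congr rfl fun s _ => ?_
      have e : r * (s + (M : D.O) * z s) = s * r + (M : D.O) * (r * z s) := by ring
      rw [e, hh]
    rw [Finset.sum_congr rfl h3, Finset.sum_const, nsmul_eq_mul]
  rw [h1] at h2
  field_simp
  linear_combination h2

/-! ### the character -/

private theorem pe_mul_br {x : D.O} (hx : ‖χ.f x‖ = 1) : χ.f x * (starRingEnd ℂ) (χ.f x) = 1 := by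
  rw [Complex.mul_conj, Complex.normSq_eq_norm_sq, hx]
  simp

theorem Kc.norm {x : D.O} (hx : RN2.Cp m x) : ‖χ.f x‖ = 1 := by
  have h3 : ∀ n : ℕ, χ.f (x ^ n) = χ.f x ^ n := by
    intro n
    induction n with
    | zero => rw [pow_zero, pow_zero, χ.one]
    | succ n ih => rw [pow_succ, χ.mul, ih, pow_succ]
  obtain ⟨i, j, hij, he⟩ := Finite.exists_ne_map_eq_of_infinite
    (fun k : ℕ => fun g : UNL.G m => RN2.ac (x ^ k) g)
  have hne : χ.f x ≠ 0 := by
    obtain ⟨a, b, hab⟩ := hx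
    intro h0
    have h1 : χ.f (a * x) = 1 := by
      have e : a * x = 1 + (m : D.O) * (-b) := by
        rw [← hab]
        ring
      rw [e, χ.per, χ.one]
    rw [χ.mul, h0, mul_zero] at h1
    exact zero_ne_one h1
  have key : ∀ i j : ℕ, i < j → (fun g : UNL.G m => RN2.ac (x ^ i) g) =
      (fun g : UNL.G m => RN2.ac (x ^ j) g) → ‖χ.f x‖ = 1 := by
    intro i j hij he
    obtain ⟨z, hz⟩ := RN2.ac_eq.1 (fun k => congrFun he k)
    have h5 : χ.f x ^ i = χ.f x ^ j := by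
      rw [← h3, ← h3, hz, χ.per]
    have h6 : χ.f x ^ (j - i) = 1 := by
      have h7 : χ.f x ^ i * χ.f x ^ (j - i) = χ.f x ^ i * 1 := by
        rw [← pow_add, Nat.add_sub_cancel' hij.le, mul_one, h5]
      exact mul_left_cancel₀ (pow_ne_zero _ hne) h7
    exact Complex.norm_eq_one_of_pow_eq_one h6 (by omega)
  rcases lt_or_gt_of_ne hij with h | h
  · exact key i j h he
  · exact key j i h he.symm

/-! ### means -/

omit [NeZero m] in
private theorem pe_uniq {f : Vec → ℂ} {w : Vec} {c c' : ℂ} (h : IsMean χ f w c)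
    (h' : IsMean χ f w c') : c = c' := by
  obtain ⟨M, hM, h⟩ := h
  obtain ⟨M', hM', h'⟩ := h'
  have hp : 0 < M * M' := Nat.mul_pos hM hM'
  obtain ⟨S⟩ := pe_rs D hp
  rw [← h _ hp (dvd_mul_right M M') S, ← h' _ hp (dvd_mul_left M' M) S]

omit [NeZero m] in
private theorem pe_zero {f : Vec → ℂ} {w : Vec} {M₀ : ℕ} (h0 : 0 < M₀)
    (h : ∀ r : D.O, RN2.Cp M₀ r → f ((r : ℂ) • w) = 0) : IsMean χ f w 0 := by
  refine ⟨M₀, h0, fun M _ hd S => ?_⟩
  unfold avg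
  rw [Finset.sum_eq_zero fun r hr => ?_, mul_zero]
  rw [h r (pe_cp_dvd hd (S.cp r hr)), mul_zero]

omit [NeZero m] in
private theorem pe_notK {M : ℕ} {f : Vec → ℂ} (hf : RNP.Adm (toP D) M f) {w : Vec}
    (hw : ¬ RNP.K2 (toP D) w) : IsMean χ f w 0 := by
  refine pe_zero χ (M₀ := 2) two_pos fun r hr => ?_
  by_contra h1
  apply hw
  have h2 := RNP.O2_K2 (hf.supp _ h1)
  have hr0 : (r : ℂ) ≠ 0 := fun h => pe_two_ne dvd_rfl hr (Subtype.ext h)
  have hM0 : (M : ℂ) ≠ 0 := by exact_mod_cast hf.pos.ne'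
  have hrK : ((r : ℂ))⁻¹ ∈ (toP D).K := (toP D).K.inv_mem (RNP.O_sub_K (D := toP D) r.2)
  have hMK : ((M : ℂ))⁻¹ ∈ (toP D).K := (toP D).K.inv_mem (natCast_mem _ M)
  have h3 := RNP.K2_smul (D := toP D) hrK (RNP.K2_smul (D := toP D) hMK h2)
  rwa [smul_smul ((M : ℂ))⁻¹, inv_mul_cancel₀ hM0, one_smul, smul_smul, inv_mul_cancel₀ hr0,
    one_smul] at h3

omit [NeZero m] in
private theorem pe_per {M n : ℕ} {f : Vec → ℂ} (hf : RNP.Adm (toP D) M f) {w : Vec}
    (hw : RNP.O2 (toP D) ((n : ℂ) • w)) :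
    RN2.Pe (M * n * m) (fun r : D.O => (starRingEnd ℂ) (χ.f r) * f ((r : ℂ) • w)) := by
  intro x y
  have e1 : x + ((M * n * m : ℕ) : D.O) * y = x + (m : D.O) * (((M * n : ℕ) : D.O) * y) := by
    push_cast
    ring
  have e2 : (((x + ((M * n * m : ℕ) : D.O) * y : D.O)) : ℂ) • w =
      (x : ℂ) • w + (M : ℂ) • (((m : ℂ) * (y : ℂ)) • ((n : ℂ) • w)) := by
    rw [smul_smul, smul_smul, ← add_smul]
    congr 1
    push_cast
    ring
  have h1 : χ.f (x + ((M * n * m : ℕ) : D.O) * y) = χ.f x := by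
    rw [e1, χ.per]
  have h2 : f ((((x + ((M * n * m : ℕ) : D.O) * y : D.O)) : ℂ) • w) = f ((x : ℂ) • w) := by
    rw [e2]
    exact hf.per _ _ (RNP.O2_smul (D := toP D) ((toP D).O.mul_mem (natCast_mem _ m) y.2) hw)
  show (starRingEnd ℂ) (χ.f (x + ((M * n * m : ℕ) : D.O) * y)) *
    f ((((x + ((M * n * m : ℕ) : D.O) * y : D.O)) : ℂ) • w) = _
  rw [h1, h2]

/-- the mean from one modulus -/
private theorem pe_val {M n : ℕ} (hn : 0 < n) {f : Vec → ℂ} (hf : RNP.Adm (toP D) M f) {w : Vec}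
    (hw : RNP.O2 (toP D) ((n : ℂ) • w)) (S : RN2.Rs D (M * n * m)) :
    IsMean χ f w (avg χ S f w) := by
  have hp : 0 < M * n * m := Nat.mul_pos (Nat.mul_pos hf.pos hn) (Nat.pos_of_ne_zero (NeZero.ne m))
  refine ⟨M * n * m, hp, fun M' hM' hd S' => ?_⟩
  exact pe_mean hp hM' hd (pe_per χ hf hw) S S'

theorem mean_ex {f : Vec → ℂ} (hf : RNP.AdmE (toP D) f) (w : Vec) : ∃ c, IsMean χ f w c := by
  obtain ⟨M, hf⟩ := hf
  by_cases hw : RNP.K2 (toP D) w
  · obtain ⟨n, hn, h1⟩ := RNP.clear (D := toP D) hw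
    have hp : 0 < M * n * m :=
      Nat.mul_pos (Nat.mul_pos hf.pos hn) (Nat.pos_of_ne_zero (NeZero.ne m))
    obtain ⟨S⟩ := pe_rs D hp
    exact ⟨_, pe_val χ hn hf h1 S⟩
  · exact ⟨0, pe_notK χ hf hw⟩

theorem Pf_spec {f : Vec → ℂ} (hf : RNP.AdmE (toP D) f) (w : Vec) :
    IsMean χ f w (Pf χ f w) := by
  have h := mean_ex χ hf w
  unfold Pf
  rw [dif_pos h]
  exact Classical.choose_spec h

private theorem pe_eq {f : Vec → ℂ} (hf : RNP.AdmE (toP D) f) {w : Vec} {c : ℂ}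
    (h : IsMean χ f w c) : Pf χ f w = c := pe_uniq χ (Pf_spec χ hf w) h

theorem Pf_add {f g : Vec → ℂ} (hf : RNP.AdmE (toP D) f) (hg : RNP.AdmE (toP D) g) :
    Pf χ (fun w => f w + g w) = fun w => Pf χ f w + Pf χ g w := by
  funext w
  refine pe_eq χ (RNP.AdmE_add (D := toP D) hf hg) ?_
  obtain ⟨M, hM, h⟩ := Pf_spec χ hf w
  obtain ⟨M', hM', h'⟩ := Pf_spec χ hg w
  refine ⟨M * M', Nat.mul_pos hM hM', fun L hL hd S => ?_⟩
  rw [← h L hL ((dvd_mul_right M M').trans hd) S, ← h' L hL ((dvd_mul_left M' M).trans hd) S]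
  unfold avg
  rw [← mul_add, ← Finset.sum_add_distrib]
  congr 1
  refine Finset.sum_congr rfl fun r _ => ?_
  ring

theorem Pf_smul {f : Vec → ℂ} (hf : RNP.AdmE (toP D) f) {k : ℂ} (hk : k ∈ D.K) :
    Pf χ (fun w => k * f w) = fun w => k * Pf χ f w := by
  funext w
  refine pe_eq χ (RNP.AdmE_smul (D := toP D) hk hf) ?_
  obtain ⟨M, hM, h⟩ := Pf_spec χ hf w
  refine ⟨M, hM, fun L hL hd S => ?_⟩
  rw [← h L hL hd S]
  unfold avg
  have h1 : ∀ r : D.O, (starRingEnd ℂ) (χ.f r) * (k * f ((r : ℂ) • w)) =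
      k * ((starRingEnd ℂ) (χ.f r) * f ((r : ℂ) • w)) := fun r => by ring
  rw [Finset.sum_congr rfl fun r _ => h1 r, ← Finset.mul_sum]
  ring

theorem Pf_act {f : Vec → ℂ} (hf : RNP.AdmE (toP D) f) {g : Mat} (hg : RNP.GK (toP D) g) :
    Pf χ (fun w => f (g.act w)) = fun w => Pf χ f (g.act w) := by
  funext w
  refine pe_eq χ (RNP.AdmE_act (D := toP D) hg hf) ?_
  obtain ⟨M, hM, h⟩ := Pf_spec χ hf (g.act w)
  refine ⟨M, hM, fun L hL hd S => ?_⟩
  rw [← h L hL hd S]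
  unfold avg
  congr 1
  refine Finset.sum_congr rfl fun r _ => ?_
  show (starRingEnd ℂ) (χ.f r) * f (g.act ((r : ℂ) • w)) = _
  rw [RNP.act_smul]

private theorem pe_cop {M : ℕ} {r : D.O} (hr : RN2.Cp M r) :
    RNP.Cop (toP D) (r : ℂ) (M : ℂ) := by
  obtain ⟨a, b, hab⟩ := hr
  refine ⟨r.2, natCast_mem _ M, a, a.2, b, b.2, ?_⟩
  have h1 := congrArg (fun y : D.O => (y : ℂ)) hab
  simpa using h1

/-- if `f` is supported on `(1/k) O²` so is the projection -/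
private theorem pe_sup {M k : ℕ} {f : Vec → ℂ} (hf : RNP.Adm (toP D) M f)
    (hs : ∀ w, f w ≠ 0 → RNP.O2 (toP D) ((k : ℂ) • w)) {w : Vec} (hw : Pf χ f w ≠ 0) :
    RNP.O2 (toP D) ((k : ℂ) • w) := by
  by_contra hcon
  apply hw
  by_cases hK : RNP.K2 (toP D) w
  · obtain ⟨n, hn, h1⟩ := RNP.clear (D := toP D) hK
    refine pe_eq χ ⟨M, hf⟩ (pe_zero χ hn fun r hr => ?_)
    by_contra h2
    apply hcon
    refine RNP.cop_O2 (D := toP D) (pe_cop hr) ?_ ?_
    · have h3 := hs _ h2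
      rwa [smul_comm] at h3
    · rw [smul_comm]
      exact RNP.O2_smul (D := toP D) (natCast_mem _ k) h1
  · exact pe_eq χ ⟨M, hf⟩ (pe_notK χ hf hK)

theorem Pf_adm {M : ℕ} {f : Vec → ℂ} (hf : RNP.Adm (toP D) M f) :
    RNP.Adm (toP D) M (Pf χ f) := by
  constructor
  · exact hf.pos
  · intro w
    obtain ⟨M₀, hM₀, h⟩ := Pf_spec χ ⟨M, hf⟩ w
    obtain ⟨S⟩ := pe_rs D hM₀
    rw [← h M₀ hM₀ dvd_rfl S]
    unfold avg
    refine (toP D).K.mul_mem ?_ ?_
    · exact (toP D).K.div_mem (toP D).K.one_mem (natCast_mem _ _)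
    · refine Subfield.sum_mem _ fun r _ => (toP D).K.mul_mem ?_ (hf.val _)
      exact RNP.cj_K (D := toP D) (χ.val r)
  · intro w hw
    exact pe_sup χ hf hf.supp hw
  · intro w v hv
    refine pe_eq χ ⟨M, hf⟩ ?_
    obtain ⟨M₀, hM₀, h⟩ := Pf_spec χ ⟨M, hf⟩ w
    refine ⟨M₀, hM₀, fun L hL hd S => ?_⟩
    rw [← h L hL hd S]
    unfold avg
    congr 1
    refine Finset.sum_congr rfl fun r _ => ?_
    congr 1
    rw [smul_add, smul_comm]
    exact hf.per _ _ (RNP.O2_smul (D := toP D) r.2 hv)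

theorem Pf_eqv {M : ℕ} {f : Vec → ℂ} (hf : RNP.Adm (toP D) M f) {w : Vec}
    (hw : RNP.O2 (toP D) ((M : ℂ) • w)) {x : D.O} (hx : RN2.Cp (M * m) x) :
    Pf χ f ((x : ℂ) • w) = χ.f x * Pf χ f w := by
  have hmp : 0 < m := Nat.pos_of_ne_zero (NeZero.ne m)
  have hp : 0 < M * M * m := Nat.mul_pos (Nat.mul_pos hf.pos hf.pos) hmp
  haveI : NeZero (M * M * m) := ⟨hp.ne'⟩
  obtain ⟨S⟩ := pe_rs D hp
  have hxw : RNP.O2 (toP D) ((M : ℂ) • ((x : ℂ) • w)) := by
    rw [smul_comm]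
    exact RNP.O2_smul (D := toP D) x.2 hw
  have h1 := pe_eq χ ⟨M, hf⟩ (pe_val χ hf.pos hf hw S)
  have h2 := pe_eq χ ⟨M, hf⟩ (pe_val χ hf.pos hf hxw S)
  rw [h1, h2]
  have hxm : RN2.Cp m x := pe_cp_dvd (dvd_mul_left m M) hx
  have hxM : RN2.Cp M x := pe_cp_dvd (dvd_mul_right M m) hx
  have hx' : RN2.Cp (M * M * m) x := pe_cp_mul (pe_cp_mul hxM hxM) hxm
  have h3 := RN2.rs_shift S hx' (pe_per χ hf hw)
  have h4 : χ.f x * (starRingEnd ℂ) (χ.f x) = 1 := pe_mul_br χ (Kc.norm χ hxm)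
  unfold avg
  rw [← h3]
  have h5 : ∀ r : D.O, (starRingEnd ℂ) (χ.f (r * x)) * f (((r * x : D.O) : ℂ) • w) =
      (starRingEnd ℂ) (χ.f x) * ((starRingEnd ℂ) (χ.f r) * f ((r : ℂ) • ((x : ℂ) • w))) := by
    intro r
    rw [χ.mul, map_mul, smul_smul, Subring.coe_mul]
    ring
  rw [Finset.sum_congr rfl fun r _ => h5 r, ← Finset.mul_sum]
  linear_combination (-(1 / (S.s.card : ℂ) * ∑ r ∈ S.s,
    (starRingEnd ℂ) (χ.f r) * f ((r : ℂ) • ((x : ℂ) • w)))) * h4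

/-- functions of type `χ` are not changed -/
theorem Pf_id {N : ℕ} (hN : 0 < N) (hm : m ∣ N) {V : Finset ℂ} (hV : ∀ v ∈ V, v ∈ D.K)
    {f : Vec → ℂ} (hf : RNP.Fn (toP D) N V f)
    (he : ∀ x : D.O, RN2.Cp N x → ∀ w, RNP.O2 (toP D) w →
      f ((x : ℂ) • w) = χ.f x * f w) : Pf χ f = f := by
  have ha : RNP.Adm (toP D) N f := RNP.Fn_Adm (D := toP D) hN hV hf
  funext w
  by_cases hw : RNP.O2 (toP D) w
  · refine pe_eq χ ⟨N, ha⟩ ⟨N, hN, fun M hM hd S => ?_⟩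
    haveI : NeZero M := ⟨hM.ne'⟩
    have hc : (S.s.card : ℂ) ≠ 0 := by exact_mod_cast (RN2.card_pos S).ne'
    unfold avg
    have h1 : ∀ r ∈ S.s, (starRingEnd ℂ) (χ.f r) * f ((r : ℂ) • w) = f w := by
      intro r hr
      have hrN : RN2.Cp N r := pe_cp_dvd hd (S.cp r hr)
      have h4 : χ.f r * (starRingEnd ℂ) (χ.f r) = 1 :=
        pe_mul_br χ (Kc.norm χ (pe_cp_dvd hm hrN))
      rw [he r hrN w hw]
      linear_combination (f w) * h4
    rw [Finset.sum_congr rfl h1, Finset.sum_const, nsmul_eq_mul]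
    field_simp
  · have h1 : f w = 0 := by
      by_contra h
      exact hw (hf.supp w h)
    rw [h1]
    by_contra h2
    apply hw
    have h3 := pe_sup χ (k := 1) ha (fun v hv => by
      rw [Nat.cast_one, one_smul]
      exact hf.supp v hv) h2
    rwa [Nat.cast_one, one_smul] at h3

end

end RNE
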